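import Pool.Agent.N408.CMO.Stmts2
import Pool.Agent.W76.MO.Asm4

/-!
# Task A2: the first block (helper322, adapted from `Pool.Agent.W76.MO.Asm4`)
-/

set_option autoImplicit false

namespace Pool.Agent.N408.CMO.A2

open Finset
open scoped Classical
open Pool.Agent.W76.MO Pool.Agent.N408.CMO

theorem main : T_A2 := by
  intro E hGB R
  obtain ⟨J, hJ, hGB⟩ := hGB
  refine ⟨max J 10, by omega, fun j hj => ?_⟩
  have hj10 : 10 ≤ j := (le_max_right _ _).trans hj
  obtain ⟨hUB, hu0, hh0, hgu, hgh, _, hghq, hsum, _⟩ := hGB j ((le_max_left _ _).trans hj)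
  have hj1 : 1 ≤ j := by omega
  have hjr : (1 : ℝ) ≤ j := by exact_mod_cast hj1
  have hcU := E.hcU
  have hcard : 0 < ((E.UB j).card : ℝ) := lt_of_lt_of_le (by positivity) hUB
  have hUBp : ∀ p ∈ E.UB j, p.Prime := by
    intro p hp
    unfold Env.UB at hp
    exact E.u_prime p (mem_filter.1 hp).2
  have hghU : ∀ q, E.gh j q ≠ 0 → ¬ E.U j q := fun q hq => (hgh q hq).2.1
  have hg0 : ∀ p, 0 ≤ E.g j p := fun p => E.g_nonneg j p hu0 hh0
  -- every prime with a perturbation is large
  have hlarge : ∀ p : ℕ, E.g j p ≠ 0 → (2 : ℝ) ^ ((j : ℝ) / 2) ≤ p := by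
    intro p hp
    by_cases h1 : E.gh j p = 0
    · have h2 : E.gu j p ≠ 0 := by
        intro h2
        apply hp
        unfold Env.g
        rw [h1, h2, add_zero]
      have h3 := (hgu p h2).2
      have h4 : (2 : ℝ) ^ ((j : ℝ) / 2) ≤ (2 : ℝ) ^ (((j - 1 : ℕ) : ℝ)) := by
        apply Real.rpow_le_rpow_of_exponent_le (by norm_num)
        rw [Nat.cast_sub hj1]
        have : (10 : ℝ) ≤ j := by exact_mod_cast hj10
        push_cast
        linarith
      rw [Real.rpow_natCast] at h4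
      have h5 : ((2 ^ (j - 1) : ℕ) : ℝ) < p := by exact_mod_cast h3
      push_cast at h5
      linarith
    · exact (hghq p h1).1
  have hinj : ∀ p q : ℕ, p.Prime → E.g j p ≠ 0 → E.g j q ≠ 0 → 2 ^ j < p * q := by
    intro p q hpp hp hq
    have h1 := hlarge p hp
    have h2 := hlarge q hq
    have h3 : (2 : ℝ) ^ ((j : ℝ) / 2) * (2 : ℝ) ^ ((j : ℝ) / 2) = ((2 ^ j : ℕ) : ℝ) := by
      rw [← Real.rpow_add (by norm_num)]
      push_cast
      rw [← Real.rpow_natCast]
      congr 1
      ring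
    have h4 : (0 : ℝ) < (2 : ℝ) ^ ((j : ℝ) / 2) := by positivity
    rcases lt_trichotomy p q with h | h | h
    · have h5 : (p : ℝ) < q := by exact_mod_cast h
      have h6 : ((2 ^ j : ℕ) : ℝ) < ((p * q : ℕ) : ℝ) := by
        rw [← h3]; push_cast; nlinarith
      exact_mod_cast h6
    · subst h
      have h6 : ((2 ^ j : ℕ) : ℝ) ≤ ((p * p : ℕ) : ℝ) := by
        rw [← h3]; push_cast; nlinarith
      have h7 : 2 ^ j ≤ p * p := by exact_mod_cast h6
      rcases h7.lt_or_eq with h8 | h8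
      · exact h8
      · exfalso
        have h9 : p ∣ 2 ^ j := by rw [h8]; exact dvd_mul_right p p
        have h10 : p = 2 := (Nat.prime_dvd_prime_iff_eq hpp Nat.prime_two).1
          (hpp.dvd_of_dvd_pow h9)
        rw [h10] at h8
        have h11 : 2 ^ 10 ≤ 2 ^ j := Nat.pow_le_pow_right (by norm_num) hj10
        omega
    · have h5 : (q : ℝ) < p := by exact_mod_cast h
      have h6 : ((2 ^ j : ℕ) : ℝ) < ((p * q : ℕ) : ℝ) := by
        rw [← h3]; push_cast; nlinarith
      exact_mod_cast h6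
  have hgz0 : ∀ z : ℕ × ℕ → ℝ, (∀ i, |z i| ≤ 1) → ∀ p, E.g j p = 0 → E.gz j z p = 0 := by
    intro z hz p hp
    have := E.gz_le j z 1 hz hu0 p
    rw [hp, mul_zero] at this
    exact abs_eq_zero.1 (le_antisymm this (abs_nonneg _))
  refine ⟨Finset.card_pos.1 (by exact_mod_cast hcard), hUBp, ?_, ?_⟩
  · intro z z' p hp
    unfold fc
    rw [cm_prime _ (hUBp p hp), cm_prime _ (hUBp p hp), (E.gz_first j z hghU p hp).1,
      (E.gz_first j z' hghU p hp).1]
    ring
  refine ⟨fun n => ∑ p ∈ n.primeFactors, E.g j p * (1 / ((n / p : ℕ) : ℝ)), ?_, ?_, ?_, ?_⟩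
  · intro n
    exact sum_nonneg fun p _ => mul_nonneg (hg0 p) (by positivity)
  · intro p hp
    simp only
    rw [(hUBp p hp).primeFactors, sum_singleton, Nat.div_self (hUBp p hp).pos,
      (E.gz_first j (fun _ => 0) hghU p hp).2]
    simp
  · have hsplit : ∑ n ∈ A0c R j, ∑ p ∈ n.primeFactors, E.g j p * (1 / ((n / p : ℕ) : ℝ)) =
        ∑ n ∈ A0c R j, ∑ p ∈ n.primeFactors, E.gu j p * (1 / ((n / p : ℕ) : ℝ)) +
        ∑ n ∈ A0c R j, ∑ p ∈ n.primeFactors, E.gh j p * (1 / ((n / p : ℕ) : ℝ)) := by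
      rw [← sum_add_distrib]
      refine sum_congr rfl fun n _ => ?_
      rw [← sum_add_distrib]
      refine sum_congr rfl fun p _ => ?_
      unfold Env.g
      ring
    -- first part
    have hp1 : ∑ n ∈ A0c R j, ∑ p ∈ n.primeFactors, E.gu j p * (1 / ((n / p : ℕ) : ℝ)) ≤
        8 * j := by
      have h1 : ∀ n ∈ A0c R j, ∑ p ∈ n.primeFactors, E.gu j p * (1 / ((n / p : ℕ) : ℝ)) =
          if n ∈ E.UB j then 8 * j / ((E.UB j).card : ℝ) else 0 := by
        intro n hn
        unfold A0c at hn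
        rw [mem_filter, mem_Icc] at hn
        obtain ⟨⟨hn1, hn2⟩, _⟩ := hn
        have hkey : ∀ p ∈ n.primeFactors, E.gu j p ≠ 0 → p = n ∧ n ∈ E.UB j := by
          intro p hp hg
          have hpn := Nat.dvd_of_mem_primeFactors hp
          obtain ⟨hU, hlt⟩ := hgu p hg
          obtain ⟨m, rfl⟩ := hpn
          have hjj : 2 ^ j = 2 * 2 ^ (j - 1) := by
            rw [← pow_succ']
            congr 1
            omega
          have hm : m = 1 := by
            have hm0 : m ≠ 0 := by rintro rfl; omega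
            by_contra hm1
            have : 2 ≤ m := by omega
            nlinarith
          subst hm
          rw [mul_one] at hn2 ⊢
          exact ⟨rfl, by unfold Env.UB; exact mem_filter.2 ⟨mem_Ioc.2 ⟨hlt, hn2⟩, hU⟩⟩
        split_ifs with hmem
        · have hnp := hUBp n hmem
          rw [hnp.primeFactors, sum_singleton, Nat.div_self hnp.pos]
          have hgun : E.gu j n = 8 * j / ((E.UB j).card : ℝ) := by
            have hmem' := hmem
            unfold Env.UB at hmem'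
            rw [mem_filter, mem_Ioc] at hmem'
            unfold Env.gu
            rw [if_pos ⟨hmem'.2, hmem'.1.1⟩, if_pos hmem'.1.2]
          rw [hgun]
          simp
        · refine sum_eq_zero fun p hp => ?_
          by_cases hg : E.gu j p = 0
          · rw [hg, zero_mul]
          · exact absurd (hkey p hp hg).2 hmem
      rw [sum_congr rfl h1, ← sum_filter, sum_const, nsmul_eq_mul]
      have h2 : (((A0c R j).filter (fun n => n ∈ E.UB j)).card : ℝ) ≤ ((E.UB j).card : ℝ) := by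
        exact_mod_cast Finset.card_le_card (fun n hn => (mem_filter.1 hn).2)
      calc (((A0c R j).filter (fun n => n ∈ E.UB j)).card : ℝ) * (8 * j / ((E.UB j).card : ℝ))
          ≤ ((E.UB j).card : ℝ) * (8 * j / ((E.UB j).card : ℝ)) :=
            mul_le_mul_of_nonneg_right h2 (by positivity)
        _ = 8 * j := by field_simp
    -- second part
    have hp2 : ∑ n ∈ A0c R j, ∑ p ∈ n.primeFactors, E.gh j p * (1 / ((n / p : ℕ) : ℝ)) ≤ 2 := by
      have h1 : ∑ n ∈ A0c R j, ∑ p ∈ n.primeFactors, E.gh j p * (1 / ((n / p : ℕ) : ℝ)) ≤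
          ∑ x ∈ (Icc (1 : ℕ) (2 ^ j)) ×ˢ (Icc (1 : ℕ) (2 ^ j)), E.gh j x.1 * (1 / (x.2 : ℝ)) := by
        rw [sum_sigma']
        have hi : Set.InjOn (fun x : (_ : ℕ) × ℕ => ((x.2, x.1 / x.2) : ℕ × ℕ))
            (((A0c R j).sigma fun n => n.primeFactors : Finset ((_ : ℕ) × ℕ)) :
              Set ((_ : ℕ) × ℕ)) := by
          rintro ⟨n, p⟩ hx ⟨n', p'⟩ hy hxy
          simp only [Finset.coe_sigma, Set.mem_sigma_iff, Finset.mem_coe] at hx hy
          simp only [Prod.mk.injEq] at hxy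
          obtain ⟨h1, h2⟩ := hxy
          subst h1
          have e1 := Nat.div_mul_cancel (Nat.dvd_of_mem_primeFactors hx.2)
          have e2 := Nat.div_mul_cancel (Nat.dvd_of_mem_primeFactors hy.2)
          have : n = n' := by rw [← e1, ← e2, h2]
          subst this
          rfl
        have e : ∑ x ∈ (A0c R j).sigma fun n => n.primeFactors,
              E.gh j x.2 * (1 / ((x.1 / x.2 : ℕ) : ℝ)) =
            ∑ y ∈ ((A0c R j).sigma fun n => n.primeFactors).image
              (fun x : (_ : ℕ) × ℕ => ((x.2, x.1 / x.2) : ℕ × ℕ)),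
              E.gh j y.1 * (1 / (y.2 : ℝ)) := by
          rw [sum_image hi]
        rw [e]
        refine sum_le_sum_of_subset_of_nonneg ?_ fun x _ _ => mul_nonneg (hh0 _) (by positivity)
        intro y hy
        rw [mem_image] at hy
        obtain ⟨⟨n, p⟩, hx, rfl⟩ := hy
        rw [mem_sigma] at hx
        obtain ⟨hn, hp⟩ := hx
        simp only at hn hp
        unfold A0c at hn
        rw [mem_filter, mem_Icc] at hn
        have hpp := Nat.prime_of_mem_primeFactors hp
        have hpn := Nat.le_of_dvd hn.1.1 (Nat.dvd_of_mem_primeFactors hp)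
        simp only [mem_product, mem_Icc]
        refine ⟨⟨hpp.one_le, hpn.trans hn.1.2⟩, ?_, (Nat.div_le_self _ _).trans hn.1.2⟩
        exact Nat.div_pos hpn hpp.pos
      refine h1.trans ?_
      rw [sum_product]
      simp only
      have h2 : ∑ x ∈ Icc (1 : ℕ) (2 ^ j), ∑ y ∈ Icc (1 : ℕ) (2 ^ j),
          E.gh j x * (1 / (y : ℝ)) =
          (∑ x ∈ Icc (1 : ℕ) (2 ^ j), E.gh j x) * ∑ y ∈ Icc (1 : ℕ) (2 ^ j), 1 / (y : ℝ) := by
        rw [sum_mul_sum]
      rw [h2]
      have h3 : ∑ x ∈ Icc (1 : ℕ) (2 ^ j), E.gh j x ≤ 1 / j := by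
        refine le_trans (sum_le_sum fun q hq => ?_) (hsum (Icc 1 (2 ^ j)))
        rw [mem_Icc] at hq
        have hq0 : (1 : ℝ) ≤ q := by exact_mod_cast hq.1
        have h4 : (q : ℝ) * (q : ℝ) ^ (-1 + E.τ / 4) = (q : ℝ) ^ (E.τ / 4) := by
          nth_rewrite 1 [← Real.rpow_one (q : ℝ)]
          rw [← Real.rpow_add (by linarith)]
          congr 1
          ring
        have h5 : 1 ≤ (q : ℝ) ^ (E.τ / 4) := Real.one_le_rpow hq0 (by have := E.hτ; positivity)
        calc E.gh j q = E.gh j q * 1 := (mul_one _).symm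
          _ ≤ E.gh j q * (q : ℝ) ^ (E.τ / 4) := mul_le_mul_of_nonneg_left h5 (hh0 q)
          _ = (q * E.gh j q) * (q : ℝ) ^ (-1 + E.τ / 4) := by rw [← h4]; ring
      have h6 := Env.harm_le j
      have h7 : 0 ≤ ∑ x ∈ Icc (1 : ℕ) (2 ^ j), E.gh j x := sum_nonneg fun x _ => hh0 x
      calc (∑ x ∈ Icc (1 : ℕ) (2 ^ j), E.gh j x) * ∑ y ∈ Icc (1 : ℕ) (2 ^ j), 1 / (y : ℝ)
          ≤ (1 / j) * (1 + j) := mul_le_mul h3 h6 (sum_nonneg fun _ _ => by positivity)
            (by positivity)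
        _ = 1 / j + 1 := by field_simp
        _ ≤ 1 + 1 := by
            have : 1 / (j : ℝ) ≤ 1 := by rw [div_le_one (by linarith)]; exact hjr
            linarith
        _ = 2 := by norm_num
    simp only
    rw [hsplit]
    linarith
  · intro z z' ε hz hz' hzz n hn
    have hε : 0 ≤ ε := (abs_nonneg _).trans (hzz (0, 0))
    unfold A0c at hn
    rw [mem_filter, mem_Icc] at hn
    obtain ⟨⟨hn1, hn2⟩, _⟩ := hn
    have hB0 : 0 ≤ ∑ p ∈ n.primeFactors, E.g j p * (1 / ((n / p : ℕ) : ℝ)) :=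
      sum_nonneg fun p _ => mul_nonneg (hg0 p) (by positivity)
    simp only
    by_cases hex : ∃ p : ℕ, p.Prime ∧ p ∣ n ∧ E.g j p ≠ 0
    · obtain ⟨p, hpp, hpn, hgp⟩ := hex
      obtain ⟨m, rfl⟩ := hpn
      have hm0 : m ≠ 0 := by rintro rfl; omega
      have hfree : ∀ q : ℕ, q.Prime → q ∣ m → E.g j q = 0 := by
        intro q hq hqm
        by_contra hg
        have h1 := hinj p q hpp hgp hg
        have h2 : p * q ≤ p * m := Nat.mul_le_mul_left p (Nat.le_of_dvd (Nat.pos_of_ne_zero hm0) hqm)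
        omega
      have hfm : ∀ w : ℕ × ℕ → ℝ, (∀ i, |w i| ≤ 1) → fc E j w m = fc E j 0 m := by
        intro w hw
        unfold fc
        apply cm_congr
        intro q hq hqm
        rw [hgz0 w hw q (hfree q hq hqm), hgz0 0 (fun i => by simp) q (hfree q hq hqm)]
      have hfp : ∀ w : ℕ × ℕ → ℝ, (∀ i, |w i| ≤ 1) →
          fc E j w (p * m) = (E.gz j w p - 1 / (p : ℝ)) * fc E j 0 m := by
        intro w hw
        rw [← hfm w hw]
        unfold fc
        rw [cm_mul _ hpp.ne_zero hm0, cm_prime _ hpp]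
      rw [hfp z hz, hfp z' hz']
      have e1 : (E.gz j z p - 1 / (p : ℝ)) * fc E j 0 m - (E.gz j z' p - 1 / (p : ℝ)) * fc E j 0 m =
          (E.gz j z p - E.gz j z' p) * fc E j 0 m := by ring
      rw [e1, abs_mul, fc_zero E j hm0 hu0, Env.gz_sub]
      have h3 := E.gz_le j (fun i => z i - z' i) ε hzz hu0 p
      have h4 : (0 : ℝ) ≤ 1 / (m : ℝ) := by positivity
      have hmem : p ∈ (p * m).primeFactors :=
        Nat.mem_primeFactors.2 ⟨hpp, dvd_mul_right p m, mul_ne_zero hpp.ne_zero hm0⟩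
      have h5 : E.g j p * (1 / (m : ℝ)) ≤
          ∑ q ∈ (p * m).primeFactors, E.g j q * (1 / ((p * m / q : ℕ) : ℝ)) := by
        have h6 := Finset.single_le_sum (f := fun q => E.g j q * (1 / ((p * m / q : ℕ) : ℝ)))
          (fun q _ => mul_nonneg (hg0 q) (by positivity)) hmem
        rwa [Nat.mul_div_cancel_left m hpp.pos] at h6
      calc |E.gz j (fun i => z i - z' i) p| * (1 / (m : ℝ)) ≤ (ε * E.g j p) * (1 / (m : ℝ)) :=
            mul_le_mul_of_nonneg_right h3 h4
        _ = ε * (E.g j p * (1 / (m : ℝ))) := by ring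
        _ ≤ _ := mul_le_mul_of_nonneg_left h5 hε
    · have hex' : ∀ p : ℕ, p.Prime → p ∣ n → E.g j p = 0 := by
        intro p hp hpn
        by_contra h
        exact hex ⟨p, hp, hpn, h⟩
      have e1 : fc E j z n = fc E j z' n := by
        unfold fc
        apply cm_congr
        intro q hq hqn
        rw [hgz0 z hz q (hex' q hq hqn), hgz0 z' hz' q (hex' q hq hqn)]
      rw [e1, sub_self, abs_zero]
      exact mul_nonneg hε hB0

end Pool.Agent.N408.CMO.A2
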