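import Pool.Agent.N408.CMO.Stmts2
import Pool.Agent.W76.MO.Asm5

/-!
# Task A3: solution of the system
-/

set_option autoImplicit false

namespace Pool.Agent.N408.CMO.A3

open Finset
open scoped Classical
open Pool.Agent.W76.MO Pool.Agent.W76.MO.Env

/-- the refined key inequality for the cells -/
structure KeyC (E : Env) (R j : ℕ) : Prop where
  u0 : ∀ p, 0 ≤ E.gu j p
  h0 : ∀ p, 0 ≤ E.gh j p
  tau_cell : ∀ i k : ℕ, j ≤ i → k < nc E.δ i →
    ∑ n ∈ E.cs R i k, E.tau j n ≤ E.w i + 3 * E.w i / 16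
  mass_cell : ∀ i k : ℕ, j ≤ i → k < nc E.δ i → ∑ n ∈ E.cs R i k, E.mass j n ≤ 4 * E.w i
  inv_cell : ∀ i k : ℕ, j ≤ i → k < nc E.δ i → ∑ n ∈ E.cs R i k, 1 / (n : ℝ) ≤ E.w i / 16
  ns_cell : ∀ i k : ℕ, j ≤ i → k < nc E.δ i → ∑ n ∈ ns E R i k, mc E j n ≤ E.w i / 16

theorem key (E : Env) (hGB : E.GBounds) (hU : E.UPart) (hH : E.HPart) (hS : E.SPart)
    (hN : NSPart E) :
    ∃ R₀ : ℕ, ∀ R : ℕ, R₀ ≤ R → ∃ J : ℕ, ∀ j : ℕ, J ≤ j → KeyC E R j := by
  obtain ⟨J0, hJ0, hGB⟩ := hGB
  obtain ⟨R1, hU⟩ := hU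
  obtain ⟨R2, hH⟩ := hH
  obtain ⟨J3, hS⟩ := hS
  obtain ⟨R4, hN⟩ := hN
  refine ⟨max (max R1 R2) R4, fun R hR => ?_⟩
  obtain ⟨J1, hU⟩ := hU R (((le_max_left _ _).trans (le_max_left _ _)).trans hR)
  obtain ⟨J2, hH⟩ := hH R (((le_max_right _ _).trans (le_max_left _ _)).trans hR)
  obtain ⟨J4, hN⟩ := hN R ((le_max_right _ _).trans hR)
  refine ⟨J0 + J1 + J2 + J3 + J4, fun j hj => ?_⟩
  have hj0 : J0 ≤ j := by omega
  have hj1 : J1 ≤ j := by omega
  have hj2 : J2 ≤ j := by omega
  have hj3 : J3 ≤ j := by omega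
  have hj4 : J4 ≤ j := by omega
  obtain ⟨_, hu0, hh0, _⟩ := hGB j hj0
  have hbig : ∀ i k : ℕ, j ≤ i → k < nc E.δ i →
      ∑ n ∈ E.cs R i k, E.big j i n ≤ E.w i + E.w i / 8 := by
    intro i k hi hk
    have a1 := hU j hj1 i hi k hk
    have a2 := hH j hj2 i hi k hk
    unfold big
    rw [sum_add_distrib]
    refine (add_le_add a1 a2).trans (le_of_eq ?_)
    split_ifs <;> ring
  have hsm : ∀ i k : ℕ, j ≤ i → k < nc E.δ i →
      ∑ n ∈ E.cs R i k, (1 / (n : ℝ)) * ∏ p ∈ n.primeFactors, (1 + 2 * (p * E.gs j i p)) ≤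
        E.w i / 16 := by
    intro i k hi hk
    refine le_trans (sum_le_sum_of_subset_of_nonneg ?_ ?_) (hS j hj3 i hi k hk)
    · intro n hn
      unfold cs at hn
      rw [mem_filter] at hn ⊢
      exact ⟨hn.1, hn.2.1⟩
    · intro n _ _
      refine mul_nonneg (by positivity) (prod_nonneg fun p _ => ?_)
      have := mul_nonneg (Nat.cast_nonneg (α := ℝ) p) (E.gs_nonneg j i p (hu0 p) (hh0 p))
      linarith
  have hsq : ∀ i k n : ℕ, n ∈ E.cs R i k → Squarefree n := fun i k n hn => by
    unfold cs at hn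
    exact (mem_filter.1 hn).2.1
  refine ⟨hu0, hh0, ?_, ?_, ?_, ?_⟩
  · intro i k hi hk
    calc ∑ n ∈ E.cs R i k, E.tau j n
        ≤ ∑ n ∈ E.cs R i k, (E.big j i n +
            (1 / (n : ℝ)) * ∏ p ∈ n.primeFactors, (1 + 2 * (p * E.gs j i p))) :=
          sum_le_sum fun n hn => (E.point j i n hu0 hh0 (hsq i k n hn)).1
      _ ≤ (E.w i + E.w i / 8) + E.w i / 16 := by
          rw [sum_add_distrib]
          exact add_le_add (hbig i k hi hk) (hsm i k hi hk)
      _ = _ := by ring
  · intro i k hi hk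
    have hw := E.w_pos i (hJ0.trans (hj0.trans hi))
    calc ∑ n ∈ E.cs R i k, E.mass j n
        ≤ ∑ n ∈ E.cs R i k, (2 * E.big j i n +
            (1 / (n : ℝ)) * ∏ p ∈ n.primeFactors, (1 + 2 * (p * E.gs j i p))) :=
          sum_le_sum fun n hn => (E.point j i n hu0 hh0 (hsq i k n hn)).2.1
      _ ≤ 2 * (E.w i + E.w i / 8) + E.w i / 16 := by
          rw [sum_add_distrib, ← mul_sum]
          exact add_le_add (mul_le_mul_of_nonneg_left (hbig i k hi hk) (by norm_num))
            (hsm i k hi hk)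
      _ ≤ _ := by linarith
  · intro i k hi hk
    calc ∑ n ∈ E.cs R i k, 1 / (n : ℝ)
        ≤ ∑ n ∈ E.cs R i k, (1 / (n : ℝ)) * ∏ p ∈ n.primeFactors, (1 + 2 * (p * E.gs j i p)) := by
          refine sum_le_sum fun n _ => ?_
          have h1 := one_le_prod1 n.primeFactors (fun p => 2 * (p * E.gs j i p)) fun p => by
            have := mul_nonneg (Nat.cast_nonneg (α := ℝ) p) (E.gs_nonneg j i p (hu0 p) (hh0 p))
            linarith
          have h2 : (0 : ℝ) ≤ 1 / (n : ℝ) := by positivity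
          nlinarith
      _ ≤ E.w i / 16 := hsm i k hi hk
  · intro i k hi hk
    exact hN j hj4 i hi k hk

theorem sum_cr (E : Env) (R i k : ℕ) (f : ℕ → ℝ) :
    ∑ n ∈ cr E R i k, f n = ∑ n ∈ E.cs R i k, f n + ∑ n ∈ ns E R i k, f n := by
  have h1 : E.cs R i k = (cr E R i k).filter Squarefree := by
    unfold cs cr
    rw [filter_filter]
    exact filter_congr fun n _ => by tauto
  have h2 : ns E R i k = (cr E R i k).filter (fun n => ¬ Squarefree n) := by
    unfold ns cr
    rw [filter_filter]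
  rw [h1, h2, sum_filter_add_sum_filter_not]

theorem main : T_A3 := by
  intro E hHC hGB hU hH hS hN hFirst
  obtain ⟨R₀, hKey⟩ := key E hGB hU hH hS hN
  set R := max R₀ 2 with hR
  obtain ⟨J1, hKey⟩ := hKey R (le_max_left _ _)
  obtain ⟨J2, hJ2, hfirst⟩ := hFirst R
  obtain ⟨J3, hHC⟩ := hHC
  obtain ⟨J4, hJ4⟩ := ge_of_rpow_ge E.τ E.hτ R
  obtain ⟨J5, hJ5, hGB⟩ := hGB
  set j := J1 + J2 + J3 + J4 + J5 + R + 10 with hj
  have hKj := hKey j (by omega)
  obtain ⟨hUBne, hUBp, hUBf, B, hB0, hBU, hBsum, hBlip⟩ := hfirst j (by omega)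
  obtain ⟨hUB, hu0, hh0, hgu, hgh, hguU, hghq, hsum1, hsum2⟩ := hGB j (by omega)
  have hj1 : 1 ≤ j := by omega
  have hjr : (1 : ℝ) ≤ j := by exact_mod_cast hj1
  have hRj : R ≤ 2 ^ (j - 1) := by
    have h1 : R ≤ j - 1 := by omega
    exact h1.trans (Nat.lt_two_pow_self).le
  -- the system
  let F : (ℕ × ℕ → ℝ) → ℕ × ℕ → ℝ := fun z x =>
    if x = (j - 1, 0) then ∑ n ∈ A0c R j, fc E j z n
    else if j ≤ x.1 ∧ x.2 < nc E.δ x.1 then ∑ n ∈ cr E R x.1 x.2, fc E j z n
    else z x
  let W : ℕ × ℕ → ℝ := fun x =>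
    if x = (j - 1, 0) then 8 * j else if j ≤ x.1 ∧ x.2 < nc E.δ x.1 then E.w x.1 else 1
  have hW : ∀ x, 0 < W x := by
    intro x
    simp only [W]
    split_ifs with h1 h2
    · positivity
    · exact E.w_pos _ (hj1.trans h2.1)
    · norm_num
  have hcssq : ∀ i k n, n ∈ E.cs R i k → Squarefree n := fun i k n hn => by
    unfold cs at hn
    exact (mem_filter.1 hn).2.1
  have hcell0 : ∀ i k n, n ∈ cell E.δ i k → n ≠ 0 := fun i k n hn => by
    unfold cell at hn
    rw [mem_Ioc] at hn
    exact ((Nat.zero_le _).trans_lt hn.1).ne'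
  have hns0 : ∀ i k n, n ∈ ns E R i k → n ≠ 0 := fun i k n hn => by
    unfold ns at hn
    exact hcell0 i k n (mem_filter.1 hn).1
  have hcs0 : ∀ i k n, n ∈ E.cs R i k → n ≠ 0 := fun i k n hn => by
    unfold cs at hn
    exact hcell0 i k n (mem_filter.1 hn).1
  obtain ⟨z, hz1, hz0⟩ := solve F W hW (by
    intro x
    simp only [F, W]
    split_ifs with h1 h2
    · calc |∑ n ∈ A0c R j, fc E j 0 n| ≤ ∑ n ∈ A0c R j, |fc E j 0 n| := abs_sum_le_sum_abs _ _
        _ = ∑ n ∈ A0c R j, 1 / (n : ℝ) := sum_congr rfl fun n hn => fc_zero E j (by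
            unfold A0c at hn
            rw [mem_filter, mem_Icc] at hn
            omega) hu0
        _ ≤ ∑ n ∈ Icc (1 : ℕ) (2 ^ j), 1 / (n : ℝ) := by
            apply sum_le_sum_of_subset_of_nonneg (filter_subset _ _)
            intro n _ _
            positivity
        _ ≤ 1 + j := harm_le j
        _ ≤ 8 * j / 4 := by linarith
    · have hw := E.w_pos x.1 (hj1.trans h2.1)
      calc |∑ n ∈ cr E R x.1 x.2, fc E j 0 n| ≤ ∑ n ∈ cr E R x.1 x.2, |fc E j 0 n| :=
            abs_sum_le_sum_abs _ _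
        _ = ∑ n ∈ E.cs R x.1 x.2, |fc E j 0 n| + ∑ n ∈ ns E R x.1 x.2, |fc E j 0 n| :=
            sum_cr E R x.1 x.2 _
        _ ≤ ∑ n ∈ E.cs R x.1 x.2, 1 / (n : ℝ) + ∑ n ∈ ns E R x.1 x.2, mc E j n := by
            refine add_le_add ?_ ?_
            · exact sum_le_sum fun n hn => (fc_zero E j (hcs0 _ _ n hn) hu0).le
            · refine sum_le_sum fun n hn => ?_
              rw [fc_zero E j (hns0 _ _ n hn) hu0]
              exact mc_ge E j (hns0 _ _ n hn) hu0 hh0
        _ ≤ E.w x.1 / 16 + E.w x.1 / 16 :=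
            add_le_add (hKj.inv_cell x.1 x.2 h2.1 h2.2) (hKj.ns_cell x.1 x.2 h2.1 h2.2)
        _ ≤ E.w x.1 / 4 := by linarith
    · simp) (by
    intro z z' ε hz hz' hzz x
    have hε : 0 ≤ ε := (abs_nonneg _).trans (hzz (0, 0))
    simp only [F, W]
    split_ifs with h1 h2
    · -- the first block
      subst h1
      have hsub : E.UB j ⊆ A0c R j := by
        intro p hp
        have hpp := hUBp p hp
        unfold UB at hp
        rw [mem_filter, mem_Ioc] at hp
        unfold A0c
        rw [mem_filter, mem_Icc]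
        refine ⟨⟨hpp.one_le, hp.1.2⟩, ?_⟩
        intro q hq hqp
        have : q = p := (Nat.prime_dvd_prime_iff_eq hq hpp).1 hqp
        subst this
        have : R ≤ q := by omega
        exact_mod_cast this
      have h := lip_sum (A0c R j) (E.UB j) hsub hUBne (fc E j z) (fc E j z') B ε (8 * j)
        (z (j - 1, 0) - z' (j - 1, 0))
        (fun n hn _ => hBlip z z' ε hz hz' hzz n hn)
        (fun p hp => by
          rw [hUBf z z' p hp, hBU p hp, sub_self, sub_self, abs_zero, mul_zero])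
      refine h.trans (mul_le_mul_of_nonneg_left ?_ hε)
      linarith
    · -- a cell
      obtain ⟨i, k⟩ := x
      simp only at h2 ⊢
      obtain ⟨hji, hk⟩ := h2
      have htau := hKj.tau_cell i k hji hk
      have hnsb := hKj.ns_cell i k hji hk
      have hi1 : 1 ≤ i := hj1.trans hji
      have hir : (0 : ℝ) < i := by exact_mod_cast hi1
      have hhpos : (0 : ℝ) < hh E.δ i := by exact_mod_cast hh_pos E.δ i
      have hRi : R ≤ 2 ^ i := by
        refine hRj.trans (Nat.pow_le_pow_right (by norm_num) (by omega))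
      -- the squarefree part
      have hcsb : |∑ n ∈ E.cs R i k, E.fz j z n - ∑ n ∈ E.cs R i k, E.fz j z' n -
          E.w i * (z (i, k) - z' (i, k))| ≤ ε * (∑ n ∈ E.cs R i k, E.tau j n - E.w i) := by
        by_cases hkb : k ∈ E.Bad i
        · -- bad cell
          have hne : (E.Host j i k).Nonempty := by
            rw [← Finset.card_pos]
            have h3 := hHC j (by omega) i hji k hkb
            have h4 : 0 < E.cH / 2 * hh E.δ i / i := by
              have := E.hcH
              positivity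
            exact_mod_cast h4.trans_le h3
          have hsub : E.Host j i k ⊆ E.cs R i k := by
            intro n hn
            unfold Host at hn
            rw [mem_filter] at hn
            unfold cs
            rw [mem_filter]
            refine ⟨hn.1, hn.2.2.2.1, ?_⟩
            intro p hp hpn
            exact (hJ4 i (by omega)).trans (hn.2.2.2.2.1 p hp hpn)
          exact lip_sum (E.cs R i k) (E.Host j i k) hsub hne (E.fz j z) (E.fz j z') (E.tau j) ε
            (E.w i) (z (i, k) - z' (i, k))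
            (fun n hn _ => (E.fz_bound j n z z' ε hu0 hz hz' hzz (hcssq _ _ n hn)).2)
            (fun n hn => E.host_lip j z z' ε hu0 hgu (fun q hq => (hgh q hq).1) hz hz' hzz i k n
              hji hkb hn)
        · -- good cell
          have hcard : 0 < (((cell E.δ i k).filter E.isU).card : ℝ) := by
            have h3 : ¬ ((((cell E.δ i k).filter E.isU).card : ℝ) <
                E.cU * hh E.δ i / (i : ℝ) ^ 4) := by
              intro h3
              apply hkb
              unfold Bad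
              rw [mem_filter, mem_range]
              exact ⟨hk, h3⟩
            rw [not_lt] at h3
            have := E.hcU
            exact lt_of_lt_of_le (by positivity) h3
          have hne : ((cell E.δ i k).filter E.isU).Nonempty := by
            rw [← Finset.card_pos]
            exact_mod_cast hcard
          have hpr : ∀ p ∈ (cell E.δ i k).filter E.isU, p.Prime := fun p hp =>
            E.u_prime p (mem_filter.1 hp).2
          have hsub : (cell E.δ i k).filter E.isU ⊆ E.cs R i k := by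
            intro p hp
            have hpp := hpr p hp
            rw [mem_filter] at hp
            unfold cs
            rw [mem_filter]
            refine ⟨hp.1, hpp.squarefree, ?_⟩
            intro q hq hqp
            have : q = p := (Nat.prime_dvd_prime_iff_eq hq hpp).1 hqp
            subst this
            have h4 := (cell_loc E.δ E.hδ i k q hk hp.1).1
            have : R ≤ q := by omega
            exact_mod_cast this
          exact lip_sum (E.cs R i k) ((cell E.δ i k).filter E.isU) hsub hne (E.fz j z)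
            (E.fz j z') (E.tau j) ε (E.w i) (z (i, k) - z' (i, k))
            (fun n hn _ => (E.fz_bound j n z z' ε hu0 hz hz' hzz (hcssq _ _ n hn)).2)
            (fun p hp => by
              have hp' := mem_filter.1 hp
              exact E.prime_lip j p (hpr p hp) z z' (i, k) _ ε
                (fun y => (E.gz_good j y (fun q hq => (hgh q hq).2.1) hh0 i k p hji hk hkb
                  hp'.1 hp'.2).1)
                (E.gz_good j z (fun q hq => (hgh q hq).2.1) hh0 i k p hji hk hkb hp'.1 hp'.2).2)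
      -- the other part
      have hnsl : |∑ n ∈ ns E R i k, fc E j z n - ∑ n ∈ ns E R i k, fc E j z' n| ≤
          ε * ∑ n ∈ ns E R i k, mc E j n := by
        rw [← sum_sub_distrib, mul_sum]
        refine (abs_sum_le_sum_abs _ _).trans (sum_le_sum fun n hn => ?_)
        exact (fc_bound E j (hns0 _ _ n hn) z z' ε hu0 hh0 hz hz' hzz).2
      have hfz : ∀ y : ℕ × ℕ → ℝ, ∑ n ∈ E.cs R i k, fc E j y n = ∑ n ∈ E.cs R i k, E.fz j y n :=
        fun y => sum_congr rfl fun n hn => fc_sqf E j y (hcssq _ _ n hn)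
      rw [sum_cr, sum_cr, hfz, hfz]
      have e : ∑ n ∈ E.cs R i k, E.fz j z n + ∑ n ∈ ns E R i k, fc E j z n -
          (∑ n ∈ E.cs R i k, E.fz j z' n + ∑ n ∈ ns E R i k, fc E j z' n) -
          E.w i * (z (i, k) - z' (i, k)) =
          (∑ n ∈ E.cs R i k, E.fz j z n - ∑ n ∈ E.cs R i k, E.fz j z' n -
            E.w i * (z (i, k) - z' (i, k))) +
          (∑ n ∈ ns E R i k, fc E j z n - ∑ n ∈ ns E R i k, fc E j z' n) := by ring
      rw [e]
      refine (abs_add_le _ _).trans ((add_le_add hcsb hnsl).trans ?_)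
      rw [← mul_add]
      refine mul_le_mul_of_nonneg_left ?_ hε
      linarith
    · simp only [one_mul, sub_self, abs_zero]
      positivity)
  refine ⟨R, j, z, hz1, le_max_right _ _, by omega, ?_, ?_, ?_⟩
  · have h := hz0 (j - 1, 0)
    simp only [F] at h
    simpa using h
  · intro i k hi hk
    have h := hz0 (i, k)
    simp only [F] at h
    have hne : ¬ ((i, k) : ℕ × ℕ) = (j - 1, 0) := by
      intro h1
      have : i = j - 1 := (Prod.ext_iff.1 h1).1
      omega
    rw [if_neg hne, if_pos ⟨hi, hk⟩] at h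
    exact h
  · intro i k hi hk
    have hw := E.w_pos i (hj1.trans hi)
    have hz00 : ∀ x, |z x - z x| ≤ 0 := fun x => by simp
    calc ∑ n ∈ cr E R i k, |fc E j z n|
        = ∑ n ∈ E.cs R i k, |fc E j z n| + ∑ n ∈ ns E R i k, |fc E j z n| := sum_cr E R i k _
      _ ≤ ∑ n ∈ E.cs R i k, E.mass j n + ∑ n ∈ ns E R i k, mc E j n := by
          refine add_le_add (sum_le_sum fun n hn => ?_) (sum_le_sum fun n hn => ?_)
          · rw [fc_sqf E j z (hcssq _ _ n hn)]
            exact (E.fz_bound j n z z 0 hu0 hz1 hz1 hz00 (hcssq _ _ n hn)).1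
          · exact (fc_bound E j (hns0 _ _ n hn) z z 0 hu0 hh0 hz1 hz1 hz00).1
      _ ≤ 4 * E.w i + E.w i / 16 := add_le_add (hKj.mass_cell i k hi hk) (hKj.ns_cell i k hi hk)
      _ ≤ 8 * E.w i := by linarith

end Pool.Agent.N408.CMO.A3
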