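import Pool.Agent.N408.CMO.Cm
import Pool.Agent.W76.MO.Asm5

/-!
# Assembly, part 1: the completely multiplicative function and its Lipschitz estimates
-/

set_option autoImplicit false

namespace Pool.Agent.N408.CMO

open Finset
open scoped Classical
open Pool.Agent.W76.MO

lemma cm_congr (φ ψ : ℕ → ℝ) (n : ℕ) (h : ∀ p : ℕ, p.Prime → p ∣ n → φ p = ψ p) :
    cm φ n = cm ψ n := by
  unfold cm
  congr 1
  apply List.map_congr_left
  intro p hp
  exact h p (Nat.prime_of_mem_primeFactorsList hp) (Nat.dvd_of_mem_primeFactorsList hp)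

/-- perturbation of a completely multiplicative function -/
lemma cm_perturb (x g g' G : ℕ → ℝ) (ε : ℝ) (hx : ∀ p, 0 ≤ x p) (hε : 0 ≤ ε)
    (hg : ∀ p, |g p| ≤ G p) (hg' : ∀ p, |g' p| ≤ G p) (hgg : ∀ p, |g p - g' p| ≤ ε * G p)
    {n : ℕ} (hn : n ≠ 0) :
    |cm (fun p => g p - x p) n| ≤ cm (fun p => x p + G p) n ∧
    cm (fun p => x p + G p) n ≤ cm (fun p => x p + 2 * G p) n ∧
    |cm (fun p => g p - x p) n - cm (fun p => g' p - x p) n| ≤
      ε * (cm (fun p => x p + 2 * G p) n - cm (fun p => x p + G p) n) := by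
  have hG : ∀ p, 0 ≤ G p := fun p => (abs_nonneg _).trans (hg p)
  have hb : ∀ p, |g p - x p| ≤ x p + G p := fun p => by
    have h1 := abs_sub (g p) (x p)
    rw [abs_of_nonneg (hx p)] at h1
    linarith [hg p]
  have hb' : ∀ p, |g' p - x p| ≤ x p + G p := fun p => by
    have h1 := abs_sub (g' p) (x p)
    rw [abs_of_nonneg (hx p)] at h1
    linarith [hg' p]
  refine cm_induction (P := fun n => |cm (fun p => g p - x p) n| ≤ cm (fun p => x p + G p) n ∧
    cm (fun p => x p + G p) n ≤ cm (fun p => x p + 2 * G p) n ∧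
    |cm (fun p => g p - x p) n - cm (fun p => g' p - x p) n| ≤
      ε * (cm (fun p => x p + 2 * G p) n - cm (fun p => x p + G p) n)) ?_ ?_ hn
  · simp only [cm_one]
    norm_num
  · intro p m hp hm ih
    simp only [cm_mul _ hp.ne_zero hm, cm_prime _ hp]
    obtain ⟨h1, h2, h3⟩ := ih
    set a := cm (fun p => g p - x p) m
    set a' := cm (fun p => g' p - x p) m
    set B := cm (fun p => x p + G p) m
    set C := cm (fun p => x p + 2 * G p) m
    have hB0 : 0 ≤ B := (abs_nonneg _).trans h1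
    have hxG : 0 ≤ x p + G p := add_nonneg (hx p) (hG p)
    have hGp := hG p
    have hxp := hx p
    refine ⟨?_, ?_, ?_⟩
    · rw [abs_mul]
      exact mul_le_mul (hb p) h1 (abs_nonneg _) hxG
    · nlinarith
    · have e : (g p - x p) * a - (g' p - x p) * a' = (g p - g' p) * a + (g' p - x p) * (a - a') := by
        ring
      rw [e]
      refine (abs_add_le _ _).trans ?_
      rw [abs_mul, abs_mul]
      have t1 : |g p - g' p| * |a| ≤ (ε * G p) * B :=
        mul_le_mul (hgg p) h1 (abs_nonneg _) (mul_nonneg hε hGp)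
      have t2 : |g' p - x p| * |a - a'| ≤ (x p + G p) * (ε * (C - B)) :=
        mul_le_mul (hb' p) h3 (abs_nonneg _) hxG
      have t3 : 0 ≤ ε * (G p * (C - B)) := mul_nonneg hε (mul_nonneg hGp (by linarith))
      nlinarith

section
variable (E : Env)

/-- the function -/
noncomputable def fc (j : ℕ) (z : ℕ × ℕ → ℝ) (n : ℕ) : ℝ :=
  cm (fun p => E.gz j z p - 1 / (p : ℝ)) n

lemma fc_sqf (j : ℕ) (z : ℕ × ℕ → ℝ) {n : ℕ} (hn : Squarefree n) : fc E j z n = E.fz j z n :=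
  cm_sqf _ hn

/-- the mass of a number -/
noncomputable def mc (j n : ℕ) : ℝ := cm (fun p => 1 + 2 * (p * E.g j p)) n / n

lemma cm_mc (j : ℕ) {n : ℕ} (hn : n ≠ 0) :
    cm (fun p => 1 / (p : ℝ) + 2 * E.g j p) n = mc E j n := by
  unfold mc
  rw [← cm_inv_mul _ hn]
  apply cm_congr
  intro p hp _
  have h1 : (p : ℝ) ≠ 0 := by exact_mod_cast hp.ne_zero
  field_simp

lemma mc_ge (j : ℕ) {n : ℕ} (hn : n ≠ 0) (hu : ∀ p, 0 ≤ E.gu j p) (hh : ∀ p, 0 ≤ E.gh j p) :
    1 / (n : ℝ) ≤ mc E j n := by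
  unfold mc
  apply div_le_div_of_nonneg_right _ (Nat.cast_nonneg n)
  apply one_le_cm _ _ hn
  intro p
  have := E.g_nonneg j p hu hh
  have : 0 ≤ (p : ℝ) * E.g j p := by positivity
  linarith

lemma fc_bound (j : ℕ) {n : ℕ} (hn : n ≠ 0) (z z' : ℕ × ℕ → ℝ) (ε : ℝ)
    (hu : ∀ p, 0 ≤ E.gu j p) (hh : ∀ p, 0 ≤ E.gh j p)
    (hz : ∀ i, |z i| ≤ 1) (hz' : ∀ i, |z' i| ≤ 1) (hzz : ∀ i, |z i - z' i| ≤ ε) :
    |fc E j z n| ≤ mc E j n ∧ |fc E j z n - fc E j z' n| ≤ ε * mc E j n := by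
  have hε : 0 ≤ ε := (abs_nonneg _).trans (hzz (0, 0))
  obtain ⟨h1, h2, h3⟩ := cm_perturb (fun p => 1 / (p : ℝ)) (E.gz j z) (E.gz j z') (E.g j) ε
    (fun p => by positivity) hε
    (fun p => (E.gz_le j z 1 hz hu p).trans (le_of_eq (one_mul _)))
    (fun p => (E.gz_le j z' 1 hz' hu p).trans (le_of_eq (one_mul _)))
    (fun p => by rw [Env.gz_sub]; exact E.gz_le j _ ε hzz hu p) hn
  have h0 : 0 ≤ cm (fun p => 1 / (p : ℝ) + E.g j p) n := cm_nonneg _ (fun p => by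
    have := E.g_nonneg j p hu hh
    positivity) n
  rw [cm_mc E j hn] at h2 h3
  refine ⟨h1.trans h2, h3.trans ?_⟩
  apply mul_le_mul_of_nonneg_left _ hε
  linarith

lemma gz_zero (j : ℕ) (hu : ∀ p, 0 ≤ E.gu j p) (p : ℕ) : E.gz j 0 p = 0 := by
  have := E.gz_le j 0 0 (fun i => by simp) hu p
  rw [zero_mul] at this
  exact abs_eq_zero.1 (le_antisymm this (abs_nonneg _))

lemma fc_zero (j : ℕ) {n : ℕ} (hn : n ≠ 0) (hu : ∀ p, 0 ≤ E.gu j p) :
    |fc E j 0 n| = 1 / (n : ℝ) := by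
  unfold fc
  rw [abs_cm]
  have h1 : cm (fun p => |E.gz j 0 p - 1 / (p : ℝ)|) n = cm (fun p => 1 / (p : ℝ) * 1) n := by
    apply cm_congr
    intro p _ _
    rw [gz_zero E j hu, zero_sub, abs_neg, abs_of_nonneg (by positivity), mul_one]
  rw [h1, cm_inv_mul _ hn]
  congr 1
  have : (fun _ : ℕ => (1 : ℝ)) = fun _ => 1 := rfl
  unfold cm
  simp

end

end Pool.Agent.N408.CMO
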