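import Pool.Agent.N408.CMO.Stmts

/-!
# Completely multiplicative extensions
-/

set_option autoImplicit false

namespace Pool.Agent.N408.CMO

open Finset
open scoped Classical
open Pool.Agent.W76.MO

lemma cm_one (φ : ℕ → ℝ) : cm φ 1 = 1 := by
  unfold cm
  simp

lemma cm_mul (φ : ℕ → ℝ) {m n : ℕ} (hm : m ≠ 0) (hn : n ≠ 0) : cm φ (m * n) = cm φ m * cm φ n := by
  unfold cm
  rw [((Nat.perm_primeFactorsList_mul hm hn).map φ).prod_eq, List.map_append, List.prod_append]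

lemma cm_prime (φ : ℕ → ℝ) {p : ℕ} (hp : p.Prime) : cm φ p = φ p := by
  unfold cm
  rw [Nat.primeFactorsList_prime hp]
  simp

lemma cm_pow (φ : ℕ → ℝ) {m : ℕ} (hm : m ≠ 0) (k : ℕ) : cm φ (m ^ k) = cm φ m ^ k := by
  induction k with
  | zero => simp [cm_one]
  | succ k ih => rw [pow_succ, cm_mul φ (pow_ne_zero k hm) hm, ih, pow_succ]

/-- for squarefree `n` the product runs over the prime factors -/
lemma cm_sqf (φ : ℕ → ℝ) {n : ℕ} (hn : Squarefree n) : cm φ n = ∏ p ∈ n.primeFactors, φ p := by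
  unfold cm Nat.primeFactors
  rw [List.prod_toFinset φ ((Nat.squarefree_iff_nodup_primeFactorsList hn.ne_zero).1 hn)]

/-- induction over the prime factors of a natural number -/
lemma cm_induction {P : ℕ → Prop} (h1 : P 1)
    (hmul : ∀ p n : ℕ, p.Prime → n ≠ 0 → P n → P (p * n)) {n : ℕ} (hn : n ≠ 0) : P n := by
  induction n using Nat.recOnMul with
  | zero => exact absurd rfl hn
  | one => exact h1
  | prime p hp =>
    have := hmul p 1 hp one_ne_zero h1
    rwa [mul_one] at this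
  | mul a b ha hb =>
    clear ha hb
    -- strong induction on `a * b`
    generalize hab : a * b = m at hn
    clear hab a b
    induction m using Nat.strong_induction_on with
    | _ m ih =>
      rcases Nat.lt_or_ge m 2 with h | h
      · have : m = 1 := by omega
        rw [this]; exact h1
      · obtain ⟨p, hp, k, rfl⟩ := Nat.exists_prime_and_dvd (n := m) (by omega)
        have hk : k ≠ 0 := by
          rintro rfl
          simp at hn
        refine hmul p k hp hk (ih k ?_ hk)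
        have := hp.two_le
        have hk' : 0 < k := Nat.pos_of_ne_zero hk
        nlinarith

lemma cm_nonneg (φ : ℕ → ℝ) (h : ∀ p, 0 ≤ φ p) (n : ℕ) : 0 ≤ cm φ n := by
  unfold cm
  apply List.prod_nonneg
  intro x hx
  rw [List.mem_map] at hx
  obtain ⟨p, _, rfl⟩ := hx
  exact h p

lemma one_le_cm (φ : ℕ → ℝ) (h : ∀ p, 1 ≤ φ p) {n : ℕ} (hn : n ≠ 0) : 1 ≤ cm φ n := by
  refine cm_induction (P := fun n => 1 ≤ cm φ n) ?_ ?_ hn
  · rw [cm_one]
  · intro p m hp hm ih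
    rw [cm_mul φ hp.ne_zero hm, cm_prime φ hp]
    have := h p
    nlinarith

lemma cm_le (φ ψ : ℕ → ℝ) (h0 : ∀ p, 0 ≤ φ p) (h : ∀ p : ℕ, p.Prime → φ p ≤ ψ p) {n : ℕ}
    (hn : n ≠ 0) : cm φ n ≤ cm ψ n := by
  refine cm_induction (P := fun n => cm φ n ≤ cm ψ n) ?_ ?_ hn
  · rw [cm_one, cm_one]
  · intro p m hp hm ih
    rw [cm_mul φ hp.ne_zero hm, cm_mul ψ hp.ne_zero hm, cm_prime φ hp, cm_prime ψ hp]
    exact mul_le_mul (h p hp) ih (cm_nonneg φ h0 m) ((h0 p).trans (h p hp))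

/-- if `φ p ≤ p ^ θ` at all primes then `cm φ n ≤ n ^ θ` -/
lemma cm_le_rpow (φ : ℕ → ℝ) (θ : ℝ) (h0 : ∀ p, 0 ≤ φ p)
    (h : ∀ p : ℕ, p.Prime → φ p ≤ (p : ℝ) ^ θ) {n : ℕ} (hn : n ≠ 0) :
    cm φ n ≤ (n : ℝ) ^ θ := by
  refine cm_induction (P := fun n => cm φ n ≤ (n : ℝ) ^ θ) ?_ ?_ hn
  · rw [cm_one]; simp
  · intro p m hp hm ih
    rw [cm_mul φ hp.ne_zero hm, cm_prime φ hp]
    push_cast
    rw [Real.mul_rpow (Nat.cast_nonneg _) (Nat.cast_nonneg _)]
    exact mul_le_mul (h p hp) ih (cm_nonneg φ h0 m) (by positivity)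

/-- `cm (1/p) n = 1/n`, in product form -/
lemma cm_inv_mul (φ : ℕ → ℝ) {n : ℕ} (hn : n ≠ 0) :
    cm (fun p => 1 / (p : ℝ) * φ p) n = cm φ n / n := by
  refine cm_induction (P := fun n => cm (fun p => 1 / (p : ℝ) * φ p) n = cm φ n / n) ?_ ?_ hn
  · rw [cm_one, cm_one]; simp
  · intro p m hp hm ih
    rw [cm_mul _ hp.ne_zero hm, cm_mul _ hp.ne_zero hm, cm_prime _ hp, cm_prime _ hp, ih]
    push_cast
    have h1 : (p : ℝ) ≠ 0 := by exact_mod_cast hp.ne_zero
    have h2 : (m : ℝ) ≠ 0 := by exact_mod_cast hm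
    field_simp

lemma abs_cm (φ : ℕ → ℝ) (n : ℕ) : |cm φ n| = cm (fun p => |φ p|) n := by
  unfold cm
  generalize n.primeFactorsList = l
  induction l with
  | nil => simp
  | cons a l ih => simp only [List.map_cons, List.prod_cons, abs_mul, ih]

/-- for the weights `E2` -/
lemma cm_E2 (E : Env) (j : ℕ) {s : ℕ} (hs : Squarefree s) :
    cm (fun p => 1 + 2 * (p * E.g j p)) s = E.E2 j s := by
  rw [cm_sqf _ hs]
  rfl

end Pool.Agent.N408.CMO
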