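import Pool.Agent.N408.CMO.Stmts2
import Pool.Agent.W76.MO.Fin0

/-!
# Reduction of the main theorem to the tasks (helper814, for the project of helper408)

Adapted from `Pool.Agent.W76.MO.Fin0`.
-/

set_option autoImplicit false

namespace Pool.Agent.N408.CMO.FIN

open Finset
open scoped Classical
open Pool.Agent.W76.MO Pool.Agent.N408.CMO

/-- from the parts to the conclusion, for one environment -/
theorem env_concl (E : Env) (hHC : E.HCount) (hGB : E.GBounds) (hU : E.UPart) (hH : E.HPart)
    (hS : E.SPart) (hNS : NSPart E) (A2h : T_A2) (A3h : T_A3) (A4h : T_A4) : CConcl := by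
  obtain ⟨R, j, z, hsol⟩ := A3h E hHC hGB hU hH hS hNS (A2h E hGB)
  exact A4h E R j z hsol

/-- all the pieces together -/
theorem main_of (BTRh : T_BTR) (HOh : Hosts) (HCh : T_HC) (GBh : T_GB) (ESh : T_ES) (UPh : T_UP)
    (SPh : T_SP) (PBh : T_PB) (H1h : T_H1) (HBh : T_HB) (HAh : T_HA) (HXh : T_HX)
    (UIh : T_UI) (SIh : T_SI) (HI1h : T_HI1) (HIBh : T_HIB) (HIAh : T_HIA) (HIXh : T_HIX)
    (INNh : T_INN) (LSh : T_LS) (NSh : T_NS) (FQh : T_FQ) (UQh : T_UQ)
    (A2h : T_A2) (A3h : T_A3) (A4h : T_A4) : T_FIN := by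
  obtain ⟨τ₀, γ₀, c, δ₀, hτ₀, hγ₀, hc, hδ₀, hhost⟩ := HOh
  set τ : ℝ := min (min τ₀ γ₀) (1 / 100) with hτd
  have hτ : 0 < τ := lt_min (lt_min hτ₀ hγ₀) (by norm_num)
  have hτ1 : τ ≤ 1 / 100 := min_le_right _ _
  set δ : ℝ := min δ₀ (τ / 1000) with hδd
  have hδ : 0 < δ := lt_min hδ₀ (by positivity)
  have hδ1 : δ ≤ τ / 1000 := min_le_right _ _
  refine ⟨δ / 8, by positivity, ?_⟩
  intro hQRH
  have hUS : USetQ := UQh BTRh FQh
  obtain ⟨i₀, hi₀, hhost⟩ := hhost δ hδ (min_le_left _ _)
  obtain ⟨isU, CU, cU, i₁, hCU, hcU, hi₁, hup, huu, hub⟩ :=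
    hUS (δ / 8) (by positivity) (by linarith) hQRH τ δ hτ hτ1 hδ hδ1 (by linarith)
  obtain ⟨CB, hCB, i₂, hi₂, hbtr⟩ := BTRh τ (τ / 4) hτ (by positivity)
  let E : Env :=
    { τ := τ, δ := δ, CU := CU, cU := cU, cH := c, CB := max CB 1, isU := isU
      i₁ := i₀ + i₁ + i₂
      hτ := hτ, hτ' := hτ1, hδ := hδ, hδ' := hδ1, hCU := hCU, hcU := hcU, hcH := hc
      hCB := le_max_right _ _
      hi₁ := by omega
      u_prime := hup
      u_up := fun i hi => huu i (by omega)
      u_bad := fun i hi => hub i (by omega)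
      host := by
        intro i hi k hk
        have hmul := nc_mul δ hδ i
        have hlt : (k + 1) * hh δ i ≤ nc δ i * hh δ i := Nat.mul_le_mul_right _ hk
        have h1 := hhost i (by omega) (2 ^ i + k * hh δ i) (by omega) (by
          rw [pow_succ]
          have : k * hh δ i ≤ (k + 1) * hh δ i := Nat.mul_le_mul_right _ (Nat.le_succ k)
          omega)
        refine h1.trans ?_
        have hi0 : (0 : ℝ) ≤ i := Nat.cast_nonneg i
        have hsub : (Ioc (2 ^ i + k * hh δ i) (2 ^ i + k * hh δ i + hh δ i)).filter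
            (HostNum τ₀ γ₀ i) ⊆ (cell δ i k).filter (HostNum τ τ i) := by
          intro n hn
          rw [mem_filter, mem_Ioc] at hn
          rw [mem_filter]
          refine ⟨?_, ?_⟩
          · unfold cell
            rw [mem_Ioc]
            have : (k + 1) * hh δ i = k * hh δ i + hh δ i := by ring
            omega
          · obtain ⟨m, q, h1, h2, h3, h4, h5, h6⟩ := hn.2
            refine ⟨m, q, h1, h2, ?_, h4, h5, ?_⟩
            · refine le_trans (Real.rpow_le_rpow_of_exponent_le (by norm_num) ?_) h3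
              have : τ ≤ τ₀ := (min_le_left _ _).trans (min_le_left _ _)
              apply mul_le_mul_of_nonneg_right _ hi0
              linarith
            · intro p hp hpm
              refine le_trans (Real.rpow_le_rpow_of_exponent_le (by norm_num) ?_) (h6 p hp hpm)
              have : τ ≤ γ₀ := (min_le_left _ _).trans (min_le_right _ _)
              exact mul_le_mul_of_nonneg_right this hi0
        exact_mod_cast Finset.card_le_card hsub
      btr := by
        intro i hi a L hL
        refine (hbtr i (by omega) a L hL).trans ?_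
        have hi0 : (0 : ℝ) < i := by
          have : 0 < i := by omega
          exact_mod_cast this
        gcongr
        exact le_max_left _ _ }
  have hHC := HCh E
  have hGB := GBh E hHC
  have hES := ESh E hGB
  have hUP := UPh E hGB hES
  have hSP := SPh E hGB
  have hPB := PBh τ δ hτ hτ1 hδ hδ1
  have hHP := HXh E hGB (H1h E hHC hGB) (HAh E hHC hGB hES) (HBh E hHC hGB hPB)
  -- the numbers which are not squarefree
  have hHI := HIXh E hGB (HI1h E hHC hGB) (HIAh E hHC hGB hES) (HIBh E hHC hGB hPB)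
  have hInn := INNh E hGB (UIh E hGB hES) hHI (SIh E hGB)
  have hLS : LSq E.δ := LSh δ hδ (by linarith)
  have hNS : NSPart E := NSh E hGB hInn hLS
  exact env_concl E hHC hGB hUP hHP hSP hNS A2h A3h A4h

end Pool.Agent.N408.CMO.FIN
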