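import Pool.Agent.N408.CMO.Stmts
import Pool.Agent.W613.MO.ZA
import Pool.Agent.W475.MO.GI
import Pool.Agent.W726.MO.BC
import Pool.Agent.W475.MO.FB
import Pool.Agent.W815.MO.CL
import Pool.Agent.W761.MO.BTR

/-!
# MP_768c9c_nt, task FQ: few cells with few primes under quasi RH

Adapted from the starting files `W613/MO/ZA`, `W475/MO/GI`, `W726/MO/BC`, `W475/MO/FB`.
-/

set_option autoImplicit false

namespace Pool.Agent.N408.CMO.FQ

open Pool.Agent.W76.MO

/-- the properties of `A(s) = -ζ'/ζ(s) - 1/(s-1)` which are used -/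
structure IsAQ (σ₁ : ℝ) (A : ℂ → ℂ) : Prop where
  diff : DifferentiableOn ℂ A {s : ℂ | σ₁ < s.re}
  eq : ∀ s : ℂ, 1 < s.re →
    A s = LSeries (fun n => (ArithmeticFunction.vonMangoldt n : ℂ)) s - 1 / (s - 1)
  bound : ∀ σ₀ : ℝ, σ₁ < σ₀ → ∃ C : ℝ, 0 < C ∧ ∀ s : ℂ, σ₀ ≤ s.re → s.re ≤ 2 →
    ‖A s‖ ≤ C * Real.log (|s.im| + 3)

section ZAQ

open Complex Filter Topology Set Metric
open Pool.Agent.W613.MO (Z1 Z1_ne Z1_one Z1_entire Z1_growth logDeriv_zero_free)

theorem Z1_ne_zero {κ : ℝ} (hRH : QRH κ) {s : ℂ} (hs : 1 / 2 + κ < s.re) : Z1 s ≠ 0 := by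
  by_cases h1 : s = 1
  · rw [h1, Z1_one]; exact one_ne_zero
  · rw [Z1_ne h1]
    exact mul_ne_zero (sub_ne_zero.2 h1) (hRH s hs h1)

/-- (ZA) under quasi RH -/
theorem zaq {κ : ℝ} (hκ : 0 ≤ κ) (hκ1 : κ < 1 / 8) (hRH : QRH κ) :
    ∃ A : ℂ → ℂ, IsAQ (1 / 2 + κ) A := by
  refine ⟨fun s => -(deriv Z1 s / Z1 s), ?_, ?_, ?_⟩
  · intro s hs
    have h1 : DifferentiableAt ℂ (deriv Z1) s :=
      (Z1_entire.analyticAt s).deriv.differentiableAt
    exact ((h1.div (Z1_entire s) (Z1_ne_zero hRH hs)).neg).differentiableWithinAt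
  · intro s hs
    have hs1 : s ≠ 1 := by rintro rfl; simp at hs
    have hz0 : riemannZeta s ≠ 0 := riemannZeta_ne_zero_of_one_le_re hs.le
    have hd : HasDerivAt (fun w : ℂ => (w - 1) * riemannZeta w)
        (1 * riemannZeta s + (s - 1) * deriv riemannZeta s) s :=
      ((hasDerivAt_id s).sub_const 1).mul (differentiableAt_riemannZeta hs1).hasDerivAt
    have hd2 : HasDerivAt Z1 (1 * riemannZeta s + (s - 1) * deriv riemannZeta s) s := by
      refine hd.congr_of_eventuallyEq ?_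
      filter_upwards [isOpen_ne.mem_nhds hs1] with z hz
      exact Z1_ne hz
    have hs2 : s - 1 ≠ 0 := sub_ne_zero.2 hs1
    have h3 := ArithmeticFunction.LSeries_vonMangoldt_eq_deriv_riemannZeta_div hs
    show -(deriv Z1 s / Z1 s) = _
    rw [hd2.deriv, Z1_ne hs1, h3]
    field_simp
    ring
  · intro σ₀ hσ
    rcases lt_or_ge 2 σ₀ with h2 | h2
    · exact ⟨1, one_pos, fun s h3 h4 => absurd (h3.trans h4) (not_le.2 h2)⟩
    obtain ⟨C, A, hC, hA, hgr⟩ := Z1_growth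
    set K : ℝ := |Real.log (3 * C * 2 ^ A)| + A with hK
    have hK0 : 0 < K := by positivity
    refine ⟨16 * (3 / 2 - κ) / (σ₀ - (1 / 2 + κ)) ^ 2 * K, by
      have : 0 < σ₀ - (1 / 2 + κ) := by linarith
      have : 0 < 3 / 2 - κ := by linarith
      positivity, fun s hs1 hs2 => ?_⟩
    have him : (3 : ℝ) ≤ |s.im| + 3 := by linarith [abs_nonneg s.im]
    set L : ℝ := Real.log (|s.im| + 3) with hL
    have hL1 : 1 ≤ L := by
      rw [hL, Real.le_log_iff_exp_le (by linarith)]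
      have := Real.exp_one_lt_d9
      linarith
    set c : ℂ := ⟨2, s.im⟩ with hc
    have hcre : c.re = 2 := rfl
    have hcim : c.im = s.im := rfl
    have hball : ∀ z ∈ ball c (3 / 2 - κ), 1 / 2 + κ < z.re ∧ z.re ≤ 6 ∧ |z.im| + 3 ≤ 2 * (|s.im| + 3) := by
      intro z hz
      rw [mem_ball, dist_eq_norm] at hz
      have h1 := (Complex.abs_re_le_norm (z - c)).trans_lt hz
      have h2 := (Complex.abs_im_le_norm (z - c)).trans_lt hz
      simp only [sub_re, sub_im, hcre, hcim] at h1 h2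
      rw [abs_lt] at h1
      have h3 : |z.im| ≤ |z.im - s.im| + |s.im| := by
        have := abs_add_le (z.im - s.im) s.im
        simpa using this
      exact ⟨by linarith [h1.1], by linarith [h1.2], by linarith [abs_nonneg s.im]⟩
    have hc1 : c ≠ 1 := by
      intro h
      have := congrArg Complex.re h
      rw [hcre, one_re] at this
      norm_num at this
    have hZc : 1 / 3 ≤ ‖Z1 c‖ := by
      rw [Z1_ne hc1, norm_mul]
      obtain ⟨hw0, hw1⟩ := SG.zeta_inv_bound c (by rw [hcre])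
      rw [norm_inv] at hw1
      have hpos : 0 < ‖riemannZeta c‖ := norm_pos_iff.2 hw0
      have h3 : 1 / 3 ≤ ‖riemannZeta c‖ := by
        have := (inv_le_comm₀ hpos (by norm_num)).1 hw1
        linarith
      have h4 : 1 ≤ ‖c - 1‖ := by
        have h5 := Complex.abs_re_le_norm (c - 1)
        simp only [sub_re, hcre, one_re] at h5
        norm_num at h5
        exact h5
      nlinarith
    have hB : ∀ z ∈ ball c (3 / 2 - κ), ‖Z1 z‖ ≤ Real.exp (K * L) * ‖Z1 c‖ := by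
      intro z hz
      obtain ⟨h1, h2, h3⟩ := hball z hz
      have h4 := hgr z (by linarith) h2
      have hpos3 : (0 : ℝ) < |s.im| + 3 := by linarith
      have h5 : (|z.im| + 3) ^ A ≤ (2 * (|s.im| + 3)) ^ A :=
        Real.rpow_le_rpow (by positivity) h3 (by linarith)
      have h6 : (2 * (|s.im| + 3)) ^ A = 2 ^ A * Real.exp (A * L) := by
        rw [Real.mul_rpow (by norm_num) hpos3.le, hL, Real.rpow_def_of_pos hpos3, mul_comm A]
      have h7 : 3 * C * 2 ^ A ≤ Real.exp (|Real.log (3 * C * 2 ^ A)| * L) := by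
        have hpos : (0 : ℝ) < 3 * C * 2 ^ A := by positivity
        calc 3 * C * 2 ^ A = Real.exp (Real.log (3 * C * 2 ^ A)) := (Real.exp_log hpos).symm
          _ ≤ _ := Real.exp_le_exp.2 (by
            have h9 := le_abs_self (Real.log (3 * C * 2 ^ A))
            have h10 := abs_nonneg (Real.log (3 * C * 2 ^ A))
            nlinarith)
      calc ‖Z1 z‖ ≤ C * (|z.im| + 3) ^ A := h4
        _ ≤ C * (2 ^ A * Real.exp (A * L)) := by rw [← h6]; gcongr
        _ = (3 * C * 2 ^ A) * Real.exp (A * L) * (1 / 3) := by ring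
        _ ≤ Real.exp (|Real.log (3 * C * 2 ^ A)| * L) * Real.exp (A * L) * ‖Z1 c‖ := by
            gcongr
        _ = Real.exp (K * L) * ‖Z1 c‖ := by
            rw [← Real.exp_add]; congr 2; rw [hK]; ring
    have hfin := logDeriv_zero_free (g := Z1) (c := c) (r := 3 / 2 - κ) (r2 := 2 - σ₀) (B := K * L)
      (by linarith) (by linarith) (by linarith) (by positivity)
      (fun z _ => Z1_entire.analyticAt z)
      (fun z hz => Z1_ne_zero hRH (hball z hz).1) hB (z := s)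
      (by
        rw [mem_closedBall, dist_eq_norm]
        have e : s - c = ((s.re - 2 : ℝ) : ℂ) := by
          apply Complex.ext <;> simp [hc]
        rw [e, Complex.norm_real, Real.norm_eq_abs, abs_le]
        constructor <;> linarith)
    rw [norm_neg]
    refine hfin.trans (le_of_eq ?_)
    have e1 : (3 / 2 - κ : ℝ) - (2 - σ₀) = σ₀ - (1 / 2 + κ) := by ring
    rw [e1]
    ring


end ZAQ

section GIQ

open Complex MeasureTheory Filter Topology Set
open Pool.Agent.W475.MO (G norm_G integrable_G continuous_G gauss sum_side int_side log_le_exp bound_G e1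
  integrable_pole)

lemma hyp {A : ℂ → ℂ} {σ₁ : ℝ} (hA : IsAQ σ₁ A) (h0 : 1 / 2 ≤ σ₁) {σ₀ η : ℝ} (L : ℝ) (h1 : σ₁ < σ₀) (h2 : σ₀ < 1)
    (hη : 0 < η) : ∃ K : ℝ,
    (∀ z : ℂ, z.im ∈ Set.uIcc (-σ₀) (-2) →
      DifferentiableAt ℂ (fun z => A (I * z) * G η L (I * z)) z) ∧
    (∀ z : ℂ, z.im ∈ Set.uIcc (-σ₀) (-2) →
      ‖(fun z => A (I * z) * G η L (I * z)) z‖ ≤ K * Real.exp (-(η ^ 2 / 4) * z.re ^ 2)) := by
  obtain ⟨C, hC, hb⟩ := hA.bound σ₀ h1
  have hab : ∀ z : ℂ, z.im ∈ Set.uIcc (-σ₀) (-2) → σ₀ ≤ (I * z).re ∧ (I * z).re ≤ 2 := by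
    intro z hz
    rw [Set.uIcc_of_ge (by linarith)] at hz
    have h3 : (I * z).re = -z.im := by simp
    rw [h3]
    constructor
    · linarith [hz.2]
    · linarith [hz.1]
  refine ⟨C * ((3 + 1 / η ^ 2) * Real.exp (2 * η ^ 2 + 2 * |L|)), ?_, ?_⟩
  · intro z hz
    obtain ⟨h3, h4⟩ := hab z hz
    have hd : DifferentiableAt ℂ A (I * z) := by
      apply (hA.diff (I * z) (by
        change σ₁ < (I * z).re
        linarith)).differentiableAt
      exact (isOpen_lt continuous_const Complex.continuous_re).mem_nhds (by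
        change σ₁ < (I * z).re
        linarith)
    have hI : DifferentiableAt ℂ (fun z : ℂ => I * z) z := by fun_prop
    apply DifferentiableAt.mul
    · exact DifferentiableAt.comp z hd hI
    · unfold G
      fun_prop
  · intro z hz
    obtain ⟨h3, h4⟩ := hab z hz
    have him : (I * z).im = z.re := by simp
    have h5 := hb (I * z) h3 h4
    have h6 := bound_G (η := η) L (I * z) (by linarith) h4
    rw [him] at h5 h6
    have h7 := log_le_exp hη z.re
    simp only [norm_mul]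
    calc ‖A (I * z)‖ * ‖G η L (I * z)‖ ≤
        (C * ((3 + 1 / η ^ 2) * Real.exp (η ^ 2 / 4 * z.re ^ 2))) *
          (Real.exp (2 * η ^ 2 + 2 * |L|) * Real.exp (-(η ^ 2 / 2) * z.re ^ 2)) := by
          apply mul_le_mul _ h6 (norm_nonneg _) (by positivity)
          exact h5.trans (mul_le_mul_of_nonneg_left h7 hC.le)
      _ = C * ((3 + 1 / η ^ 2) * Real.exp (2 * η ^ 2 + 2 * |L|)) *
          (Real.exp (η ^ 2 / 4 * z.re ^ 2) * Real.exp (-(η ^ 2 / 2) * z.re ^ 2)) := by ring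
      _ = _ := by
          rw [← Real.exp_add]
          congr 2
          ring

lemma shift {A : ℂ → ℂ} {σ₁ : ℝ} (hA : IsAQ σ₁ A) (h0 : 1 / 2 ≤ σ₁) {σ₀ η : ℝ} (L : ℝ) (h1 : σ₁ < σ₀) (h2 : σ₀ < 1)
    (hη : 0 < η) :
    ∫ t : ℝ, A ((σ₀ : ℂ) + t * I) * G η L ((σ₀ : ℂ) + t * I) =
      ∫ t : ℝ, A (((2 : ℝ) : ℂ) + t * I) * G η L (((2 : ℝ) : ℂ) + t * I) := by
  obtain ⟨K, ha, hb⟩ := hyp hA h0 L h1 h2 hη
  have key := Pool.Agent.Helper242.KK.shift_line (δ := η ^ 2 / 4) (by positivity) ha hb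
  simp only [e1] at key
  exact key

/-- integrability on the line `Re s = 2` -/
lemma integrable_two {A : ℂ → ℂ} {σ₁ : ℝ} (hA : IsAQ σ₁ A) (h0 : 1 / 2 ≤ σ₁) {σ₀ η : ℝ} (L : ℝ) (h1 : σ₁ < σ₀)
    (h2 : σ₀ < 1) (hη : 0 < η) :
    Integrable (fun t : ℝ => A (((2 : ℝ) : ℂ) + t * I) * G η L (((2 : ℝ) : ℂ) + t * I)) := by
  obtain ⟨K, ha, hb⟩ := hyp hA h0 L h1 h2 hη
  have key := Pool.Agent.Helper242.KK.shift_line_integrable (δ := η ^ 2 / 4) (by positivity)
    ha hb Set.right_mem_uIcc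
  simp only [e1] at key
  exact key

/-- (GI) -/
theorem giq {A : ℂ → ℂ} {σ₁ : ℝ} (hA : IsAQ σ₁ A) (h0 : 1 / 2 ≤ σ₁) {σ₀ η : ℝ} (y : ℝ)
    (h1 : σ₁ < σ₀) (h2 : σ₀ < 1) (hη : 0 < η) :
    ((DG η y - MG η y : ℝ) : ℂ) = ((η / Real.sqrt (2 * Real.pi) : ℝ) : ℂ) *
    ∫ t : ℝ, A ((σ₀ : ℂ) + t * Complex.I) *
      Complex.exp ((η : ℂ) ^ 2 / 2 * ((σ₀ : ℂ) + t * Complex.I) ^ 2 +
        ((σ₀ : ℂ) + t * Complex.I) * Real.log y) := by
  have h3 := shift hA h0 (Real.log y) h1 h2 hη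
  have h4 := sum_side y hη
  have h5 := int_side y hη
  have h6 : ∀ t : ℝ, LSeries (fun n => (ArithmeticFunction.vonMangoldt n : ℂ))
      (((2 : ℝ) : ℂ) + t * I) * G η (Real.log y) (((2 : ℝ) : ℂ) + t * I) =
      A (((2 : ℝ) : ℂ) + t * I) * G η (Real.log y) (((2 : ℝ) : ℂ) + t * I) +
      1 / ((((2 : ℝ) : ℂ) + t * I) - 1) * G η (Real.log y) (((2 : ℝ) : ℂ) + t * I) := by
    intro t
    rw [hA.eq _ (by simp)]
    ring
  simp_rw [h6] at h4
  rw [integral_add (integrable_two hA h0 _ h1 h2 hη) (integrable_pole _ hη), mul_add, ← h5,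
    ← h3] at h4
  rw [Complex.ofReal_sub, h4, add_sub_cancel_right]
  rfl


end GIQ

section BCQ

open Finset Filter Topology MeasureTheory Complex
open Pool.Agent.W726.MOBC (gauss_int gauss_integrable sqW_eq sqW_int sqW_val spacing A_bound norm_G)

theorem bcq {A : ℂ → ℂ} {σ₁ : ℝ} (hA : IsAQ σ₁ A) (h12 : 1 / 2 ≤ σ₁) {σ₀ c : ℝ}
    (hσ : σ₁ < σ₀) (hσ1 : σ₀ < 1) (hc : 0 < c) :
    ∃ C : ℝ, 0 < C ∧ ∀ X η : ℝ, 2 ≤ X → 1 / X ≤ η → η ≤ 1 → ∀ Y : Finset ℝ,
    (∀ y ∈ Y, X ≤ y ∧ y ≤ 2 * X) → (∀ y ∈ Y, ∀ y' ∈ Y, y ≠ y' → η * X ≤ |y - y'|) →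
    (∀ y ∈ Y, c * (η * X) ≤ |DG η y - MG η y|) →
      (Y.card : ℝ) ≤ C * (Real.log X) ^ 2 * X ^ (2 * σ₀ - 2) / η ^ 2 := by
  obtain ⟨CA, hCA, hb⟩ := hA.bound σ₀ hσ
  obtain ⟨C2, hC2, hsp⟩ := spacing
  have hσ0 : 0 < σ₀ := by linarith
  set K1 : ℝ := Real.exp (1 / 2) / 2 * (64 * CA ^ 2 * 2) with hK1
  set K2 : ℝ := Real.exp (1 / 2) / 2 * C2 with hK2
  have hK1p : 0 < K1 := by positivity
  have hK2p : 0 < K2 := by positivity
  refine ⟨16 * K1 * K2 / c ^ 2, by positivity, ?_⟩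
  intro X η hX hη hη1 Y hY hsep hD
  have hX0 : 0 < X := by linarith
  have hη0 : 0 < η := lt_of_lt_of_le (by positivity) hη
  have hlogX : 0 < Real.log X := Real.log_pos (by linarith)
  have hlogX2 : 0 < (Real.log X) ^ 2 := by positivity
  set M : ℝ := (2 * X) ^ σ₀ with hM
  have hM0 : 0 < M := by positivity
  set D : ℝ → ℝ := fun y => DG η y - MG η y with hDdef
  set e : ℝ → ℝ := fun y => if 0 ≤ D y then 1 else -1 with he
  have heD : ∀ y, e y * D y = |D y| := by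
    intro y
    simp only [he]
    split_ifs with h
    · rw [abs_of_nonneg h, one_mul]
    · rw [abs_of_neg (not_le.mp h)]; ring
  have he1 : ∀ y, |e y| = 1 := by
    intro y
    simp only [he]
    split_ifs <;> simp
  set a : ℝ → ℝ := fun y => e y * Real.exp (σ₀ * Real.log y) with ha
  set W : ℝ → ℂ := fun t => ∑ y ∈ Y, (a y : ℂ) * cexp (I * (Real.log y : ℝ) * t) with hW
  have haM : ∀ y ∈ Y, |a y| ≤ M := by
    intro y hy
    have hy0 : 0 < y := hX0.trans_le (hY y hy).1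
    simp only [ha]
    rw [abs_mul, he1, one_mul, abs_of_pos (Real.exp_pos _), mul_comm, ← Real.rpow_def_of_pos hy0]
    exact Real.rpow_le_rpow hy0.le (hY y hy).2 hσ0.le
  -- the path
  set s : ℝ → ℂ := fun t => (σ₀ : ℂ) + t * I with hs
  have hsre : ∀ t, (s t).re = σ₀ := by intro t; simp [hs]
  have hsim : ∀ t, (s t).im = t := by intro t; simp [hs]
  have hsc : Continuous s := by fun_prop
  have hAc : Continuous (fun t => A (s t)) := by
    refine hA.diff.continuousOn.comp_continuous hsc fun t => ?_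
    show σ₁ < (s t).re
    rw [hsre]
    exact hσ
  have hAb : ∀ t, ‖A (s t)‖ ≤ CA * Real.log (|t| + 3) := by
    intro t
    have := hb (s t) (by rw [hsre]) (by rw [hsre]; linarith)
    rwa [hsim] at this
  set E : ℝ → ℝ := fun t => Real.exp (-(η ^ 2 / 2) * t ^ 2) with hE
  have hE0 : ∀ t, 0 < E t := fun t => Real.exp_pos _
  have hEc : Continuous E := by fun_prop
  have hA2 : ∀ t, ‖A (s t)‖ ^ 2 * E t ≤
      64 * CA ^ 2 * (Real.log X) ^ 2 * Real.exp (-(η ^ 2 / 4) * t ^ 2) := fun t =>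
    A_bound CA X η t hCA hX hη _ (hAb t)
  have hgi : Integrable (fun t : ℝ => Real.exp (-(η ^ 2 / 4) * t ^ 2)) :=
    integrable_exp_neg_mul_sq (by positivity)
  have hEi : Integrable E := integrable_exp_neg_mul_sq (by positivity)
  have hA2i : Integrable (fun t => ‖A (s t)‖ ^ 2 * E t) := by
    refine (hgi.const_mul (64 * CA ^ 2 * (Real.log X) ^ 2)).mono' ?_ ?_
    · exact ((hAc.norm.pow 2).mul hEc).aestronglyMeasurable
    · refine Eventually.of_forall fun t => ?_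
      rw [Real.norm_of_nonneg (by have := hE0 t; positivity)]
      exact hA2 t
  -- the functions F y
  set F : ℝ → ℝ → ℂ := fun y t => A (s t) *
    cexp ((η : ℂ) ^ 2 / 2 * (s t) ^ 2 + (s t) * Real.log y) with hF
  have hFc : ∀ y, Continuous (F y) := by
    intro y
    have h1 : Continuous (fun t => (η : ℂ) ^ 2 / 2 * (s t) ^ 2 + (s t) * Real.log y) := by
      fun_prop
    exact hAc.mul (Complex.continuous_exp.comp h1)
  have hFeq : ∀ y t, F y t = (A (s t) * cexp ((η : ℂ) ^ 2 / 2 * (s t) ^ 2)) *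
      ((Real.exp (σ₀ * Real.log y) : ℝ) : ℂ) * cexp (I * (Real.log y : ℝ) * t) := by
    intro y t
    simp only [hF]
    rw [ofReal_exp, mul_assoc, mul_assoc, ← Complex.exp_add, ← Complex.exp_add]
    congr 2
    simp only [hs]
    push_cast
    ring
  have hFi : ∀ y, Integrable (F y) := by
    intro y
    have hdom : Integrable (fun t => Real.exp (1 / 2) * Real.exp (σ₀ * Real.log y) *
        (E t + ‖A (s t)‖ ^ 2 * E t)) := (hEi.add hA2i).const_mul _
    refine hdom.mono' (hFc y).aestronglyMeasurable (Eventually.of_forall fun t => ?_)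
    have hn : ‖cexp (I * (Real.log y : ℝ) * t)‖ = 1 := by
      rw [show I * ((Real.log y : ℝ) : ℂ) * (t : ℂ) = ((Real.log y * t : ℝ) : ℂ) * I by
        push_cast; ring]
      exact Complex.norm_exp_ofReal_mul_I _
    rw [hFeq, norm_mul, norm_mul, norm_mul, hn, mul_one, Complex.norm_real,
      Real.norm_of_nonneg (Real.exp_pos _).le]
    have h1 := norm_G σ₀ η t hσ0 hσ1 hη0 hη1
    have h2 : ‖A (s t)‖ ≤ 1 + ‖A (s t)‖ ^ 2 := by nlinarith [sq_nonneg (‖A (s t)‖ - 1)]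
    have h3 : ‖A (s t)‖ * ‖cexp ((η : ℂ) ^ 2 / 2 * (s t) ^ 2)‖ ≤
        (1 + ‖A (s t)‖ ^ 2) * (Real.exp (1 / 2) * E t) :=
      mul_le_mul h2 h1 (norm_nonneg _) (by positivity)
    calc ‖A (s t)‖ * ‖cexp ((η : ℂ) ^ 2 / 2 * (s t) ^ 2)‖ * Real.exp (σ₀ * Real.log y) ≤
        ((1 + ‖A (s t)‖ ^ 2) * (Real.exp (1 / 2) * E t)) * Real.exp (σ₀ * Real.log y) :=
          mul_le_mul_of_nonneg_right h3 (Real.exp_pos _).le
      _ = _ := by ring
  have hDF : ∀ y ∈ Y, ((D y : ℝ) : ℂ) = ((η / Real.sqrt (2 * Real.pi) : ℝ) : ℂ) *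
      ∫ t, F y t := by
    intro y hy
    have hy1 : 1 ≤ y := by have := (hY y hy).1; linarith
    exact giq hA h12 y hσ hσ1 hη0
  have hsum : ((∑ y ∈ Y, |D y| : ℝ) : ℂ) = ((η / Real.sqrt (2 * Real.pi) : ℝ) : ℂ) *
      ∫ t, (A (s t) * cexp ((η : ℂ) ^ 2 / 2 * (s t) ^ 2)) * W t := by
    have h1 : ∀ t, (A (s t) * cexp ((η : ℂ) ^ 2 / 2 * (s t) ^ 2)) * W t =
        ∑ y ∈ Y, (e y : ℂ) * F y t := by
      intro t
      simp only [hW]
      rw [Finset.mul_sum]
      refine Finset.sum_congr rfl fun y _ => ?_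
      rw [hFeq]
      simp only [ha]
      push_cast
      ring
    simp_rw [h1]
    rw [integral_finsetSum _ (fun y _ => (hFi y).const_mul _), Finset.mul_sum]
    push_cast
    refine Finset.sum_congr rfl fun y hy => ?_
    rw [integral_const_mul, ← heD y]
    push_cast
    rw [hDF y hy]
    push_cast
    ring
  -- upper bound
  have hWi : Integrable (fun t => ‖W t‖ ^ 2 * E t) := sqW_int η hη0 Y a (fun y => Real.log y)
  have hWv : ∫ t, ‖W t‖ ^ 2 * E t ≤ Real.sqrt (2 * Real.pi) / η * (M ^ 2 * (Y.card * C2)) := by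
    have h1 := sqW_val η hη0 Y a (fun y => Real.log y)
    have h2 : ∫ t, ‖W t‖ ^ 2 * E t = Real.sqrt (2 * Real.pi) / η *
        ∑ y ∈ Y, ∑ z ∈ Y, a y * a z * Real.exp (-(Real.log y - Real.log z) ^ 2 / (2 * η ^ 2)) :=
      h1
    rw [h2]
    refine mul_le_mul_of_nonneg_left ?_ (by positivity)
    have h3 : ∀ y ∈ Y, ∑ z ∈ Y, a y * a z *
        Real.exp (-(Real.log y - Real.log z) ^ 2 / (2 * η ^ 2)) ≤ M ^ 2 * C2 := by
      intro y hy
      calc ∑ z ∈ Y, a y * a z * Real.exp (-(Real.log y - Real.log z) ^ 2 / (2 * η ^ 2)) ≤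
          ∑ z ∈ Y, M ^ 2 * Real.exp (-(Real.log y - Real.log z) ^ 2 / (2 * η ^ 2)) := by
            refine Finset.sum_le_sum fun z hz => ?_
            refine mul_le_mul_of_nonneg_right ?_ (Real.exp_pos _).le
            calc a y * a z ≤ |a y * a z| := le_abs_self _
              _ = |a y| * |a z| := abs_mul _ _
              _ ≤ M * M := mul_le_mul (haM y hy) (haM z hz) (abs_nonneg _) hM0.le
              _ = M ^ 2 := by ring
        _ = M ^ 2 * ∑ z ∈ Y, Real.exp (-(Real.log y - Real.log z) ^ 2 / (2 * η ^ 2)) := by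
            rw [Finset.mul_sum]
        _ ≤ M ^ 2 * C2 := mul_le_mul_of_nonneg_left (hsp X η hX0 hη0 Y hY hsep y hy)
            (by positivity)
    calc _ ≤ ∑ y ∈ Y, M ^ 2 * C2 := Finset.sum_le_sum h3
      _ = M ^ 2 * (Y.card * C2) := by
          rw [Finset.sum_const, nsmul_eq_mul]; ring
  have hAv : ∫ t, ‖A (s t)‖ ^ 2 * E t ≤
      64 * CA ^ 2 * (Real.log X) ^ 2 * (2 * Real.sqrt Real.pi / η) := by
    calc ∫ t, ‖A (s t)‖ ^ 2 * E t ≤
        ∫ t, 64 * CA ^ 2 * (Real.log X) ^ 2 * Real.exp (-(η ^ 2 / 4) * t ^ 2) :=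
          integral_mono hA2i (hgi.const_mul _) hA2
      _ = _ := by
          rw [integral_const_mul, integral_gaussian]
          congr 1
          rw [show Real.pi / (η ^ 2 / 4) = (2 / η) ^ 2 * Real.pi by field_simp; ring,
            Real.sqrt_mul (by positivity), Real.sqrt_sq (by positivity)]
          ring
  have hpt : ∀ l : ℝ, 0 < l → ∀ t, ‖(A (s t) * cexp ((η : ℂ) ^ 2 / 2 * (s t) ^ 2)) * W t‖ ≤
      Real.exp (1 / 2) / 2 * (l * (‖A (s t)‖ ^ 2 * E t) + 1 / l * (‖W t‖ ^ 2 * E t)) := by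
    intro l hl t
    rw [norm_mul, norm_mul]
    have h1 := norm_G σ₀ η t hσ0 hσ1 hη0 hη1
    have h2 : ‖A (s t)‖ * ‖W t‖ ≤ (l * ‖A (s t)‖ ^ 2 + 1 / l * ‖W t‖ ^ 2) / 2 := by
      have h3 : 0 ≤ (1 / l) * (l * ‖A (s t)‖ - ‖W t‖) ^ 2 := by positivity
      have h4 : (1 / l) * (l * ‖A (s t)‖ - ‖W t‖) ^ 2 =
          l * ‖A (s t)‖ ^ 2 - 2 * (‖A (s t)‖ * ‖W t‖) + 1 / l * ‖W t‖ ^ 2 := by
        field_simp
        ring
      linarith
    calc ‖A (s t)‖ * ‖cexp ((η : ℂ) ^ 2 / 2 * (s t) ^ 2)‖ * ‖W t‖ =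
        (‖A (s t)‖ * ‖W t‖) * ‖cexp ((η : ℂ) ^ 2 / 2 * (s t) ^ 2)‖ := by ring
      _ ≤ ((l * ‖A (s t)‖ ^ 2 + 1 / l * ‖W t‖ ^ 2) / 2) * (Real.exp (1 / 2) * E t) :=
          mul_le_mul h2 h1 (norm_nonneg _) (by positivity)
      _ = _ := by ring
  have hupper : ∀ l : ℝ, 0 < l → ∑ y ∈ Y, |D y| ≤
      l * K1 * (Real.log X) ^ 2 + 1 / l * (K2 * M ^ 2 * Y.card) := by
    intro l hl
    have h0 : 0 ≤ ∑ y ∈ Y, |D y| := Finset.sum_nonneg fun y _ => abs_nonneg _
    have h1 : ∑ y ∈ Y, |D y| = ‖((∑ y ∈ Y, |D y| : ℝ) : ℂ)‖ := by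
      rw [Complex.norm_real, Real.norm_of_nonneg h0]
    rw [h1, hsum, norm_mul, Complex.norm_real, Real.norm_of_nonneg (by positivity)]
    have hdomi : Integrable (fun t => Real.exp (1 / 2) / 2 * (l * (‖A (s t)‖ ^ 2 * E t) +
        1 / l * (‖W t‖ ^ 2 * E t))) := ((hA2i.const_mul l).add (hWi.const_mul (1 / l))).const_mul _
    have h2 : ‖∫ t, (A (s t) * cexp ((η : ℂ) ^ 2 / 2 * (s t) ^ 2)) * W t‖ ≤
        Real.exp (1 / 2) / 2 * (l * (64 * CA ^ 2 * (Real.log X) ^ 2 * (2 * Real.sqrt Real.pi / η)) +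
          1 / l * (Real.sqrt (2 * Real.pi) / η * (M ^ 2 * (Y.card * C2)))) := by
      refine (norm_integral_le_of_norm_le hdomi (Eventually.of_forall (hpt l hl))).trans ?_
      rw [integral_const_mul, integral_add (hA2i.const_mul l) (hWi.const_mul (1 / l)),
        integral_const_mul, integral_const_mul]
      have := mul_le_mul_of_nonneg_left hAv hl.le
      have := mul_le_mul_of_nonneg_left hWv (show 0 ≤ 1 / l by positivity)
      refine mul_le_mul_of_nonneg_left ?_ (by positivity)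
      linarith
    have hpi : 0 < Real.sqrt (2 * Real.pi) := Real.sqrt_pos.mpr (by positivity)
    have hpi2 : Real.sqrt Real.pi ≤ Real.sqrt (2 * Real.pi) :=
      Real.sqrt_le_sqrt (by have := Real.pi_pos; linarith)
    calc η / Real.sqrt (2 * Real.pi) * ‖∫ t, (A (s t) * cexp ((η : ℂ) ^ 2 / 2 * (s t) ^ 2)) * W t‖ ≤
        η / Real.sqrt (2 * Real.pi) * (Real.exp (1 / 2) / 2 *
          (l * (64 * CA ^ 2 * (Real.log X) ^ 2 * (2 * Real.sqrt Real.pi / η)) +
          1 / l * (Real.sqrt (2 * Real.pi) / η * (M ^ 2 * (Y.card * C2))))) :=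
          mul_le_mul_of_nonneg_left h2 (by positivity)
      _ = l * (Real.exp (1 / 2) / 2 * (64 * CA ^ 2 * (2 * (Real.sqrt Real.pi /
          Real.sqrt (2 * Real.pi))))) * (Real.log X) ^ 2 +
          1 / l * (K2 * M ^ 2 * Y.card) := by
          rw [hK2]
          field_simp
      _ ≤ _ := by
          have h4 : Real.sqrt Real.pi / Real.sqrt (2 * Real.pi) ≤ 1 := by
            rw [div_le_one hpi]; exact hpi2
          have h5 : l * (Real.exp (1 / 2) / 2 * (64 * CA ^ 2 * (2 * (Real.sqrt Real.pi /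
              Real.sqrt (2 * Real.pi))))) * (Real.log X) ^ 2 ≤
              l * (Real.exp (1 / 2) / 2 * (64 * CA ^ 2 * (2 * 1))) * (Real.log X) ^ 2 := by
            gcongr
          have h6 : l * (Real.exp (1 / 2) / 2 * (64 * CA ^ 2 * (2 * 1))) * (Real.log X) ^ 2 =
              l * K1 * (Real.log X) ^ 2 := by rw [hK1]; ring
          linarith
  have hlower : (Y.card : ℝ) * (c * (η * X)) ≤ ∑ y ∈ Y, |D y| := by
    have := Finset.card_nsmul_le_sum Y (fun y => |D y|) (c * (η * X)) hD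
    simpa [nsmul_eq_mul] using this
  -- choice of the parameter
  set l : ℝ := 2 * K2 * M ^ 2 / (c * (η * X)) with hl
  have hl0 : 0 < l := by positivity
  have h1 := hlower.trans (hupper l hl0)
  have h2 : 1 / l * (K2 * M ^ 2 * Y.card) = (Y.card : ℝ) * (c * (η * X)) / 2 := by
    rw [hl]; field_simp
  have h3 : l * K1 * (Real.log X) ^ 2 = 2 * K1 * K2 * M ^ 2 * (Real.log X) ^ 2 / (c * (η * X)) := by
    rw [hl]; ring
  rw [h2, h3] at h1
  have h4 : (Y.card : ℝ) * (c * (η * X)) ≤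
      4 * K1 * K2 * M ^ 2 * (Real.log X) ^ 2 / (c * (η * X)) := by
    have : 4 * K1 * K2 * M ^ 2 * (Real.log X) ^ 2 / (c * (η * X)) =
      2 * (2 * K1 * K2 * M ^ 2 * (Real.log X) ^ 2 / (c * (η * X))) := by ring
    rw [this]
    linarith
  have h5 : (Y.card : ℝ) ≤ 4 * K1 * K2 * M ^ 2 * (Real.log X) ^ 2 / (c * (η * X)) ^ 2 := by
    rw [le_div_iff₀ (by positivity)]
    rw [le_div_iff₀ (by positivity)] at h4
    calc (Y.card : ℝ) * (c * (η * X)) ^ 2 = (Y.card : ℝ) * (c * (η * X)) * (c * (η * X)) := by ring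
      _ ≤ _ := h4
  have hM2 : M ^ 2 ≤ 4 * X ^ (2 * σ₀) := by
    have h6 : M ^ 2 = (2 * X) ^ (2 * σ₀) := by
      rw [hM, ← Real.rpow_natCast, ← Real.rpow_mul (by positivity)]
      congr 1
      push_cast
      ring
    rw [h6, Real.mul_rpow (by norm_num) hX0.le]
    refine mul_le_mul_of_nonneg_right ?_ (by positivity)
    calc (2 : ℝ) ^ (2 * σ₀) ≤ (2 : ℝ) ^ (2 : ℝ) :=
          Real.rpow_le_rpow_of_exponent_le (by norm_num) (by linarith)
      _ = 4 := by norm_num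
  have h7 : X ^ (2 * σ₀ - 2) = X ^ (2 * σ₀) / X ^ 2 := by
    rw [Real.rpow_sub hX0]
    norm_num
  calc (Y.card : ℝ) ≤ 4 * K1 * K2 * M ^ 2 * (Real.log X) ^ 2 / (c * (η * X)) ^ 2 := h5
    _ ≤ 4 * K1 * K2 * (4 * X ^ (2 * σ₀)) * (Real.log X) ^ 2 / (c * (η * X)) ^ 2 := by
        gcongr
    _ = _ := by
        rw [h7]
        field_simp
        ring


end BCQ

section FBQ

open Finset Filter Topology
open scoped Classical
open Pool.Agent.W475.MO (ev_pow_le hh_lower hh_le_two_pow hh_pos)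

/-- task FQ -/
theorem main : T_FQ := by
  have hC : CellLow := Pool.Agent.W815.CL.cellLow Pool.Agent.W761.MO.btr
  obtain ⟨c, L, hc, hL, hCL⟩ := hC
  refine ⟨c, hc, fun κ hκ hκ1 hQ δ ε hδ hδ' hε => ?_⟩
  set e : ℝ := min ε 1 with he
  have he0 : 0 < e := lt_min hε one_pos
  have he1 : e ≤ 1 := min_le_right _ _
  have hee : e ≤ ε := min_le_left _ _
  obtain ⟨A, hA⟩ := zaq hκ hκ1 hQ
  obtain ⟨C, hC0, hBC⟩ := bcq (σ₀ := 1 / 2 + κ + e / 8) hA (by linarith) (by linarith)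
    (by linarith) hc
  obtain ⟨i₀, hi₀, hcell⟩ := hCL δ hδ hδ'
  have ev1 := ev_pow_le (4 * C * L ^ 2) 2 (c := ε / 2) (by linarith)
  have ev2 := ev_pow_le (2 * L) 0 (c := 1 / 4) (by norm_num)
  obtain ⟨i₁, hi₁⟩ := Filter.eventually_atTop.1 (ev1.and ev2)
  refine ⟨max i₀ i₁, le_trans hi₀ (le_max_left _ _), fun i hi => ?_⟩
  have hi0 : i₀ ≤ i := le_trans (le_max_left _ _) hi
  obtain ⟨hk1, hk2⟩ := hi₁ i (le_trans (le_max_right _ _) hi)
  have hipos : 1 ≤ i := le_trans hi₀ hi0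
  have hir : (1 : ℝ) ≤ i := by exact_mod_cast hipos
  set h : ℝ := (hh δ i : ℝ) with hh_def
  have hh0 : 0 < h := by
    rw [hh_def]
    exact_mod_cast hh_pos δ i
  have hhle : h ≤ 2 ^ i := by
    rw [hh_def]
    exact_mod_cast hh_le_two_pow hδ hδ' i
  have hlow : (2 : ℝ) ^ ((1 / 2 - δ) * i - 1) ≤ h := hh_lower δ i
  have hLh : L ≤ h := by
    have h1 : (2 : ℝ) ^ ((1 / 4 : ℝ) * i) / 2 ≤ (2 : ℝ) ^ ((1 / 2 - δ) * i - 1) := by
      rw [Real.rpow_sub_one (by norm_num)]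
      apply div_le_div_of_nonneg_right _ (by norm_num)
      apply Real.rpow_le_rpow_of_exponent_le (by norm_num)
      nlinarith
    rw [pow_zero, mul_one] at hk2
    linarith
  set Y : Finset ℝ := ((range (nc δ i)).filter (fun k =>
      (((cell δ i k).filter Nat.Prime).card : ℝ) < c * hh δ i / i)).image
      (fun k : ℕ => (2 : ℝ) ^ i + (k + 1 / 2) * h) with hY
  have hcard : Y.card = ((range (nc δ i)).filter (fun k =>
      (((cell δ i k).filter Nat.Prime).card : ℝ) < c * hh δ i / i)).card := by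
    apply Finset.card_image_of_injOn
    intro a _ b _ hab
    simp only at hab
    have h1 : ((a : ℝ) + 1 / 2) * h = (b + 1 / 2) * h := by linarith
    have h2 := mul_right_cancel₀ hh0.ne' h1
    have h3 : (a : ℝ) = b := by linarith
    exact_mod_cast h3
  have hX0 : (0 : ℝ) < 2 ^ i := by positivity
  have hX2 : (2 : ℝ) ≤ 2 ^ i := by
    calc (2 : ℝ) = 2 ^ 1 := by norm_num
      _ ≤ 2 ^ i := pow_le_pow_right₀ (by norm_num) hipos
  have hL0 : 0 < L := by linarith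
  have hηX : h / (L * 2 ^ i) * 2 ^ i = h / L := by
    field_simp
  have hmain := hBC (2 ^ i) (h / (L * 2 ^ i)) hX2 (by
      rw [div_le_div_iff₀ hX0 (by positivity)]
      nlinarith) (by
      rw [div_le_one (by positivity)]
      nlinarith) Y (by
      intro y hy
      rw [hY, Finset.mem_image] at hy
      obtain ⟨k, hk, rfl⟩ := hy
      have hk' := (Finset.mem_filter.1 hk).1
      rw [Finset.mem_range] at hk'
      have h1 : (k + 1) * hh δ i ≤ 2 ^ i :=
        le_trans (Nat.mul_le_mul_right _ hk') (Nat.div_mul_le_self _ _)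
      have h2 : ((k : ℝ) + 1) * h ≤ 2 ^ i := by
        rw [hh_def]
        exact_mod_cast h1
      have h3 : (0 : ℝ) ≤ k := Nat.cast_nonneg k
      constructor
      · nlinarith
      · nlinarith) (by
      intro y hy y' hy' hne
      rw [hY, Finset.mem_image] at hy hy'
      obtain ⟨k, hk, rfl⟩ := hy
      obtain ⟨k', hk', rfl⟩ := hy'
      rw [hηX]
      have hne' : k ≠ k' := by
        rintro rfl
        exact hne rfl
      have h1 : (1 : ℝ) ≤ |(k : ℝ) - k'| := by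
        have : (1 : ℤ) ≤ |(k : ℤ) - k'| := by
          apply Int.one_le_abs
          intro h0
          apply hne'
          omega
        have h2 : ((1 : ℤ) : ℝ) ≤ ((|(k : ℤ) - k'| : ℤ) : ℝ) := by exact_mod_cast this
        push_cast at h2
        exact h2
      have h2 : (2 : ℝ) ^ i + (k + 1 / 2) * h - (2 ^ i + (k' + 1 / 2) * h) =
          ((k : ℝ) - k') * h := by ring
      rw [h2, abs_mul, abs_of_pos hh0]
      calc h / L ≤ h := div_le_self hh0.le hL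
        _ ≤ |(k : ℝ) - k'| * h := by nlinarith) (by
      intro y hy
      rw [hY, Finset.mem_image] at hy
      obtain ⟨k, hk, rfl⟩ := hy
      have hk' := Finset.mem_filter.1 hk
      exact hcell i hi0 k (Finset.mem_range.1 hk'.1) hk'.2)
  rw [hcard] at hmain
  refine hmain.trans ?_
  -- numerical estimate
  have hlog : Real.log ((2 : ℝ) ^ i) ≤ i := by
    rw [Real.log_pow]
    have : Real.log 2 ≤ 1 := by
      have := Real.log_two_lt_d9
      linarith
    nlinarith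
  have hlog0 : 0 ≤ Real.log ((2 : ℝ) ^ i) := Real.log_nonneg (by linarith)
  have hlog2 : (Real.log ((2 : ℝ) ^ i)) ^ 2 ≤ (i : ℝ) ^ 2 := pow_le_pow_left₀ hlog0 hlog 2
  have hinv : 1 / (h / (L * 2 ^ i)) ^ 2 ≤ 4 * L ^ 2 * (2 : ℝ) ^ ((1 + 2 * δ) * (i : ℝ)) := by
    rw [div_pow, one_div_div, mul_pow]
    have h1 : ((2 : ℝ) ^ ((1 / 2 - δ) * i - 1)) ^ 2 ≤ h ^ 2 :=
      pow_le_pow_left₀ (by positivity) hlow 2
    have h2 : ((2 : ℝ) ^ ((1 / 2 - δ) * i - 1)) ^ 2 = (2 : ℝ) ^ ((1 - 2 * δ) * (i : ℝ)) / 4 := by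
      rw [← Real.rpow_natCast, ← Real.rpow_mul (by norm_num)]
      have : ((1 / 2 - δ) * i - 1) * ((2 : ℕ) : ℝ) = (1 - 2 * δ) * (i : ℝ) - 2 := by
        push_cast
        ring
      rw [this, Real.rpow_sub (by norm_num)]
      norm_num
    rw [h2] at h1
    rw [div_le_iff₀ (by positivity)]
    have h3 : (2 : ℝ) ^ ((1 + 2 * δ) * (i : ℝ)) * (2 : ℝ) ^ ((1 - 2 * δ) * (i : ℝ)) =
        ((2 : ℝ) ^ i) ^ 2 := by
      rw [← Real.rpow_add (by norm_num), ← pow_mul, ← Real.rpow_natCast]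
      congr 1
      push_cast
      ring
    calc L ^ 2 * ((2 : ℝ) ^ i) ^ 2 = 4 * L ^ 2 * (2 : ℝ) ^ ((1 + 2 * δ) * (i : ℝ)) *
          ((2 : ℝ) ^ ((1 - 2 * δ) * (i : ℝ)) / 4) := by
          rw [← h3]
          ring
      _ ≤ _ := mul_le_mul_of_nonneg_left h1 (by positivity)
  have hXp : ((2 : ℝ) ^ i) ^ (2 * (1 / 2 + κ + e / 8) - 2) =
      (2 : ℝ) ^ ((2 * κ + e / 4 - 1) * (i : ℝ)) := by
    rw [← Real.rpow_natCast, ← Real.rpow_mul (by norm_num)]
    congr 1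
    ring
  rw [hXp, div_eq_mul_one_div]
  calc C * Real.log (2 ^ i) ^ 2 * (2 : ℝ) ^ ((2 * κ + e / 4 - 1) * (i : ℝ)) *
        (1 / (h / (L * 2 ^ i)) ^ 2) ≤
      C * (i : ℝ) ^ 2 * (2 : ℝ) ^ ((2 * κ + e / 4 - 1) * (i : ℝ)) *
        (4 * L ^ 2 * (2 : ℝ) ^ ((1 + 2 * δ) * (i : ℝ))) := by
        apply mul_le_mul _ hinv (by positivity) (by positivity)
        apply mul_le_mul_of_nonneg_right _ (by positivity)
        exact mul_le_mul_of_nonneg_left hlog2 hC0.le
    _ = (4 * C * L ^ 2 * (i : ℝ) ^ 2) * ((2 : ℝ) ^ ((2 * κ + e / 4 - 1) * (i : ℝ)) *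
        (2 : ℝ) ^ ((1 + 2 * δ) * (i : ℝ))) := by ring
    _ ≤ (2 : ℝ) ^ (ε / 2 * i) * ((2 : ℝ) ^ ((2 * κ + e / 4 - 1) * (i : ℝ)) *
        (2 : ℝ) ^ ((1 + 2 * δ) * (i : ℝ))) :=
        mul_le_mul_of_nonneg_right hk1 (by positivity)
    _ = (2 : ℝ) ^ ((ε / 2 + 2 * κ + e / 4 + 2 * δ) * (i : ℝ)) := by
        rw [← Real.rpow_add (by norm_num), ← Real.rpow_add (by norm_num)]
        congr 1
        ring
    _ ≤ (2 : ℝ) ^ ((2 * δ + 2 * κ + ε) * (i : ℝ)) := by
        apply Real.rpow_le_rpow_of_exponent_le (by norm_num)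
        nlinarith


end FBQ

end Pool.Agent.N408.CMO.FQ
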