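import Pool.Agent.N408.CMO.Cm
import Pool.Agent.W326.MO.HA3

/-!
# MP_768c9c_nt, task HIA: the host sum, divisible pairs, with a multiplier
-/

set_option autoImplicit false

namespace Pool.Agent.N408.CMO.HIA

open Finset Filter Topology Pool.Agent.W76.MO Pool.Agent.N408.CMO Pool.Agent.W326.MO
open scoped Classical

variable (E : Env)

/-- the sum over the pairs with `s = t n₁` -/
theorem HTb_le {j R i k b i' k' : ℕ} (hgu0 : ∀ p, 0 ≤ E.gu j p) (hgh0 : ∀ p, 0 ≤ E.gh j p)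
    (hgu : ∀ p, E.gu j p ≠ 0 → E.U j p) (hgh : ∀ p, E.gh j p ≠ 0 → E.H j p)
    (hi' : 1 ≤ i') :
    HTb E j R i k b i' k' (fun a b => a ∣ b) ≤
      ∑ t ∈ (Icc 1 (2 ^ (i + 1))).filter (fun t => Squarefree t ∧ Rough R t),
        E.E2 j t / t * (E.w i' / ((E.Host j i' k').card : ℝ) *
        (((E.Host j i' k').filter (fun n₁ => (b * t) * n₁ ∈ cell E.δ i k)).card : ℝ)) := by
  have hw := w_pos E hi'
  set c : ℝ := E.w i' / ((E.Host j i' k').card : ℝ) with hc
  have hc0 : 0 ≤ c := by rw [hc]; positivity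
  set S : Finset (ℕ × ℕ) := ((E.Host j i' k') ×ˢ (cb E R i k b)).filter (fun u : ℕ × ℕ =>
      lp u.1 ∣ u.2 ∧ (2 : ℝ) ^ (1 / 20 * (i : ℝ)) < lp u.1 ∧ u.1 ∣ u.2) with hS
  have hSmem : ∀ u ∈ S, u.1 ∈ E.Host j i' k' ∧ (1 ≤ u.2 ∧ u.2 ≤ 2 ^ (i + 1)) ∧ Squarefree u.2 ∧
      Rough R u.2 ∧ u.1 ∣ u.2 ∧ b * u.2 ∈ cell E.δ i k := by
    intro u hu
    rw [hS, Finset.mem_filter, Finset.mem_product] at hu
    have h1 := hu.1.2
    unfold cb at h1
    rw [Finset.mem_filter, Finset.mem_Icc] at h1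
    exact ⟨hu.1.1, h1.1, h1.2.1, h1.2.2.1, hu.2.2.2, h1.2.2.2⟩
  have e0 : HTb E j R i k b i' k' (fun a b => a ∣ b) =
      ∑ u ∈ S, c * (E.E2 j (u.2 / u.1) / ((u.2 / u.1 : ℕ) : ℝ)) := by
    unfold HTb
    apply Finset.sum_congr
    · rw [hS]
      ext u
      simp only [Finset.mem_filter]
    intro u hu
    obtain ⟨h1, h2, h3, h4, h5, h6⟩ := hSmem u hu
    rw [← term_eq hgu hgh h1 h3 h5, ← hc]; ring
  rw [e0]
  have hmaps : ∀ u ∈ S,
      u.2 / u.1 ∈ (Icc 1 (2 ^ (i + 1))).filter (fun t => Squarefree t ∧ Rough R t) := by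
    intro u hu
    obtain ⟨h1, h2, h3, h4, h5, h6⟩ := hSmem u hu
    obtain ⟨a, ha⟩ := h5
    have h20 : u.2 ≠ 0 := h3.ne_zero
    have h10 : 0 < u.1 := by
      rcases Nat.eq_zero_or_pos u.1 with h | h
      · rw [h, zero_mul] at ha; exact absurd ha h20
      · exact h
    have hq : u.2 / u.1 = a := by rw [ha]; exact Nat.mul_div_cancel_left _ h10
    have ha0 : a ≠ 0 := by
      intro h; rw [h, mul_zero] at ha; exact h20 ha
    rw [hq, Finset.mem_filter, Finset.mem_Icc]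
    have hdvd : a ∣ u.2 := ⟨u.1, by rw [ha]; ring⟩
    refine ⟨⟨by omega, ?_⟩, h3.squarefree_of_dvd hdvd, ?_⟩
    · exact (Nat.le_of_dvd (Nat.pos_of_ne_zero h20) hdvd).trans h2.2
    · intro p hp hpa
      exact h4 p hp (hpa.trans hdvd)
  rw [← Finset.sum_fiberwise_of_maps_to hmaps]
  apply Finset.sum_le_sum
  intro a ha
  have h1 : ∑ u ∈ S.filter (fun u => u.2 / u.1 = a),
      c * (E.E2 j (u.2 / u.1) / ((u.2 / u.1 : ℕ) : ℝ)) =
      ((S.filter (fun u => u.2 / u.1 = a)).card : ℝ) *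
        (c * (E.E2 j a / a)) := by
    rw [← nsmul_eq_mul, ← Finset.sum_const]
    apply Finset.sum_congr rfl
    intro u hu
    rw [Finset.mem_filter] at hu
    rw [hu.2]
  rw [h1]
  have h2 : (S.filter (fun u => u.2 / u.1 = a)).card ≤
      ((E.Host j i' k').filter (fun n₁ => (b * a) * n₁ ∈ cell E.δ i k)).card := by
    apply Finset.card_le_card_of_injOn (fun u => u.1)
    · intro u hu
      have hu' := Finset.mem_filter.mp (Finset.mem_coe.mp hu)
      obtain ⟨g1, g2, g3, g4, g5, g6⟩ := hSmem u hu'.1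
      refine Finset.mem_coe.mpr (Finset.mem_filter.mpr ⟨g1, ?_⟩)
      rw [← hu'.2, mul_assoc, Nat.div_mul_cancel g5]
      exact g6
    · intro u hu v hv huv
      have hu' := Finset.mem_filter.mp (Finset.mem_coe.mp hu)
      have hv' := Finset.mem_filter.mp (Finset.mem_coe.mp hv)
      simp only at huv
      have g1 := (hSmem u hu'.1).2.2.2.2.1
      have g2 := (hSmem v hv'.1).2.2.2.2.1
      refine Prod.ext huv ?_
      rw [← Nat.div_mul_cancel g1, ← Nat.div_mul_cancel g2, hu'.2, hv'.2, huv]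
  have h3 : ((S.filter (fun u => u.2 / u.1 = a)).card : ℝ) ≤
      (((E.Host j i' k').filter (fun n₁ => (b * a) * n₁ ∈ cell E.δ i k)).card : ℝ) := by
    exact_mod_cast h2
  have hE : 0 ≤ E.E2 j a / a := div_nonneg (E2_nonneg hgu0 hgh0 a) (Nat.cast_nonneg _)
  calc _ ≤ (((E.Host j i' k').filter (fun n₁ => (b * a) * n₁ ∈ cell E.δ i k)).card : ℝ) *
        (c * (E.E2 j a / a)) := mul_le_mul_of_nonneg_right h3 (mul_nonneg hc0 hE)
    _ = _ := by ring

/-- **task HIA** -/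
theorem main : T_HIA := by
  intro E hHC hGB hES
  obtain ⟨JH, hJH⟩ := hHC
  obtain ⟨JG, hJG1, hJG⟩ := hGB
  have hcH := E.hcH
  have hCB := E.hCB
  have hδ := E.hδ
  set K : ℝ := 2 ^ 45 * E.CB / E.cH with hK
  have hK0 : 0 < K := by rw [hK]; positivity
  obtain ⟨R₀, hR₀⟩ := hES 1 one_pos
  refine ⟨2 * K, by positivity, R₀, fun R hR => ?_⟩
  obtain ⟨JE, hJE⟩ := hR₀ R hR
  refine ⟨JH + JG + JE + E.i₁ + 10, fun j hj i k b hji hk hb => ?_⟩
  obtain ⟨-, hgu0, hgh0, hgu, hgh, -⟩ := hJG j (by omega)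
  have hb2 : 2 ≤ b := hb.1
  have hgh' : ∀ p, E.gh j p ≠ 0 → E.H j p := fun p hp => (hgh p hp).1
  have hES' := hJE j (by omega) (2 ^ (i + 1))
  set F := (range (2 * i + 3)).filter (fun i' : ℕ => j ≤ i' ∧ (1 - E.τ) * i ≤ (i' : ℝ)) with hF
  set A := (Icc 2 (2 ^ (i + 1))).filter (fun t => Squarefree t ∧ Rough R t) with hA
  set A' := (Icc 1 (2 ^ (i + 1))).filter (fun t => Squarefree t ∧ Rough R t) with hA'
  have hwi := w_pos E (i := i) (by omega)
  have hstep : ∑ i' ∈ F, ∑ k' ∈ E.Bad i', HTb E j R i k b i' k' (fun a b => a ∣ b) ≤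
      ∑ i' ∈ F, ∑ k' ∈ E.Bad i',
      ∑ t ∈ A', E.E2 j t / t * (E.w i' / ((E.Host j i' k').card : ℝ) *
        (((E.Host j i' k').filter (fun n₁ => (b * t) * n₁ ∈ cell E.δ i k)).card : ℝ)) := by
    apply Finset.sum_le_sum
    intro i' hi'
    rw [hF, Finset.mem_filter] at hi'
    apply Finset.sum_le_sum
    intro k' hk'
    exact HTb_le E hgu0 hgh0 hgu hgh' (by omega)
  refine hstep.trans ?_
  have h2 : ∑ i' ∈ F, ∑ k' ∈ E.Bad i', ∑ t ∈ A', E.E2 j t / t *
      (E.w i' / ((E.Host j i' k').card : ℝ) *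
      (((E.Host j i' k').filter (fun n₁ => (b * t) * n₁ ∈ cell E.δ i k)).card : ℝ)) =
      ∑ t ∈ A', E.E2 j t / t * ∑ i' ∈ F, ∑ k' ∈ E.Bad i',
      (E.w i' / ((E.Host j i' k').card : ℝ) *
      (((E.Host j i' k').filter (fun n₁ => (b * t) * n₁ ∈ cell E.δ i k)).card : ℝ)) := by
    have h3 : ∀ i' ∈ F, ∑ k' ∈ E.Bad i', ∑ t ∈ A', E.E2 j t / t *
      (E.w i' / ((E.Host j i' k').card : ℝ) *
      (((E.Host j i' k').filter (fun n₁ => (b * t) * n₁ ∈ cell E.δ i k)).card : ℝ)) =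
      ∑ t ∈ A', ∑ k' ∈ E.Bad i', E.E2 j t / t *
      (E.w i' / ((E.Host j i' k').card : ℝ) *
      (((E.Host j i' k').filter (fun n₁ => (b * t) * n₁ ∈ cell E.δ i k)).card : ℝ)) :=
      fun i' _ => Finset.sum_comm
    rw [Finset.sum_congr rfl h3, Finset.sum_comm]
    apply Finset.sum_congr rfl
    intro t _
    rw [Finset.mul_sum]
    apply Finset.sum_congr rfl
    intro i' _
    rw [Finset.mul_sum]
  rw [h2]
  have hsplit : ∑ t ∈ A', E.E2 j t / t * (t : ℝ) ^ (-E.δ / 2) ≤ 1 + 1 := by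
    have hsub : A' ⊆ insert 1 A := by
      intro t ht
      rw [hA', Finset.mem_filter, Finset.mem_Icc] at ht
      rw [Finset.mem_insert, hA, Finset.mem_filter, Finset.mem_Icc]
      by_cases h1 : t = 1
      · exact Or.inl h1
      · exact Or.inr ⟨⟨by omega, ht.1.2⟩, ht.2⟩
    have h1A : 1 ∉ A := by
      rw [hA, Finset.mem_filter, Finset.mem_Icc]
      omega
    refine (Finset.sum_le_sum_of_subset_of_nonneg hsub fun t _ _ => ?_).trans ?_
    · exact mul_nonneg (div_nonneg (E2_nonneg hgu0 hgh0 t) (Nat.cast_nonneg _)) (by positivity)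
    · rw [Finset.sum_insert h1A]
      have hone : E.E2 j 1 = 1 := by unfold Env.E2; simp
      rw [hone]
      simp only [Nat.cast_one, div_one, Real.one_rpow, mul_one]
      linarith
  calc _ ≤ ∑ t ∈ A', E.E2 j t / t * (K * E.w i * (t : ℝ) ^ (-E.δ / 2)) := by
        apply Finset.sum_le_sum
        intro t ht
        rw [hA', Finset.mem_filter, Finset.mem_Icc] at ht
        apply mul_le_mul_of_nonneg_left
        · have hbt : 1 ≤ b * t := Nat.mul_pos (by omega) ht.1.1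
          refine (Sa_le E hJH (by omega) (by omega) (by omega) hji hk hbt).trans ?_
          rw [← hK]
          apply mul_le_mul_of_nonneg_left _ (by positivity)
          have ht0 : (0 : ℝ) < t := by exact_mod_cast ht.1.1
          have hle : (t : ℝ) ≤ ((b * t : ℕ) : ℝ) := by
            exact_mod_cast Nat.le_mul_of_pos_left t (by omega)
          exact Real.rpow_le_rpow_of_nonpos ht0 hle (by linarith)
        · exact div_nonneg (E2_nonneg hgu0 hgh0 _) (Nat.cast_nonneg _)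
    _ = K * E.w i * ∑ t ∈ A', E.E2 j t / t * (t : ℝ) ^ (-E.δ / 2) := by
        rw [Finset.mul_sum]
        apply Finset.sum_congr rfl
        intro a _
        ring
    _ ≤ K * E.w i * (1 + 1) := mul_le_mul_of_nonneg_left hsplit (by positivity)
    _ = 2 * K * E.w i := by ring

end Pool.Agent.N408.CMO.HIA
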