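import Pool.Agent.N408.CMO.Stmts
import Pool.Agent.W76.MO.Asm1

/-!
# MP_768c9c_nt: combination of the three parts
-/

set_option autoImplicit false

namespace Pool.Agent.N408.CMO.INN

open Finset Filter Topology
open scoped Classical
open Pool.Agent.W76.MO
open Pool.Agent.N408.CMO

/-- the product inequality -/
lemma prod_split (P : Finset ℕ) (u s : ℕ → ℝ) (hu : ∀ p, 0 ≤ u p) (hs : ∀ p, 0 ≤ s p) :
    ∏ p ∈ P, (1 + 2 * (u p + s p)) ≤
      2 * ∑ p ∈ P, u p * ∏ q ∈ P.erase p, (1 + 2 * (u q + s q)) + ∏ p ∈ P, (1 + 2 * s p) := by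
  induction P using Finset.induction_on with
  | empty => simp
  | insert a P ha ih =>
    rw [sum_insert_erase a P ha u (fun q => 1 + 2 * (u q + s q)), prod_insert ha, prod_insert ha]
    have hua := hu a
    have hsa := hs a
    have hA : 0 ≤ ∑ p ∈ P, u p * ∏ q ∈ P.erase p, (1 + 2 * (u q + s q)) :=
      sum_nonneg fun p _ => mul_nonneg (hu p) (prod_nonneg fun q _ => by linarith [hu q, hs q])
    set E2 := ∏ p ∈ P, (1 + 2 * (u p + s p)) with hE2d
    set A := ∑ p ∈ P, u p * ∏ q ∈ P.erase p, (1 + 2 * (u q + s q)) with hAd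
    set B := ∏ p ∈ P, (1 + 2 * s p) with hBd
    have k1 : 0 ≤ (1 + 2 * s a) * (2 * A + B - E2) := mul_nonneg (by linarith) (by linarith)
    have k2 : 0 ≤ u a * A := mul_nonneg hua hA
    nlinarith

lemma point2 (E : Env) (j i s : ℕ) (hu : ∀ p, 0 ≤ E.gu j p) (hh : ∀ p, 0 ≤ E.gh j p)
    (hs : Squarefree s) :
    E.E2 j s / s ≤ 2 * E.big j i s +
      (1 / (s : ℝ)) * ∏ p ∈ s.primeFactors, (1 + 2 * (p * E.gs j i p)) := by
  have h := prod_split s.primeFactors (fun p => p * E.gl j i p) (fun p => p * E.gs j i p)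
    (fun p => mul_nonneg (Nat.cast_nonneg p) (E.gl_nonneg j i p (hu p) (hh p)))
    (fun p => mul_nonneg (Nat.cast_nonneg p) (E.gs_nonneg j i p (hu p) (hh p)))
  have hbig := E.big_eq j i s hs
  have e : E.E2 j s = ∏ p ∈ s.primeFactors, (1 + 2 * (p * E.gl j i p + p * E.gs j i p)) := by
    unfold Env.E2
    refine prod_congr rfl fun p _ => ?_
    rw [← E.gl_add_gs j i p]; ring
  have hn1 : (0 : ℝ) ≤ 1 / (s : ℝ) := by positivity
  rw [div_eq_mul_one_div, mul_comm, e]
  refine (mul_le_mul_of_nonneg_left h hn1).trans (le_of_eq ?_)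
  rw [mul_add, ← hbig]
  ring

theorem main : T_INN := by
  intro E hGB hU hH hS
  obtain ⟨J0, hJ0, hGB⟩ := hGB
  obtain ⟨CU, hCU, R1, hU⟩ := hU
  obtain ⟨CH, hCH, R2, hH⟩ := hH
  obtain ⟨CS, hCS, J3, hS⟩ := hS
  refine ⟨2 * (CU + CH) + CS, by positivity, max R1 R2, fun R hR => ?_⟩
  obtain ⟨J1, hU⟩ := hU R ((le_max_left _ _).trans hR)
  obtain ⟨J2, hH⟩ := hH R ((le_max_right _ _).trans hR)
  refine ⟨max (max J0 J1) (max J2 J3), fun j hj i hi k hk b hb => ?_⟩
  have hj0 : J0 ≤ j := ((le_max_left _ _).trans (le_max_left _ _)).trans hj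
  have hj1 : J1 ≤ j := ((le_max_right _ _).trans (le_max_left _ _)).trans hj
  have hj2 : J2 ≤ j := ((le_max_left _ _).trans (le_max_right _ _)).trans hj
  have hj3 : J3 ≤ j := ((le_max_right _ _).trans (le_max_right _ _)).trans hj
  obtain ⟨_, hu0, hh0, _⟩ := hGB j hj0
  have a1 := hU j hj1 i hi k hk b hb
  have a2 := hH j hj2 i hi k hk b hb
  have a3 := hS j hj3 R i hi k hk b hb
  have hsq : ∀ s ∈ cb E R i k b, Squarefree s := fun s hs => by
    unfold cb at hs
    exact (mem_filter.1 hs).2.1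
  calc ∑ s ∈ cb E R i k b, E.E2 j s / s
      ≤ ∑ s ∈ cb E R i k b, (2 * E.big j i s +
          (1 / (s : ℝ)) * ∏ p ∈ s.primeFactors, (1 + 2 * (p * E.gs j i p))) :=
        sum_le_sum fun s hs => point2 E j i s hu0 hh0 (hsq s hs)
    _ = 2 * ∑ s ∈ cb E R i k b, E.big j i s +
          ∑ s ∈ cb E R i k b,
            (1 / (s : ℝ)) * ∏ p ∈ s.primeFactors, (1 + 2 * (p * E.gs j i p)) := by
        rw [sum_add_distrib, ← mul_sum]
    _ ≤ 2 * (CU * E.w i + CH * E.w i) + CS * E.w i := by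
        have h1 : ∑ s ∈ cb E R i k b, E.big j i s ≤ CU * E.w i + CH * E.w i := by
          unfold Env.big
          rw [sum_add_distrib]
          exact add_le_add a1 a2
        linarith
    _ = (2 * (CU + CH) + CS) * E.w i := by ring

end Pool.Agent.N408.CMO.INN
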