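import Pool.Agent.N408.CMO.Stmts
import Mathlib.Analysis.PSeries

/-!
# Task LS: few numbers in a cell are divisible by a large square
-/

set_option autoImplicit false

namespace Pool.Agent.N408.CMO.LS

open Finset Filter Topology
open scoped Classical
open Pool.Agent.W76.MO

theorem card_mult (a h d : ℕ) (hd : 0 < d) :
    ((((Ioc a (a + h)).filter (fun n => d ∣ n)).card : ℕ) : ℝ) ≤ h / d + 1 := by
  have h1 : ((Ioc a (a + h)).filter (fun n => d ∣ n)).card ≤ (Ioc (a / d) ((a + h) / d)).card := by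
    apply card_le_card_of_injOn (fun n => n / d)
    · intro n hn
      rw [mem_coe, mem_filter, mem_Ioc] at hn
      obtain ⟨⟨h1, h2⟩, m, rfl⟩ := hn
      rw [mem_coe, mem_Ioc]
      simp only [Nat.mul_div_cancel_left m hd]
      constructor
      · rw [Nat.div_lt_iff_lt_mul hd]; linarith
      · rw [Nat.le_div_iff_mul_le hd]; linarith
    · intro n hn n' hn' he
      rw [mem_coe, mem_filter] at hn hn'
      obtain ⟨m, rfl⟩ := hn.2
      obtain ⟨m', rfl⟩ := hn'.2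
      simp only [Nat.mul_div_cancel_left _ hd] at he
      rw [he]
  have h2 : ((Ioc (a / d) ((a + h) / d)).card : ℝ) ≤ h / d + 1 := by
    rw [Nat.card_Ioc]
    have h4 : (a + h) / d ≤ a / d + h / d + 1 := by
      have h5 := Nat.div_add_mod a d
      have h6 := Nat.div_add_mod h d
      have h7 := Nat.mod_lt a hd
      have h8 := Nat.mod_lt h hd
      have h9 : (a + h) / d < a / d + h / d + 2 := by
        rw [Nat.div_lt_iff_lt_mul hd]
        calc a + h = (d * (a / d) + a % d) + (d * (h / d) + h % d) := by rw [h5, h6]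
          _ < (a / d + h / d + 2) * d := by nlinarith
      omega
    have h3' : (a + h) / d - a / d ≤ h / d + 1 := by
      rw [Nat.sub_le_iff_le_add]; linarith
    have h3 : (((a + h) / d - a / d : ℕ) : ℝ) ≤ ((h / d + 1 : ℕ) : ℝ) := Nat.cast_le.2 h3'
    refine h3.trans ?_
    push_cast
    have := Nat.cast_div_le (α := ℝ) (m := h) (n := d)
    linarith
  exact le_trans (by exact_mod_cast h1) h2

/-- the abstract count -/
theorem count {A h M : ℕ} {D Y B : ℝ} (hD : 2 ≤ D) (hY : 0 < Y) (hAh : A + h ≤ M)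
    (hhA : (h : ℝ) ^ 2 ≤ A) (hB : (M : ℝ) / Y ^ 2 ≤ B) :
    ((((Icc 1 M) ×ˢ (Icc 1 M)).filter (fun u : ℕ × ℕ =>
      D < u.1 ∧ u.1 ^ 2 * u.2 ∈ Ioc A (A + h))).card : ℝ) ≤ 2 * h / D + Y + B := by
  set S := ((Icc 1 M) ×ˢ (Icc 1 M)).filter (fun u : ℕ × ℕ =>
      D < u.1 ∧ u.1 ^ 2 * u.2 ∈ Ioc A (A + h)) with hS
  have hsplit : S.card = (S.filter fun u => (u.1 : ℝ) ≤ Y).card +
      (S.filter fun u => ¬ (u.1 : ℝ) ≤ Y).card := (card_filter_add_card_filter_not _).symm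
  -- small `d`
  have ha : ((S.filter fun u => (u.1 : ℝ) ≤ Y).card : ℝ) ≤ 2 * h / D + Y := by
    set T := (Icc 1 M).filter (fun d : ℕ => D < d ∧ (d : ℝ) ≤ Y) with hT
    have hsub : (S.filter fun u => (u.1 : ℝ) ≤ Y) ⊆ T.biUnion (fun d =>
        ((Icc 1 M).filter (fun s => d ^ 2 * s ∈ Ioc A (A + h))).image (fun s => (d, s))) := by
      rintro ⟨d, s⟩ hu
      rw [mem_filter, hS, mem_filter, mem_product] at hu
      obtain ⟨⟨⟨h1, h2⟩, h3, h4⟩, h5⟩ := hu
      rw [mem_biUnion]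
      refine ⟨d, ?_, ?_⟩
      · rw [hT, mem_filter]; exact ⟨h1, h3, h5⟩
      · rw [mem_image]
        exact ⟨s, mem_filter.2 ⟨h2, h4⟩, rfl⟩
    have h1 : ((S.filter fun u => (u.1 : ℝ) ≤ Y).card : ℝ) ≤
        ∑ d ∈ T, ((h : ℝ) * ((d : ℝ) ^ 2)⁻¹ + 1) := by
      have h2 : (S.filter fun u => (u.1 : ℝ) ≤ Y).card ≤
          ∑ d ∈ T, ((Icc 1 M).filter (fun s => d ^ 2 * s ∈ Ioc A (A + h))).card := by
        refine (card_le_card hsub).trans (card_biUnion_le.trans (sum_le_sum fun d _ => ?_))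
        exact card_image_le
      have h3 : ((S.filter fun u => (u.1 : ℝ) ≤ Y).card : ℝ) ≤
          ((∑ d ∈ T, ((Icc 1 M).filter (fun s => d ^ 2 * s ∈ Ioc A (A + h))).card : ℕ) : ℝ) := by
        exact_mod_cast h2
      refine h3.trans ?_
      push_cast
      refine sum_le_sum fun d hd => ?_
      rw [hT, mem_filter, mem_Icc] at hd
      have hd0 : 0 < d := by omega
      have h4 : ((Icc 1 M).filter (fun s => d ^ 2 * s ∈ Ioc A (A + h))).card ≤
          ((Ioc A (A + h)).filter (fun n => d ^ 2 ∣ n)).card := by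
        apply card_le_card_of_injOn (fun s => d ^ 2 * s)
        · intro s hs
          rw [mem_coe, mem_filter] at hs
          rw [mem_coe, mem_filter]
          exact ⟨hs.2, Dvd.intro _ rfl⟩
        · intro s _ s' _ he
          exact Nat.eq_of_mul_eq_mul_left (by positivity) he
      have h5 := card_mult A h (d ^ 2) (by positivity)
      calc (((Icc 1 M).filter (fun s => d ^ 2 * s ∈ Ioc A (A + h))).card : ℝ) ≤
          (((Ioc A (A + h)).filter (fun n => d ^ 2 ∣ n)).card : ℝ) := by exact_mod_cast h4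
        _ ≤ _ := h5
        _ = _ := by push_cast; rw [div_eq_mul_inv]
    refine h1.trans ?_
    rw [sum_add_distrib, ← mul_sum]
    refine add_le_add ?_ ?_
    · have hDf : 1 ≤ ⌊D⌋₊ := by
        rw [Nat.one_le_floor_iff]
        linarith
      have h2 : ∑ d ∈ T, ((d : ℝ) ^ 2)⁻¹ ≤ ∑ d ∈ Ioc ⌊D⌋₊ (max M ⌊D⌋₊), ((d : ℝ) ^ 2)⁻¹ := by
        refine sum_le_sum_of_subset_of_nonneg ?_ fun _ _ _ => by positivity
        intro d hd
        rw [hT, mem_filter, mem_Icc] at hd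
        rw [mem_Ioc]
        refine ⟨?_, hd.1.2.trans (le_max_left _ _)⟩
        rw [Nat.floor_lt (by linarith)]
        exact hd.2.1
      have h3 := sum_Ioc_inv_sq_le_sub (α := ℝ) (k := ⌊D⌋₊) (n := max M ⌊D⌋₊) (by omega)
        (le_max_right _ _)
      have h4 : ((⌊D⌋₊ : ℕ) : ℝ)⁻¹ ≤ 2 / D := by
        have h5 : D < ⌊D⌋₊ + 1 := Nat.lt_floor_add_one D
        have h6 : D / 2 ≤ (⌊D⌋₊ : ℝ) := by linarith
        rw [inv_eq_one_div, div_le_div_iff₀ (by exact_mod_cast hDf) (by linarith)]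
        linarith
      have h5 : (0 : ℝ) ≤ ((max M ⌊D⌋₊ : ℕ) : ℝ)⁻¹ := by positivity
      have h6 : ∑ d ∈ T, ((d : ℝ) ^ 2)⁻¹ ≤ 2 / D := by linarith
      calc (h : ℝ) * ∑ d ∈ T, ((d : ℝ) ^ 2)⁻¹ ≤ h * (2 / D) :=
            mul_le_mul_of_nonneg_left h6 (by positivity)
        _ = _ := by ring
    · rw [sum_const, nsmul_eq_mul, mul_one]
      have h2 : T ⊆ Ioc 0 ⌊Y⌋₊ := by
        intro d hd
        rw [hT, mem_filter, mem_Icc] at hd
        rw [mem_Ioc]
        exact ⟨by omega, Nat.le_floor hd.2.2⟩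
      have h3 := card_le_card h2
      rw [Nat.card_Ioc] at h3
      calc (T.card : ℝ) ≤ ((⌊Y⌋₊ - 0 : ℕ) : ℝ) := by exact_mod_cast h3
        _ ≤ Y := by rw [Nat.sub_zero]; exact Nat.floor_le hY.le
  -- large `d`
  have hb : ((S.filter fun u => ¬ (u.1 : ℝ) ≤ Y).card : ℝ) ≤ B := by
    have hB0 : 0 ≤ B := le_trans (by positivity) hB
    have h1 : (S.filter fun u => ¬ (u.1 : ℝ) ≤ Y).card ≤ (Ioc 0 ⌊B⌋₊).card := by
      apply card_le_card_of_injOn (fun u => u.2)
      · rintro ⟨d, s⟩ hu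
        rw [mem_coe, mem_filter, hS, mem_filter, mem_product, mem_Icc, mem_Icc, mem_Ioc] at hu
        obtain ⟨⟨⟨h1, h2⟩, h3, h4, h4'⟩, h5⟩ := hu
        simp only at h1 h2 h3 h4 h4' h5
        rw [mem_coe, mem_Ioc]
        refine ⟨by simp only; omega, Nat.le_floor ?_⟩
        push Not at h5
        have h6 : (d : ℝ) ^ 2 * s ≤ M := by exact_mod_cast h4'.trans hAh
        have h7 : Y ^ 2 ≤ (d : ℝ) ^ 2 := pow_le_pow_left₀ hY.le h5.le 2
        have h8 : (s : ℝ) ≤ M / Y ^ 2 := by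
          rw [le_div_iff₀ (by positivity)]
          have : (s : ℝ) * Y ^ 2 ≤ s * (d : ℝ) ^ 2 := mul_le_mul_of_nonneg_left h7 (by positivity)
          linarith
        exact h8.trans hB
      · -- for each `s` at most one `d`
        have key : ∀ d d' s : ℕ, d < d' → 1 ≤ d → 1 ≤ s → A < d ^ 2 * s → d' ^ 2 * s ≤ A + h →
            False := by
          intro d d' s hdd hd hs h1 h2
          have h3 : (d + 1) ^ 2 * s ≤ A + h :=
            (Nat.mul_le_mul_right s (Nat.pow_le_pow_left hdd 2)).trans h2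
          have h4 : (2 * d + 1) * s < h := by nlinarith
          have h5 : ((d : ℝ) * s) ^ 2 < (h : ℝ) ^ 2 := by
            have : (d : ℝ) * s < h := by
              have h6 : d * s < h := by nlinarith
              exact_mod_cast h6
            exact pow_lt_pow_left₀ this (by positivity) (by norm_num)
          have h6 : (A : ℝ) < (d : ℝ) ^ 2 * s := by exact_mod_cast h1
          have h7 : (d : ℝ) ^ 2 * s ≤ ((d : ℝ) * s) ^ 2 := by
            have h8 : (1 : ℝ) ≤ s := by exact_mod_cast hs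
            rw [mul_pow]
            refine mul_le_mul_of_nonneg_left ?_ (by positivity)
            nlinarith
          linarith
        rintro ⟨d, s⟩ hu ⟨d', s'⟩ hu' he
        simp only at he
        subst he
        rw [mem_coe, mem_filter, hS, mem_filter, mem_product, mem_Icc, mem_Icc, mem_Ioc] at hu hu'
        obtain ⟨⟨⟨h1, h2⟩, h3, h4, h4'⟩, h5⟩ := hu
        obtain ⟨⟨⟨g1, g2⟩, g3, g4, g4'⟩, g5⟩ := hu'
        simp only at h1 h2 h4 h4' g1 g4 g4'
        rcases lt_trichotomy d d' with h | h | h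
        · exact (key d d' s h h1.1 h2.1 h4 g4').elim
        · rw [h]
        · exact (key d' d s h g1.1 h2.1 g4 h4').elim
    rw [Nat.card_Ioc] at h1
    calc ((S.filter fun u => ¬ (u.1 : ℝ) ≤ Y).card : ℝ) ≤ ((⌊B⌋₊ - 0 : ℕ) : ℝ) := by
          exact_mod_cast h1
      _ ≤ B := by rw [Nat.sub_zero]; exact Nat.floor_le hB0
  rw [hsplit]
  push_cast
  linarith

theorem main : T_LS := by
  intro δ hδ hδ'
  -- large scales
  obtain ⟨J, hJ⟩ := exists_nat_gt (max (1 / δ) 5)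
  refine ⟨J, fun i hi k hk => ?_⟩
  have hi' : (J : ℝ) ≤ i := by exact_mod_cast hi
  have hi1 : 1 / δ < i := (le_max_left _ _).trans_lt (hJ.trans_le hi')
  have hi5 : (5 : ℝ) < i := (le_max_right _ _).trans_lt (hJ.trans_le hi')
  have hδi : 1 ≤ δ * i := by
    rw [div_lt_iff₀ hδ] at hi1
    linarith
  obtain ⟨Q, hQ⟩ : ∃ Q : ℝ, Q = (2 : ℝ) ^ (δ * i) := ⟨_, rfl⟩
  obtain ⟨W, hW⟩ : ∃ W : ℝ, W = (2 : ℝ) ^ ((i : ℝ) / 2) := ⟨_, rfl⟩
  have h2 : (0 : ℝ) < 2 := by norm_num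
  have hQ2 : 2 ≤ Q := by
    rw [hQ]
    calc (2 : ℝ) = (2 : ℝ) ^ (1 : ℝ) := by rw [Real.rpow_one]
      _ ≤ _ := Real.rpow_le_rpow_of_exponent_le (by norm_num) hδi
  have hW0 : 0 < W := by rw [hW]; positivity
  have hQ0 : 0 < Q := by linarith
  have hWW : W ^ 2 = (2 : ℝ) ^ i := by
    rw [hW, ← Real.rpow_natCast, ← Real.rpow_mul h2.le, ← Real.rpow_natCast]
    congr 1
    push_cast
    ring
  have hQn : ∀ m : ℕ, Q ^ m = (2 : ℝ) ^ (m * δ * i) := by
    intro m
    rw [hQ, ← Real.rpow_natCast, ← Real.rpow_mul h2.le]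
    congr 1
    ring
  have hQW : 4 * Q ^ 32 ≤ W := by
    have e4 : (4 : ℝ) = (2 : ℝ) ^ (2 : ℝ) := by norm_num
    rw [hQn, hW, e4, ← Real.rpow_add h2]
    refine Real.rpow_le_rpow_of_exponent_le (by norm_num) ?_
    push_cast
    nlinarith
  -- the length of the cells
  have hH1 : (hh δ i : ℝ) ≤ W / Q := by
    have : W / Q = (2 : ℝ) ^ ((1 / 2 - δ) * i) := by
      rw [hW, hQ, ← Real.rpow_sub h2]
      congr 1; ring
    rw [this]
    unfold hh
    push_cast
    rw [← Real.rpow_natCast]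
    refine Real.rpow_le_rpow_of_exponent_le (by norm_num) ?_
    refine Nat.floor_le ?_
    have : 0 ≤ 1 / 2 - δ := by linarith
    positivity
  have hH2 : W / (2 * Q) ≤ (hh δ i : ℝ) := by
    have : W / (2 * Q) = (2 : ℝ) ^ ((1 / 2 - δ) * i - 1) := by
      rw [Real.rpow_sub h2, Real.rpow_one, hW, hQ, ← div_div, div_right_comm, ← Real.rpow_sub h2]
      congr 2; ring
    rw [this]
    unfold hh
    push_cast
    rw [← Real.rpow_natCast]
    refine Real.rpow_le_rpow_of_exponent_le (by norm_num) ?_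
    have := Nat.lt_floor_add_one ((1 / 2 - δ) * i)
    linarith
  have hH0 : (0 : ℝ) < hh δ i := by unfold hh; positivity
  -- the cell
  have hkn : (k + 1) * hh δ i ≤ 2 ^ i := by
    have h1 : k + 1 ≤ 2 ^ i / hh δ i := hk
    calc (k + 1) * hh δ i ≤ (2 ^ i / hh δ i) * hh δ i := Nat.mul_le_mul_right _ h1
      _ ≤ 2 ^ i := Nat.div_mul_le_self _ _
  have hcell : cell δ i k = Ioc (2 ^ i + k * hh δ i) (2 ^ i + k * hh δ i + hh δ i) := by
    unfold cell
    congr 1; ring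
  have hAh : 2 ^ i + k * hh δ i + hh δ i ≤ 2 ^ (i + 1) := by
    have : 2 ^ i + k * hh δ i + hh δ i = 2 ^ i + (k + 1) * hh δ i := by ring
    rw [this, pow_succ]
    omega
  have hc := count (A := 2 ^ i + k * hh δ i) (h := hh δ i) (M := 2 ^ (i + 1)) (D := Q ^ 9)
    (Y := W / Q ^ 11) (B := 2 * Q ^ 22) ?_ (by positivity) hAh ?_ ?_
  · rw [hcell]
    have hD : (2 : ℝ) ^ (9 * δ * i) = Q ^ 9 := by rw [hQn]; norm_num
    have hD' : (2 : ℝ) ^ (-(9 * δ) * i) = (Q ^ 9)⁻¹ := by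
      rw [hQn, ← Real.rpow_neg h2.le]
      congr 1
      push_cast
      ring
    rw [hD, hD']
    refine hc.trans ?_
    have e1 : 2 * (hh δ i : ℝ) / Q ^ 9 = 2 * (hh δ i * (Q ^ 9)⁻¹) := by
      rw [div_eq_mul_inv]; ring
    have e2 : W / Q ^ 11 ≤ 1 * (hh δ i * (Q ^ 9)⁻¹) := by
      have h3 : W / (2 * Q) * (Q ^ 9)⁻¹ ≤ hh δ i * (Q ^ 9)⁻¹ :=
        mul_le_mul_of_nonneg_right hH2 (by positivity)
      have h4 : W / Q ^ 11 ≤ W / (2 * Q) * (Q ^ 9)⁻¹ := by
        rw [← div_eq_mul_inv, div_div]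
        refine div_le_div_of_nonneg_left hW0.le (by positivity) ?_
        have : Q ^ 11 = Q * (Q * Q ^ 9) := by ring
        rw [this]
        have h5 : 0 < Q * Q ^ 9 := by positivity
        nlinarith
      linarith
    have e3 : 2 * Q ^ 22 ≤ 1 * (hh δ i * (Q ^ 9)⁻¹) := by
      have h3 : W / (2 * Q) * (Q ^ 9)⁻¹ ≤ hh δ i * (Q ^ 9)⁻¹ :=
        mul_le_mul_of_nonneg_right hH2 (by positivity)
      have h4 : 2 * Q ^ 22 ≤ W / (2 * Q) * (Q ^ 9)⁻¹ := by
        rw [← div_eq_mul_inv, div_div, le_div_iff₀ (by positivity)]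
        calc 2 * Q ^ 22 * (2 * Q * Q ^ 9) = 4 * Q ^ 32 := by ring
          _ ≤ W := hQW
      linarith
    have h5 : 0 ≤ (hh δ i : ℝ) * (Q ^ 9)⁻¹ := by positivity
    rw [e1]
    nlinarith
  · calc (2 : ℝ) ≤ Q := hQ2
      _ = Q ^ 1 := (pow_one Q).symm
      _ ≤ Q ^ 9 := pow_le_pow_right₀ (by linarith) (by norm_num)
  · have h3 : (hh δ i : ℝ) ^ 2 ≤ W ^ 2 := by
      refine pow_le_pow_left₀ hH0.le (hH1.trans ?_) 2
      exact div_le_self hW0.le (by linarith)
    refine h3.trans ?_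
    rw [hWW]
    push_cast
    have : (0 : ℝ) ≤ k * hh δ i := by positivity
    linarith
  · push_cast
    rw [pow_succ, ← hWW]
    refine le_of_eq ?_
    field_simp

end Pool.Agent.N408.CMO.LS
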