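import Pool.Agent.N408.CMO.Cm
import Pool.Agent.W640.MO.H1

/-!
# MP_768c9c_nt, task NS: the numbers which are not squarefree contribute little
-/

set_option autoImplicit false

namespace Pool.Agent.N408.CMO.NS

open Finset Filter Topology
open scoped Classical
open Pool.Agent.W76.MO
open Pool.Agent.W640.MO (poly_le_two_rpow factor_le w_nonneg cell_le E2_nonneg)

/-- tails of the series `∑ d^(-3/2)` are small -/
lemma tail (ε : ℝ) (hε : 0 < ε) : ∃ R₁ : ℕ, ∀ t : Finset ℕ, (∀ d ∈ t, R₁ ≤ d) →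
    ∑ d ∈ t, (d : ℝ) ^ (-(3 / 2 : ℝ)) ≤ ε := by
  have hs : Summable (fun n : ℕ => (n : ℝ) ^ (-(3 / 2 : ℝ))) :=
    Real.summable_nat_rpow.2 (by norm_num)
  obtain ⟨s, hs⟩ := summable_iff_vanishing_norm.1 hs ε hε
  refine ⟨s.sup id + 1, fun t ht => ?_⟩
  have hd : Disjoint t s := by
    rw [Finset.disjoint_left]
    intro a ha has
    have h1 := ht a ha
    have h2 : a ≤ s.sup id := Finset.le_sup (f := id) has
    omega
  have h3 := hs t hd
  exact (le_abs_self _).trans h3.le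

lemma rough_dvd {R m n : ℕ} (h : Rough R n) (hmn : m ∣ n) : Rough R m :=
  fun p hp hpm => h p hp (hpm.trans hmn)

lemma rough_ge {R d : ℕ} (h : Rough R d) (hd : 2 ≤ d) : R ≤ d := by
  obtain ⟨p, hp, hpd⟩ := Nat.exists_prime_and_dvd (n := d) (by omega)
  have h1 : (R : ℝ) ≤ p := h p hp hpd
  have h2 : R ≤ p := by exact_mod_cast h1
  exact h2.trans (Nat.le_of_dvd (by omega) hpd)

theorem main : T_NS := by
  intro E hG hI hL
  obtain ⟨JG, hJG1, hG⟩ := hG
  obtain ⟨C, hC, R₀, hI⟩ := hI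
  obtain ⟨JL, hL⟩ := hL
  have hδ := E.hδ
  have hδτ := E.hδ'
  have hτ := E.hτ
  have hτ1 := E.hτ'
  obtain ⟨R₁, hR₁⟩ := tail (1 / (32 * C)) (by positivity)
  obtain ⟨JP, hJP⟩ := poly_le_two_rpow (E.δ / 2) (by positivity) 512 40
  refine ⟨max R₀ R₁, fun R hR => ?_⟩
  have hR0 : R₀ ≤ R := le_trans (le_max_left _ _) hR
  have hR1 : R₁ ≤ R := le_trans (le_max_right _ _) hR
  obtain ⟨JI, hI⟩ := hI R hR0
  refine ⟨max (max JG JL) (max JI (max JP 2)), fun j hj i hi k hk => ?_⟩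
  have hjG : JG ≤ j := by omega
  have hjL : JL ≤ j := by omega
  have hjI : JI ≤ j := by omega
  have hjP : JP ≤ j := by omega
  have hj2 : 2 ≤ j := by omega
  obtain ⟨-, hgu0, hgh0, hgu, hgh, hU, hH, -, -⟩ := hG j hjG
  set φ : ℕ → ℝ := fun p => 1 + 2 * (p * E.g j p) with hφ
  have hg0 : ∀ p, 0 ≤ E.g j p := fun p => add_nonneg (hgu0 p) (hgh0 p)
  have hφ0 : ∀ p, 0 ≤ φ p := by
    intro p
    have := hg0 p
    simp only [hφ]
    positivity
  have hfac : ∀ p : ℕ, p.Prime → φ p ≤ (p : ℝ) ^ (9 * E.δ) := fun p hp =>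
    factor_le E hj2 hgu hgh hU hH p hp
  set F : ℕ → ℝ := fun n => cm φ n / n with hF
  have hF0 : ∀ n, 0 ≤ F n := fun n => div_nonneg (cm_nonneg φ hφ0 n) (Nat.cast_nonneg _)
  set N : ℕ := 2 ^ (i + 1) with hN
  set T : Finset (ℕ × ℕ) := ((Icc 1 N) ×ˢ (Icc 1 N)).filter (fun u : ℕ × ℕ =>
    2 ≤ u.1 ∧ R ≤ u.1 ∧ Squarefree u.2 ∧ Rough R u.2 ∧ u.1 ^ 2 * u.2 ∈ cell E.δ i k) with hT
  -- step 1
  have step1 : ∑ n ∈ ns E R i k, F n ≤ ∑ u ∈ T, F (u.1 ^ 2 * u.2) := by
    have hdec : ∀ n : ℕ, ∃ u : ℕ × ℕ, u.1 ^ 2 * u.2 = n ∧ Squarefree u.2 := by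
      intro n
      obtain ⟨a, b, h, ha⟩ := Nat.sq_mul_squarefree n
      exact ⟨(b, a), h, ha⟩
    choose u hu hus using hdec
    have hinj : Set.InjOn u (ns E R i k : Set ℕ) := by
      intro a _ b _ hab
      rw [← hu a, ← hu b, hab]
    have h1 : ∑ n ∈ ns E R i k, F n = ∑ v ∈ (ns E R i k).image u, F (v.1 ^ 2 * v.2) := by
      rw [Finset.sum_image hinj]
      exact Finset.sum_congr rfl fun n _ => by rw [hu n]
    rw [h1]
    refine Finset.sum_le_sum_of_subset_of_nonneg ?_ (fun v _ _ => hF0 _)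
    intro v hv
    obtain ⟨n, hn, rfl⟩ := Finset.mem_image.1 hv
    unfold ns at hn
    rw [mem_filter] at hn
    obtain ⟨hnc, hnR, hnsq⟩ := hn
    obtain ⟨hn1, hn2⟩ := cell_le hk hnc
    have hnpos : 0 < n := lt_of_le_of_lt (Nat.zero_le _) hn1
    have hd0 : (u n).1 ≠ 0 := by
      intro h
      have := hu n
      rw [h] at this
      simp at this
      omega
    have hs0 : (u n).2 ≠ 0 := (hus n).ne_zero
    have hd1 : (u n).1 ≠ 1 := by
      intro h
      apply hnsq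
      have := hu n
      rw [h, one_pow, one_mul] at this
      rw [← this]
      exact hus n
    have hdn : (u n).1 ∣ n := by
      have h := hu n
      exact ⟨(u n).1 * (u n).2, by rw [← mul_assoc, ← sq]; exact h.symm⟩
    have hsn : (u n).2 ∣ n := ⟨(u n).1 ^ 2, by rw [mul_comm]; exact (hu n).symm⟩
    have hd2 : 2 ≤ (u n).1 := by omega
    simp only [hT, mem_filter, mem_product, mem_Icc]
    refine ⟨⟨⟨by omega, (Nat.le_of_dvd hnpos hdn).trans hn2⟩,
      ⟨by omega, (Nat.le_of_dvd hnpos hsn).trans hn2⟩⟩, hd2,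
      rough_ge (rough_dvd hnR hdn) hd2, hus n, rough_dvd hnR hsn, ?_⟩
    rw [hu n]; exact hnc
  -- the large `d`
  have stepB : ∑ u ∈ T.filter (fun u : ℕ × ℕ => (2 : ℝ) ^ (9 * E.δ * i) < u.1),
      F (u.1 ^ 2 * u.2) ≤ E.w i / 32 := by
    have hterm : ∀ u ∈ T.filter (fun u : ℕ × ℕ => (2 : ℝ) ^ (9 * E.δ * i) < u.1),
        F (u.1 ^ 2 * u.2) ≤ 2 * (2 : ℝ) ^ (9 * E.δ * i) / 2 ^ i := by
      intro u hu
      simp only [hT, mem_filter, mem_product, mem_Icc] at hu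
      obtain ⟨⟨_, _, _, _, _, hcell⟩, _⟩ := hu
      obtain ⟨hn1, hn2⟩ := cell_le hk hcell
      set n := u.1 ^ 2 * u.2 with hn
      have hn0 : n ≠ 0 := by omega
      have h1 : cm φ n ≤ (n : ℝ) ^ (9 * E.δ) := cm_le_rpow φ _ hφ0 hfac hn0
      have h2 : (n : ℝ) ^ (9 * E.δ) ≤ 2 * (2 : ℝ) ^ (9 * E.δ * i) := by
        have h3 : (n : ℝ) ≤ 2 ^ (i + 1) := by exact_mod_cast hn2
        calc (n : ℝ) ^ (9 * E.δ) ≤ ((2 : ℝ) ^ (i + 1)) ^ (9 * E.δ) :=
              Real.rpow_le_rpow (by positivity) h3 (by positivity)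
          _ = (2 : ℝ) ^ (9 * E.δ) * (2 : ℝ) ^ (9 * E.δ * i) := by
              rw [← Real.rpow_natCast 2 (i + 1), ← Real.rpow_mul (by norm_num),
                ← Real.rpow_add (by norm_num)]
              push_cast
              ring_nf
          _ ≤ 2 * (2 : ℝ) ^ (9 * E.δ * i) := by
              apply mul_le_mul_of_nonneg_right _ (by positivity)
              calc (2 : ℝ) ^ (9 * E.δ) ≤ (2 : ℝ) ^ (1 : ℝ) :=
                    Real.rpow_le_rpow_of_exponent_le (by norm_num) (by linarith)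
                _ = 2 := Real.rpow_one 2
      have h4 : ((2 : ℝ) ^ i) ≤ n := by exact_mod_cast hn1.le
      exact div_le_div₀ (by positivity) (h1.trans h2) (by positivity) h4
    have hcard : (((T.filter (fun u : ℕ × ℕ => (2 : ℝ) ^ (9 * E.δ * i) < u.1)).card : ℕ) : ℝ) ≤
        8 * hh E.δ i * (2 : ℝ) ^ (-(9 * E.δ) * i) := by
      refine le_trans ?_ (hL i (hjL.trans hi) k hk)
      have : T.filter (fun u : ℕ × ℕ => (2 : ℝ) ^ (9 * E.δ * i) < u.1) ⊆
          ((Icc 1 (2 ^ (i + 1))) ×ˢ (Icc 1 (2 ^ (i + 1)))).filter (fun u : ℕ × ℕ =>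
            (2 : ℝ) ^ (9 * E.δ * i) < u.1 ∧ u.1 ^ 2 * u.2 ∈ cell E.δ i k) := by
        intro u hu
        simp only [hT, mem_filter] at hu ⊢
        exact ⟨hu.1.1, hu.2, hu.1.2.2.2.2.2⟩
      exact_mod_cast Finset.card_le_card this
    have hsum := Finset.sum_le_card_nsmul _ _ _ hterm
    rw [nsmul_eq_mul] at hsum
    refine hsum.trans ?_
    have hhle : (hh E.δ i : ℝ) ≤ (2 : ℝ) ^ ((1 / 2 - E.δ) * i) := by
      unfold hh
      push_cast
      rw [← Real.rpow_natCast]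
      apply Real.rpow_le_rpow_of_exponent_le (by norm_num)
      apply Nat.floor_le
      have : E.δ ≤ 1 / 2 := by linarith
      have : 0 ≤ 1 / 2 - E.δ := by linarith
      positivity
    have hi1 : 1 ≤ i := by omega
    have hi0 : (0 : ℝ) < (i : ℝ) ^ 40 := by
      have : (0 : ℝ) < i := by exact_mod_cast hi1
      positivity
    calc (((T.filter (fun u : ℕ × ℕ => (2 : ℝ) ^ (9 * E.δ * i) < u.1)).card : ℕ) : ℝ) *
          (2 * (2 : ℝ) ^ (9 * E.δ * i) / 2 ^ i)
        ≤ (8 * hh E.δ i * (2 : ℝ) ^ (-(9 * E.δ) * i)) * (2 * (2 : ℝ) ^ (9 * E.δ * i) / 2 ^ i) := by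
          apply mul_le_mul_of_nonneg_right hcard (by positivity)
      _ = 16 * hh E.δ i / 2 ^ i * ((2 : ℝ) ^ (-(9 * E.δ) * i) * (2 : ℝ) ^ (9 * E.δ * i)) := by ring
      _ = 16 * hh E.δ i / 2 ^ i := by
          rw [← Real.rpow_add (by norm_num)]
          have : -(9 * E.δ) * (i : ℝ) + 9 * E.δ * i = 0 := by ring
          rw [this, Real.rpow_zero, mul_one]
      _ ≤ 16 * (2 : ℝ) ^ ((1 / 2 - E.δ) * i) / 2 ^ i := by
          apply div_le_div_of_nonneg_right _ (by positivity)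
          linarith
      _ = 16 * (2 : ℝ) ^ (-(1 / 2 + E.δ) * i) := by
          rw [← Real.rpow_natCast 2 i, mul_div_assoc, ← Real.rpow_sub (by norm_num)]
          ring_nf
      _ ≤ E.w i / 32 := by
          unfold Env.w
          rw [div_div, le_div_iff₀ (by positivity)]
          have h1 := hJP i (hjP.trans hi)
          have h2 : (2 : ℝ) ^ (-(1 / 2 + E.δ / 2) * (i : ℝ)) =
              (2 : ℝ) ^ (-(1 / 2 + E.δ) * (i : ℝ)) * (2 : ℝ) ^ (E.δ / 2 * (i : ℝ)) := by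
            rw [← Real.rpow_add (by norm_num)]
            ring_nf
          rw [h2]
          have h3 : 16 * (2 : ℝ) ^ (-(1 / 2 + E.δ) * (i : ℝ)) * ((i : ℝ) ^ 40 * 32) =
              (2 : ℝ) ^ (-(1 / 2 + E.δ) * (i : ℝ)) * (512 * (i : ℝ) ^ 40) := by ring
          rw [h3]
          exact mul_le_mul_of_nonneg_left h1 (by positivity)
  -- the small `d`
  have stepA : ∑ u ∈ T.filter (fun u : ℕ × ℕ => ¬ (2 : ℝ) ^ (9 * E.δ * i) < u.1),
      F (u.1 ^ 2 * u.2) ≤ E.w i / 32 := by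
    set TA := T.filter (fun u : ℕ × ℕ => ¬ (2 : ℝ) ^ (9 * E.δ * i) < u.1) with hTA
    set D : Finset ℕ := (Icc 1 N).filter (fun d : ℕ => 2 ≤ d ∧ R ≤ d ∧
      (d : ℝ) ≤ (2 : ℝ) ^ (9 * E.δ * i)) with hD
    have hmaps : ∀ u ∈ TA, u.1 ∈ D := by
      intro u hu
      simp only [hTA, hT, hD, mem_filter, mem_product, not_lt] at hu ⊢
      exact ⟨hu.1.1.1, hu.1.2.1, hu.1.2.2.1, hu.2⟩
    rw [← Finset.sum_fiberwise_of_maps_to hmaps]
    have hin : ∀ d ∈ D, ∑ u ∈ TA.filter (fun u => u.1 = d), F (u.1 ^ 2 * u.2) ≤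
        (d : ℝ) ^ (-(3 / 2 : ℝ)) * (C * E.w i) := by
      intro d hd
      simp only [hD, mem_filter, mem_Icc] at hd
      obtain ⟨⟨hd1, hdN⟩, hd2, hdR, hdle⟩ := hd
      have hd0 : d ≠ 0 := by omega
      have hdpos : (1 : ℝ) ≤ d := by exact_mod_cast hd1
      have hadm : Adm E i (d ^ 2) := by
        refine ⟨by nlinarith, ?_⟩
        push_cast
        calc (d : ℝ) ^ 2 ≤ ((2 : ℝ) ^ (9 * E.δ * i)) ^ 2 := by
              apply pow_le_pow_left₀ (by positivity) hdle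
          _ = (2 : ℝ) ^ (18 * E.δ * i) := by
              rw [← Real.rpow_natCast, ← Real.rpow_mul (by norm_num)]
              push_cast
              ring_nf
          _ ≤ (2 : ℝ) ^ (E.τ / 50 * i) := by
              apply Real.rpow_le_rpow_of_exponent_le (by norm_num)
              apply mul_le_mul_of_nonneg_right _ (by positivity)
              linarith
      have hb := hI j hjI i hi k hk (d ^ 2) hadm
      have hterm : ∀ u ∈ TA.filter (fun u => u.1 = d), F (u.1 ^ 2 * u.2) ≤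
          (d : ℝ) ^ (-(3 / 2 : ℝ)) * (E.E2 j u.2 / u.2) := by
        intro u hu
        simp only [hTA, hT, mem_filter, mem_product, mem_Icc] at hu
        obtain ⟨⟨⟨⟨_, hs1, _⟩, _, _, hsq, _, _⟩, _⟩, rfl⟩ := hu
        have hs0 : u.2 ≠ 0 := by omega
        have hE2 := E2_nonneg E hgu0 hgh0 u.2
        have hspos : (0 : ℝ) < u.2 := by exact_mod_cast hs1
        simp only [hF]
        rw [cm_mul φ (pow_ne_zero 2 hd0) hs0, cm_pow φ hd0, cm_E2 E j hsq]
        have h1 : cm φ u.1 ^ 2 ≤ (u.1 : ℝ) ^ (18 * E.δ) := by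
          have h2 := cm_le_rpow φ _ hφ0 hfac hd0
          calc cm φ u.1 ^ 2 ≤ ((u.1 : ℝ) ^ (9 * E.δ)) ^ 2 :=
                pow_le_pow_left₀ (cm_nonneg φ hφ0 _) h2 2
            _ = (u.1 : ℝ) ^ (18 * E.δ) := by
                rw [← Real.rpow_natCast, ← Real.rpow_mul (by positivity)]
                push_cast
                ring_nf
        have h3 : cm φ u.1 ^ 2 / (u.1 : ℝ) ^ 2 ≤ (u.1 : ℝ) ^ (-(3 / 2 : ℝ)) := by
          rw [div_le_iff₀ (by positivity)]
          refine h1.trans ?_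
          rw [← Real.rpow_natCast (u.1 : ℝ) 2, ← Real.rpow_add (by positivity)]
          apply Real.rpow_le_rpow_of_exponent_le hdpos
          push_cast
          linarith
        push_cast
        rw [mul_div_mul_comm]
        exact mul_le_mul_of_nonneg_right h3 (by positivity)
      refine (Finset.sum_le_sum hterm).trans ?_
      rw [← Finset.mul_sum]
      apply mul_le_mul_of_nonneg_left _ (by positivity)
      refine le_trans ?_ hb
      have hinj : Set.InjOn (fun u : ℕ × ℕ => u.2)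
          ((TA.filter (fun u => u.1 = d) : Finset (ℕ × ℕ)) : Set (ℕ × ℕ)) := by
        intro a ha b hb hab
        simp only [coe_filter, Set.mem_ofPred_eq] at ha hb
        exact Prod.ext (ha.2.trans hb.2.symm) hab
      rw [← Finset.sum_image (f := fun s : ℕ => E.E2 j s / s) hinj]
      refine Finset.sum_le_sum_of_subset_of_nonneg ?_ (fun s _ _ => ?_)
      · intro s hs
        obtain ⟨u, hu, rfl⟩ := Finset.mem_image.1 hs
        simp only [hTA, hT, mem_filter, mem_product] at hu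
        obtain ⟨⟨⟨⟨_, hs1⟩, _, _, hsq, hsr, hc⟩, _⟩, rfl⟩ := hu
        unfold cb
        rw [mem_filter]
        exact ⟨hs1, hsq, hsr, hc⟩
      · exact div_nonneg (E2_nonneg E hgu0 hgh0 s) (Nat.cast_nonneg _)
    refine (Finset.sum_le_sum hin).trans ?_
    rw [← Finset.sum_mul]
    have hw := w_nonneg E i
    have h1 : ∑ d ∈ D, (d : ℝ) ^ (-(3 / 2 : ℝ)) ≤ 1 / (32 * C) := by
      apply hR₁
      intro d hd
      simp only [hD, mem_filter] at hd
      exact hR1.trans hd.2.2.1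
    calc (∑ d ∈ D, (d : ℝ) ^ (-(3 / 2 : ℝ))) * (C * E.w i) ≤ 1 / (32 * C) * (C * E.w i) :=
          mul_le_mul_of_nonneg_right h1 (by positivity)
      _ = E.w i / 32 := by field_simp
  calc ∑ n ∈ ns E R i k, F n ≤ ∑ u ∈ T, F (u.1 ^ 2 * u.2) := step1
    _ = _ := (Finset.sum_filter_add_sum_filter_not T
          (fun u : ℕ × ℕ => (2 : ℝ) ^ (9 * E.δ * i) < u.1) _).symm
    _ ≤ E.w i / 32 + E.w i / 32 := add_le_add stepB stepA
    _ = E.w i / 16 := by ring

end Pool.Agent.N408.CMO.NS
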