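import Pool.Agent.N408.CMO.Cm
import Pool.Agent.W683.MO.SP

/-!
# MP_768c9c_nt: task SI (small control primes times an admissible multiplier)
-/

set_option autoImplicit false

namespace Pool.Agent.N408.CMO.SI

open Finset Filter Topology
open scoped Classical
open Pool.Agent.W76.MO
open Pool.Agent.W683.MO

/-- (B) for intervals -/
theorem B_int (E : Env) (hG : E.GBounds) : ∃ J : ℕ, 1 ≤ J ∧ ∀ j : ℕ, J ≤ j → ∀ i : ℕ, j ≤ i →
    ∀ a L : ℕ, a + L ≤ 2 ^ (i + 1) → (2 : ℝ) ^ (2 / 5 * (i : ℝ)) ≤ L → ∑ n ∈ Ioc a (a + L),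
      ∏ p ∈ n.primeFactors.filter (fun p : ℕ => (p : ℝ) ≤ (2 : ℝ) ^ (1 / 20 * (i : ℝ))),
        (1 + 2 * (p * E.gh j p)) ≤ 5 * L := by
  have hδ := E.hδ
  have hδt := E.hδ'
  have hτ := E.hτ
  have hτ' := E.hτ'
  obtain ⟨J0, hJ0, hJ⟩ := hG
  obtain ⟨J1, hJ1⟩ := large (E.τ / 16 - 9 * E.δ) 8 0 (by linarith)
  refine ⟨J0 + J1 + 3, by omega, fun j hj i hij a L haL hL => ?_⟩
  obtain ⟨-, -, g3, -, g5, -, g7, g8, -⟩ := hJ j (by omega)
  have hjR : (3 : ℝ) ≤ j := by exact_mod_cast (by omega : 3 ≤ j)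
  have hcs : ∀ n ∈ Ioc a (a + L), 0 < n ∧ n ≤ 2 ^ (i + 1) := by
    intro n hn
    rw [mem_Ioc] at hn
    constructor <;> omega
  set b : ℕ → ℝ := fun q => 2 * (q * E.gh j q) with hb
  have hb0 : ∀ q, 0 ≤ b q := by
    intro q
    have := g3 q
    simp only [hb]
    positivity
  set Q : Finset ℕ := (range (2 ^ i + 1)).filter (fun q : ℕ =>
    (q : ℝ) ≤ (2 : ℝ) ^ (1 / 20 * (i : ℝ)) ∧ E.gh j q ≠ 0) with hQ
  have hQp : ∀ q ∈ Q, q.Prime := by
    intro q hq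
    rw [hQ, mem_filter] at hq
    exact (g5 q hq.2.2).1.1
  have hiR : (0 : ℝ) ≤ i := by positivity
  have e1 : ∀ n ∈ Ioc a (a + L),
      ∏ p ∈ n.primeFactors.filter (fun p : ℕ => (p : ℝ) ≤ (2 : ℝ) ^ (1 / 20 * (i : ℝ))),
        (1 + 2 * (p * E.gh j p)) = ∏ q ∈ Q.filter (fun q => q ∣ n), (1 + b q) := by
    intro n hn
    have hn2 := hcs n hn
    have e2 : Q.filter (fun q => q ∣ n) = (n.primeFactors.filter
        (fun p : ℕ => (p : ℝ) ≤ (2 : ℝ) ^ (1 / 20 * (i : ℝ)))).filter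
          (fun p => E.gh j p ≠ 0) := by
      ext q
      simp only [hQ, mem_filter, Nat.mem_primeFactors, mem_range]
      constructor
      · rintro ⟨⟨h1, h2, h3⟩, h4⟩
        exact ⟨⟨⟨(g5 q h3).1.1, h4, by omega⟩, h2⟩, h3⟩
      · rintro ⟨⟨⟨h1, h2, h3⟩, h4⟩, h5⟩
        refine ⟨⟨?_, h4, h5⟩, h2⟩
        have h6 : (q : ℝ) ≤ 2 ^ i := by
          refine h4.trans ?_
          rw [← Real.rpow_natCast]
          apply Real.rpow_le_rpow_of_exponent_le (by norm_num)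
          linarith
        have h7 : q ≤ 2 ^ i := by exact_mod_cast h6
        omega
    rw [e2]
    symm
    apply prod_filter_of_ne
    intro p _ hne h0
    apply hne
    simp only [hb]
    rw [h0]; ring
  rw [sum_congr rfl e1]
  set Z1 : ℝ := (2 : ℝ) ^ (1 / 4 * (i : ℝ)) with hZ1
  set Z2 : ℝ := (2 : ℝ) ^ (3 / 10 * (i : ℝ)) with hZ2
  set K : ℝ := 2 * (2 : ℝ) ^ (9 * E.δ * i) with hK
  set W1 := Q.powerset.filter (fun s => ((∏ q ∈ s, q : ℕ) : ℝ) ≤ Z1) with hW1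
  set W2 := Q.powerset.filter (fun s => Z1 < ((∏ q ∈ s, q : ℕ) : ℝ) ∧
          ((∏ q ∈ s, q : ℕ) : ℝ) ≤ Z2) with hW2
  have hZ12 : Z1 ≤ Z2 := by
    apply Real.rpow_le_rpow_of_exponent_le (by norm_num)
    linarith
  have hpt : ∀ n ∈ Ioc a (a + L), ∏ q ∈ Q.filter (fun q => q ∣ n), (1 + b q) ≤
      ∑ s ∈ W1, (∏ q ∈ s, b q) * (if (∏ q ∈ s, q) ∣ n then 1 else 0) +
      K * ∑ s ∈ W2, (if (∏ q ∈ s, q) ∣ n then (1 : ℝ) else 0) := by
    intro n hn
    have hn2 := hcs n hn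
    apply B_point b hb0 Q hQp (9 * E.δ) Z1 Z2 K ((2 : ℝ) ^ (1 / 20 * (i : ℝ))) (by linarith)
    · intro q hq
      rw [hQ, mem_filter] at hq
      exact (g7 q hq.2.2).2
    · intro q hq
      rw [hQ, mem_filter] at hq
      exact hq.2.1
    · exact Real.one_le_rpow (by norm_num) (by positivity)
    · rw [hZ1, hZ2, ← Real.rpow_add (by norm_num)]
      apply le_of_eq
      congr 1; ring
    · omega
    · have hnR : (n : ℝ) ≤ (2 : ℝ) ^ ((i : ℝ) + 1) := by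
        have : (n : ℝ) ≤ 2 ^ (i + 1) := by exact_mod_cast hn2.2
        rw [← Real.rpow_natCast] at this
        push_cast at this
        exact this
      calc (n : ℝ) ^ (9 * E.δ) ≤ ((2 : ℝ) ^ ((i : ℝ) + 1)) ^ (9 * E.δ) :=
            Real.rpow_le_rpow (by positivity) hnR (by linarith)
        _ = (2 : ℝ) ^ (((i : ℝ) + 1) * (9 * E.δ)) := by rw [← Real.rpow_mul (by norm_num)]
        _ ≤ (2 : ℝ) ^ (1 + 9 * E.δ * i) := by
            apply Real.rpow_le_rpow_of_exponent_le (by norm_num)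
            nlinarith
        _ = K := by rw [hK, Real.rpow_add (by norm_num), Real.rpow_one]
  refine (sum_le_sum hpt).trans ?_
  rw [sum_add_distrib, ← mul_sum, sum_comm (s := Ioc a (a + L)) (t := W1),
    sum_comm (s := Ioc a (a + L)) (t := W2)]
  -- counting
  have hZ2h : Z2 ≤ L := by
    refine le_trans ?_ hL
    rw [hZ2]
    apply Real.rpow_le_rpow_of_exponent_le (by norm_num)
    linarith
  have hcount : ∀ s ∈ Q.powerset, ((∏ q ∈ s, q : ℕ) : ℝ) ≤ Z2 →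
      ∑ n ∈ Ioc a (a + L), (if (∏ q ∈ s, q) ∣ n then (1 : ℝ) else 0) ≤
        2 * L / ((∏ q ∈ s, q : ℕ) : ℝ) := by
    intro s hs hle
    rw [mem_powerset] at hs
    have hpos : 0 < ∏ q ∈ s, q := prod_pos (fun q hq => (hQp q (hs hq)).pos)
    have hposR : (0 : ℝ) < ((∏ q ∈ s, q : ℕ) : ℝ) := by exact_mod_cast hpos
    rw [sum_boole]
    have h1 := card_mult a L (∏ q ∈ s, q) hpos
    refine h1.trans ?_
    have h3 : (1 : ℝ) ≤ L / ((∏ q ∈ s, q : ℕ) : ℝ) := by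
      rw [le_div_iff₀ hposR, one_mul]
      exact hle.trans hZ2h
    have h4 : 2 * (L : ℝ) / ((∏ q ∈ s, q : ℕ) : ℝ) =
        L / ((∏ q ∈ s, q : ℕ) : ℝ) + L / ((∏ q ∈ s, q : ℕ) : ℝ) := by ring
    rw [h4]
    linarith
  have hexp1 : Real.exp (1 / j) ≤ 2 := by
    have h1 : (1 : ℝ) / j ≤ 1 / 3 := one_div_le_one_div_of_le (by norm_num) hjR
    calc Real.exp (1 / j) ≤ Real.exp (Real.log 2) := by
          apply Real.exp_le_exp.2
          have := Real.log_two_gt_d9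
          linarith
      _ = 2 := Real.exp_log (by norm_num)
  have hexp2 : Real.exp (2 / j) ≤ 2 := by
    have h1 : (2 : ℝ) / j ≤ 2 / 3 := div_le_div_of_nonneg_left (by norm_num) (by norm_num) hjR
    calc Real.exp (2 / j) ≤ Real.exp (Real.log 2) := by
          apply Real.exp_le_exp.2
          have := Real.log_two_gt_d9
          linarith
      _ = 2 := Real.exp_log (by norm_num)
  have g8Q := g8 Q
  have hqpos : ∀ q ∈ Q, (1 : ℝ) ≤ q := fun q hq => by exact_mod_cast (hQp q hq).one_lt.le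
  -- first sum
  have hS1 : ∑ s ∈ W1, ∑ n ∈ Ioc a (a + L),
      (∏ q ∈ s, b q) * (if (∏ q ∈ s, q) ∣ n then (1 : ℝ) else 0) ≤ 4 * L := by
    have h1 : ∀ s ∈ W1, ∑ n ∈ Ioc a (a + L),
        (∏ q ∈ s, b q) * (if (∏ q ∈ s, q) ∣ n then (1 : ℝ) else 0) ≤
        2 * L * ∏ q ∈ s, (b q / q) := by
      intro s hs
      rw [hW1, mem_filter] at hs
      rw [← mul_sum]
      have h2 := hcount s hs.1 (hs.2.trans hZ12)
      have h3 : 0 ≤ ∏ q ∈ s, b q := prod_nonneg (fun q _ => hb0 q)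
      refine (mul_le_mul_of_nonneg_left h2 h3).trans (le_of_eq ?_)
      rw [prod_div_distrib]
      push_cast
      ring
    refine (sum_le_sum h1).trans ?_
    rw [← mul_sum]
    have h4 : ∑ s ∈ W1, ∏ q ∈ s, (b q / q) ≤ ∑ s ∈ Q.powerset, ∏ q ∈ s, (b q / q) := by
      apply sum_le_sum_of_subset_of_nonneg (filter_subset _ _)
      intro s _ _
      exact prod_nonneg (fun q _ => div_nonneg (hb0 q) (Nat.cast_nonneg q))
    rw [← prod_one_add] at h4
    have h5 := prod_one_add_le_exp Q (fun q => b q / q)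
      (fun q => div_nonneg (hb0 q) (Nat.cast_nonneg q))
    have h6 : ∑ q ∈ Q, b q / q ≤ 2 / j := by
      have h7 : ∀ q ∈ Q, b q / q ≤ 2 * ((q * E.gh j q) * (q : ℝ) ^ (-1 + E.τ / 4)) := by
        intro q hq
        have h8 := hqpos q hq
        have h9 : (q : ℝ) ^ (-1 + E.τ / 4) ≥ (q : ℝ)⁻¹ := by
          rw [← Real.rpow_neg_one]
          apply Real.rpow_le_rpow_of_exponent_le h8
          linarith
        simp only [hb]
        have h10 : 0 ≤ (q : ℝ) * E.gh j q := mul_nonneg (by linarith) (g3 q)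
        rw [div_eq_mul_inv]
        nlinarith
      refine (sum_le_sum h7).trans ?_
      rw [← mul_sum]
      have h11 : (2 : ℝ) / j = 2 * (1 / j) := by ring
      rw [h11]
      exact mul_le_mul_of_nonneg_left g8Q (by norm_num)
    have h12 : ∑ s ∈ W1, ∏ q ∈ s, (b q / q) ≤ 2 :=
      h4.trans (h5.trans ((Real.exp_le_exp.2 h6).trans hexp2))
    nlinarith
  -- second sum
  have hS2 : K * ∑ s ∈ W2, ∑ n ∈ Ioc a (a + L), (if (∏ q ∈ s, q) ∣ n then (1 : ℝ) else 0) ≤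
      L := by
    have h1 : ∀ s ∈ W2, ∑ n ∈ Ioc a (a + L), (if (∏ q ∈ s, q) ∣ n then (1 : ℝ) else 0) ≤
        2 * L * (2 : ℝ) ^ (-(E.τ / 16) * (i : ℝ)) * ∏ q ∈ s, (q : ℝ) ^ (-1 + E.τ / 4) := by
      intro s hs
      rw [hW2, mem_filter] at hs
      obtain ⟨hs1, hs2, hs3⟩ := hs
      refine (hcount s hs1 hs3).trans ?_
      rw [Real.finsetProd_rpow _ _ (fun q _ => Nat.cast_nonneg q)]
      have hd : ((∏ q ∈ s, q : ℕ) : ℝ) = ∏ q ∈ s, (q : ℝ) := by push_cast; rfl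
      rw [hd]
      rw [hd] at hs2
      set d : ℝ := ∏ q ∈ s, (q : ℝ) with hdd
      have hZpos : (0 : ℝ) < Z1 := by positivity
      have hdpos : 0 < d := hZpos.trans hs2
      have h2 : d ^ (-1 + E.τ / 4) = d⁻¹ * d ^ (E.τ / 4) := by
        rw [Real.rpow_add hdpos, Real.rpow_neg_one]
      have h3 : (2 : ℝ) ^ (E.τ / 16 * (i : ℝ)) ≤ d ^ (E.τ / 4) := by
        have h4 : (2 : ℝ) ^ (E.τ / 16 * (i : ℝ)) = Z1 ^ (E.τ / 4) := by
          rw [hZ1, ← Real.rpow_mul (by norm_num)]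
          congr 1; ring
        rw [h4]
        exact Real.rpow_le_rpow hZpos.le hs2.le (by linarith)
      have h5 : (2 : ℝ) ^ (-(E.τ / 16) * (i : ℝ)) * (2 : ℝ) ^ (E.τ / 16 * (i : ℝ)) = 1 := by
        rw [← Real.rpow_add (by norm_num)]
        rw [show -(E.τ / 16) * (i : ℝ) + E.τ / 16 * (i : ℝ) = 0 by ring, Real.rpow_zero]
      rw [h2]
      have h6 : 2 * (L : ℝ) / d = 2 * L * d⁻¹ *
          ((2 : ℝ) ^ (-(E.τ / 16) * (i : ℝ)) * (2 : ℝ) ^ (E.τ / 16 * (i : ℝ))) := by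
        rw [h5]; ring
      rw [h6]
      have h7 : 2 * (L : ℝ) * d⁻¹ *
          ((2 : ℝ) ^ (-(E.τ / 16) * (i : ℝ)) * (2 : ℝ) ^ (E.τ / 16 * (i : ℝ))) ≤
          2 * (L : ℝ) * d⁻¹ *
          ((2 : ℝ) ^ (-(E.τ / 16) * (i : ℝ)) * d ^ (E.τ / 4)) := by
        apply mul_le_mul_of_nonneg_left _ (by positivity)
        exact mul_le_mul_of_nonneg_left h3 (by positivity)
      refine h7.trans (le_of_eq ?_)
      ring
    have h2 : ∑ s ∈ W2, ∑ n ∈ Ioc a (a + L), (if (∏ q ∈ s, q) ∣ n then (1 : ℝ) else 0) ≤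
        2 * L * (2 : ℝ) ^ (-(E.τ / 16) * (i : ℝ)) * 2 := by
      refine (sum_le_sum h1).trans ?_
      rw [← mul_sum]
      apply mul_le_mul_of_nonneg_left _ (by positivity)
      have h4 : ∑ s ∈ W2, ∏ q ∈ s, (q : ℝ) ^ (-1 + E.τ / 4) ≤
          ∑ s ∈ Q.powerset, ∏ q ∈ s, (q : ℝ) ^ (-1 + E.τ / 4) := by
        apply sum_le_sum_of_subset_of_nonneg (filter_subset _ _)
        intro s _ _
        exact prod_nonneg (fun q _ => by positivity)
      rw [← prod_one_add] at h4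
      have h5 := prod_one_add_le_exp Q (fun q => (q : ℝ) ^ (-1 + E.τ / 4))
        (fun q => by positivity)
      have h6 : ∑ q ∈ Q, (q : ℝ) ^ (-1 + E.τ / 4) ≤ 1 / j := by
        refine le_trans (sum_le_sum ?_) g8Q
        intro q hq
        rw [hQ, mem_filter] at hq
        have h7 := (g5 q hq.2.2).2.2
        have h8 : 0 ≤ (q : ℝ) ^ (-1 + E.τ / 4) := by positivity
        nlinarith
      exact h4.trans (h5.trans ((Real.exp_le_exp.2 h6).trans hexp1))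
    have hbig := hJ1 i (by omega)
    rw [pow_zero, mul_one] at hbig
    have h3 : (2 : ℝ) ^ (9 * E.δ * i) * (2 : ℝ) ^ ((E.τ / 16 - 9 * E.δ) * i) *
        (2 : ℝ) ^ (-(E.τ / 16) * (i : ℝ)) = 1 := by
      rw [← Real.rpow_add (by norm_num), ← Real.rpow_add (by norm_num)]
      rw [show 9 * E.δ * i + (E.τ / 16 - 9 * E.δ) * i + -(E.τ / 16) * (i : ℝ) = 0 by ring,
        Real.rpow_zero]
    have hKpos : 0 ≤ K := by positivity
    refine (mul_le_mul_of_nonneg_left h2 hKpos).trans ?_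
    rw [hK]
    have h4 : 2 * (2 : ℝ) ^ (9 * E.δ * i) * (2 * L * (2 : ℝ) ^ (-(E.τ / 16) * (i : ℝ)) * 2)
        = L * ((2 : ℝ) ^ (9 * E.δ * i) * 8 * (2 : ℝ) ^ (-(E.τ / 16) * (i : ℝ))) := by ring
    rw [h4]
    have h5 : (2 : ℝ) ^ (9 * E.δ * i) * 8 * (2 : ℝ) ^ (-(E.τ / 16) * (i : ℝ)) ≤ 1 := by
      rw [← h3]
      apply mul_le_mul_of_nonneg_right _ (by positivity)
      exact mul_le_mul_of_nonneg_left hbig (by positivity)
    nlinarith
  linarith

/-- task SI -/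
theorem main : T_SI := by
  intro E hG
  obtain ⟨JA, -, hA⟩ := A_bound E hG
  obtain ⟨JB, -, hB⟩ := B_int E hG
  have hδ := E.hδ
  have hδt := E.hδ'
  have hτ := E.hτ
  have hτ' := E.hτ'
  obtain ⟨J1, hJ1⟩ := large (1 / 10 - E.δ - E.τ / 50) 2 0 (by linarith)
  obtain ⟨J0, hJ0, hJ⟩ := hG
  refine ⟨10, by norm_num, JA + JB + J0 + J1 + 3, fun j hj R i hij k hk b hb => ?_⟩
  obtain ⟨hb2, hbτ⟩ := hb
  have hA' := hA j (by omega) i hij
  have hiR : (3 : ℝ) ≤ i := by exact_mod_cast (by omega : 3 ≤ i)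
  have hgu := gu_nonneg E j
  have hgh := gh_nonneg E j
  have hb0 : 0 < b := by omega
  have hbR : (2 : ℝ) ≤ b := by exact_mod_cast hb2
  have hbR0 : (0 : ℝ) < b := by linarith
  set h : ℕ := hh E.δ i with hhd
  have hhpos : (0 : ℝ) < h := hh_posR E.δ i
  set A : ℕ := 2 ^ i + k * h with hAd
  -- the interval
  have hAh : A + h ≤ 2 ^ (i + 1) := by
    have h1 : (k + 1) * h ≤ nc E.δ i * h := Nat.mul_le_mul_right _ hk
    rw [hhd, nc_mul hδ.le] at h1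
    rw [hAd, hhd, pow_succ]
    have : (k + 1) * hh E.δ i = k * hh E.δ i + hh E.δ i := by ring
    omega
  have hL1 : (h : ℝ) / b ≤ ((h / b + 1 : ℕ) : ℝ) := by
    push_cast
    rw [div_le_iff₀ hbR0]
    have := Nat.lt_div_mul_add hb0 (a := h)
    have h6 : (h : ℝ) < ((h / b * b + b : ℕ) : ℝ) := by exact_mod_cast this
    push_cast at h6
    linarith
  have hbig := hJ1 i (by omega)
  rw [pow_zero, mul_one] at hbig
  have hhb : (2 : ℝ) ^ (2 / 5 * (i : ℝ)) ≤ (h : ℝ) / b := by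
    rw [le_div_iff₀ hbR0]
    have h2 := lt_hh (δ := E.δ) i
    have h3 : (2 : ℝ) ^ (2 / 5 * (i : ℝ)) * (2 : ℝ) ^ (E.τ / 50 * i) *
        (2 : ℝ) ^ ((1 / 10 - E.δ - E.τ / 50) * i) = (2 : ℝ) ^ ((1 / 2 - E.δ) * i) := by
      rw [← Real.rpow_add (by norm_num), ← Real.rpow_add (by norm_num)]
      congr 1; ring
    have h4 : (0 : ℝ) < (2 : ℝ) ^ (2 / 5 * (i : ℝ)) := by positivity
    have h5 : (2 : ℝ) ^ (2 / 5 * (i : ℝ)) * b ≤
        (2 : ℝ) ^ (2 / 5 * (i : ℝ)) * (2 : ℝ) ^ (E.τ / 50 * i) :=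
      mul_le_mul_of_nonneg_left hbτ h4.le
    have h6 : (2 : ℝ) ^ (2 / 5 * (i : ℝ)) * (2 : ℝ) ^ (E.τ / 50 * i) * 2 ≤
        (2 : ℝ) ^ (2 / 5 * (i : ℝ)) * (2 : ℝ) ^ (E.τ / 50 * i) *
        (2 : ℝ) ^ ((1 / 10 - E.δ - E.τ / 50) * i) :=
      mul_le_mul_of_nonneg_left hbig (by positivity)
    rw [h3] at h6
    linarith
  have hone : (1 : ℝ) ≤ (h : ℝ) / b :=
    le_trans (Real.one_le_rpow (by norm_num) (by positivity)) hhb
  have hL2 : ((h / b + 1 : ℕ) : ℝ) ≤ 2 * ((h : ℝ) / b) := by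
    push_cast
    have : ((h / b : ℕ) : ℝ) ≤ (h : ℝ) / b := Nat.cast_div_le
    linarith
  have hend : A / b + (h / b + 1) ≤ 2 ^ (i + 1) := by
    have h1 : A / b + h / b ≤ (A + h) / b := Nat.div_add_div_le_add_div
    have h2 : (A + h) / b ≤ (A + h) / 2 := Nat.div_le_div_left hb2 (by norm_num)
    have h3 : (A + h) / 2 ≤ 2 ^ i := by
      rw [pow_succ] at hAh
      omega
    have h4 : 1 ≤ 2 ^ i := Nat.one_le_two_pow
    rw [pow_succ]
    omega
  have hB' := hB j (by omega) i hij (A / b) (h / b + 1) hend (hhb.trans hL1)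
  have hsub : cb E R i k b ⊆ Ioc (A / b) (A / b + (h / b + 1)) := by
    intro s hs
    unfold cb at hs
    rw [mem_filter, mem_Icc] at hs
    obtain ⟨-, -, -, hc⟩ := hs
    rw [mem_cell] at hc
    rw [mem_Ioc]
    constructor
    · rw [Nat.div_lt_iff_lt_mul hb0, mul_comm]
      exact hc.1
    · have h1 : s ≤ (A + h) / b := by
        rw [Nat.le_div_iff_mul_le hb0, mul_comm]
        have h2 := hc.2
        have h3 : (k + 1) * hh E.δ i = k * hh E.δ i + hh E.δ i := by ring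
        rw [h3] at h2
        rw [hAd, hhd]
        omega
      have h2 : (A + h) / b ≤ A / b + h / b + 1 := by
        rw [Nat.add_div hb0]
        split_ifs <;> omega
      omega
  set a : ℝ := (2 : ℝ) ^ (E.δ / 2 * i) / (i : ℝ) ^ 50 with ha
  have hapos : 0 < a := by positivity
  have h1 : ∀ s ∈ cb E R i k b,
      (1 / (s : ℝ)) * ∏ p ∈ s.primeFactors, (1 + 2 * (p * E.gs j i p)) ≤
        (b / 2 ^ i * a) * ∏ p ∈ s.primeFactors.filter
          (fun p : ℕ => (p : ℝ) ≤ (2 : ℝ) ^ (1 / 20 * (i : ℝ))), (1 + 2 * (p * E.gh j p)) := by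
    intro n hn
    unfold cb at hn
    rw [mem_filter, mem_Icc] at hn
    obtain ⟨⟨hn1, hn2⟩, -, -, hc⟩ := hn
    have hc2 := cell_sub hδ.le hk hc
    have hnR : (2 : ℝ) ^ i ≤ b * n := by exact_mod_cast hc2.1.le
    have hnpos : (0 : ℝ) < n := by exact_mod_cast hn1
    have h2 : ∏ p ∈ n.primeFactors, (1 + 2 * (p * E.gs j i p)) ≤
        (∏ p ∈ n.primeFactors.filter (fun p : ℕ => (p : ℝ) ≤ (2 : ℝ) ^ (3 / 5 * (i : ℝ))),
          (1 + 2 * (p * E.gu j p))) *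
        ∏ p ∈ n.primeFactors.filter
          (fun p : ℕ => (p : ℝ) ≤ (2 : ℝ) ^ (1 / 20 * (i : ℝ))), (1 + 2 * (p * E.gh j p)) := by
      rw [prod_filter, prod_filter, ← prod_mul_distrib]
      apply Finset.prod_le_prod
      · intro p _
        unfold Env.gs
        have h3 := hgu p
        have h4 := hgh p
        split_ifs <;> positivity
      · intro p _
        unfold Env.gs
        have h3 : 0 ≤ (p : ℝ) * E.gu j p := mul_nonneg (Nat.cast_nonneg p) (hgu p)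
        have h4 : 0 ≤ (p : ℝ) * E.gh j p := mul_nonneg (Nat.cast_nonneg p) (hgh p)
        split_ifs
        · nlinarith [mul_nonneg h3 h4]
        · nlinarith
        · nlinarith
        · nlinarith
    have h5 := hA' n hn1 hn2
    have hB0 : 0 ≤ ∏ p ∈ n.primeFactors.filter
          (fun p : ℕ => (p : ℝ) ≤ (2 : ℝ) ^ (1 / 20 * (i : ℝ))), (1 + 2 * (p * E.gh j p)) := by
      apply prod_nonneg
      intro p _
      have := hgh p
      positivity
    have h6 : ∏ p ∈ n.primeFactors, (1 + 2 * (p * E.gs j i p)) ≤ a *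
        ∏ p ∈ n.primeFactors.filter
          (fun p : ℕ => (p : ℝ) ≤ (2 : ℝ) ^ (1 / 20 * (i : ℝ))), (1 + 2 * (p * E.gh j p)) :=
      h2.trans (mul_le_mul_of_nonneg_right h5 hB0)
    have h7 : 1 / (n : ℝ) ≤ b / 2 ^ i := by
      rw [div_le_div_iff₀ hnpos (by positivity), one_mul]
      exact hnR
    calc (1 / (n : ℝ)) * ∏ p ∈ n.primeFactors, (1 + 2 * (p * E.gs j i p)) ≤
        (1 / (n : ℝ)) * (a * ∏ p ∈ n.primeFactors.filter
          (fun p : ℕ => (p : ℝ) ≤ (2 : ℝ) ^ (1 / 20 * (i : ℝ))), (1 + 2 * (p * E.gh j p))) :=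
          mul_le_mul_of_nonneg_left h6 (by positivity)
      _ ≤ (b / 2 ^ i) * (a * ∏ p ∈ n.primeFactors.filter
          (fun p : ℕ => (p : ℝ) ≤ (2 : ℝ) ^ (1 / 20 * (i : ℝ))), (1 + 2 * (p * E.gh j p))) :=
          mul_le_mul_of_nonneg_right h7 (mul_nonneg hapos.le hB0)
      _ = _ := by ring
  refine (sum_le_sum h1).trans ?_
  rw [← mul_sum]
  have h2 : ∑ n ∈ cb E R i k b, ∏ p ∈ n.primeFactors.filter
          (fun p : ℕ => (p : ℝ) ≤ (2 : ℝ) ^ (1 / 20 * (i : ℝ))), (1 + 2 * (p * E.gh j p)) ≤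
      5 * ((h / b + 1 : ℕ) : ℝ) := by
    refine le_trans ?_ hB'
    apply sum_le_sum_of_subset_of_nonneg hsub
    intro n _ _
    apply prod_nonneg
    intro p _
    have := hgh p
    positivity
  have h3 : (b / 2 ^ i * a) * ∑ n ∈ cb E R i k b, ∏ p ∈
      n.primeFactors.filter (fun p : ℕ => (p : ℝ) ≤ (2 : ℝ) ^ (1 / 20 * (i : ℝ))),
        (1 + 2 * (p * E.gh j p)) ≤ (b / 2 ^ i * a) * (5 * (2 * ((h : ℝ) / b))) := by
    apply mul_le_mul_of_nonneg_left _ (by positivity)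
    linarith
  refine h3.trans ?_
  have h4 := hh_le (δ_half E) i
  have h5 : (b / 2 ^ i * a) * (5 * (2 * ((h : ℝ) / b))) ≤
      (1 / 2 ^ i * a) * (10 * (2 : ℝ) ^ ((1 / 2 - E.δ) * i)) := by
    have e0 : ((b : ℝ) / 2 ^ i * a) * (5 * (2 * ((h : ℝ) / b))) = (1 / 2 ^ i * a) * (10 * h) := by
      field_simp
      ring
    rw [e0]
    apply mul_le_mul_of_nonneg_left _ (by positivity)
    linarith
  refine h5.trans ?_
  have h6 : (1 / 2 ^ i * a) * (10 * (2 : ℝ) ^ ((1 / 2 - E.δ) * i)) =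
      10 / (i : ℝ) ^ 10 * E.w i := by
    unfold Env.w
    have e1 : (2 : ℝ) ^ (-(1 / 2 + E.δ / 2) * (i : ℝ)) * (2 : ℝ) ^ i =
      (2 : ℝ) ^ ((1 / 2 - E.δ) * i) * (2 : ℝ) ^ (E.δ / 2 * i) := exp_id1 E i
    rw [ha]
    have e2 : (1 / 2 ^ i * ((2 : ℝ) ^ (E.δ / 2 * i) / (i : ℝ) ^ 50)) *
        (10 * (2 : ℝ) ^ ((1 / 2 - E.δ) * i)) = 10 / (i : ℝ) ^ 50 *
        (((2 : ℝ) ^ ((1 / 2 - E.δ) * i) * (2 : ℝ) ^ (E.δ / 2 * i)) / 2 ^ i) := by ring
    rw [e2, ← e1]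
    field_simp
  rw [h6]
  have h7 : 10 / (i : ℝ) ^ 10 ≤ 10 := by
    apply div_le_self (by norm_num)
    exact one_le_pow₀ (by linarith)
  exact mul_le_mul_of_nonneg_right h7 (w_nonneg E i)

end Pool.Agent.N408.CMO.SI
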