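import Pool.Agent.N408.CMO.Stmts
import Pool.Agent.W596.MO.UP

/-!
# MP_768c9c_nt, task UI: large control primes times an admissible multiplier
-/

set_option autoImplicit false

namespace Pool.Agent.N408.CMO.UI

open Finset Filter Topology
open scoped Classical
open Pool.Agent.W76.MO Pool.Agent.W76.MO.Env
open Pool.Agent.W596.MO
open Pool.Agent.N408.CMO

theorem main : T_UI := by
  intro E hGB hES
  have hcU := E.hcU
  have hCU := E.hCU
  set C₀ : ℝ := 2 ^ 44 * E.CU / E.cU with hC₀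
  have hC₀pos : 0 < C₀ := by positivity
  obtain ⟨R₀, hR₀⟩ := hES 1 (by positivity)
  obtain ⟨J₁, hJ₁⟩ := St_le E hGB
  obtain ⟨J₀, hJ₀1, hJ₀⟩ := hGB
  refine ⟨2 * C₀, by positivity, R₀, fun R hR => ?_⟩
  obtain ⟨J₂, hJ₂⟩ := hR₀ R hR
  refine ⟨J₀ + J₁ + J₂, fun j hj i hji k hk b hb => ?_⟩
  obtain ⟨hb2, -⟩ := hb
  obtain ⟨-, hgu, hgh, -⟩ := hJ₀ j (by omega)
  have hES2 := hJ₂ j (by omega)
  have hδ := E.hδ
  have hw0 : 0 ≤ E.w i := by unfold Env.w; positivity
  have hE2 : ∀ t : ℕ, 0 ≤ E.E2 j t := by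
    intro t
    unfold Env.E2
    apply Finset.prod_nonneg
    intro p _
    have h1 := hgu p
    have h2 := hgh p
    have : 0 ≤ E.g j p := by unfold Env.g; linarith
    positivity
  have hE2' : ∀ t : ℕ, 0 ≤ E.E2 j t / (t : ℝ) := fun t => div_nonneg (hE2 t) (Nat.cast_nonneg t)
  set T : Finset ℕ := (Icc 2 (2 ^ (i + 1))).filter (fun t => Squarefree t ∧ Rough R t) with hT
  -- the double sum
  have hmain : ∑ s ∈ cb E R i k b,
      ∑ p ∈ s.primeFactors.filter (fun p : ℕ => (2 : ℝ) ^ (3 / 5 * (i : ℝ)) < p),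
        E.gu j p * (E.E2 j (s / p) / ((s / p : ℕ) : ℝ)) ≤
      ∑ t ∈ insert 1 T, ∑ p ∈ PS E i k (b * t), E.gu j p * (E.E2 j t / (t : ℝ)) := by
    rw [Finset.sum_sigma', Finset.sum_sigma']
    set S1 := (cb E R i k b).sigma (fun n : ℕ => n.primeFactors.filter
      (fun p : ℕ => (2 : ℝ) ^ (3 / 5 * (i : ℝ)) < p)) with hS1
    have hinj : Set.InjOn (fun x : (_ : ℕ) × ℕ => (⟨x.1 / x.2, x.2⟩ : (_ : ℕ) × ℕ)) S1 := by
      rintro ⟨n, p⟩ hx ⟨n', p'⟩ hy hxy
      rw [Finset.mem_coe, hS1, mem_sigma, mem_filter] at hx hy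
      simp only [Sigma.mk.injEq, heq_eq_eq] at hxy
      obtain ⟨h1, h2⟩ := hxy
      subst h2
      have d1 := Nat.dvd_of_mem_primeFactors hx.2.1
      have d2 := Nat.dvd_of_mem_primeFactors hy.2.1
      have : n = n' := by
        have := congrArg (fun z => z * p) h1
        rwa [Nat.div_mul_cancel d1, Nat.div_mul_cancel d2] at this
      rw [this]
    have himg : ∑ x ∈ S1, E.gu j x.2 * (E.E2 j (x.1 / x.2) / ((x.1 / x.2 : ℕ) : ℝ)) =
        ∑ y ∈ S1.image (fun x : (_ : ℕ) × ℕ => (⟨x.1 / x.2, x.2⟩ : (_ : ℕ) × ℕ)),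
          E.gu j y.2 * (E.E2 j y.1 / (y.1 : ℝ)) := by
      rw [Finset.sum_image hinj]
    rw [himg]
    apply Finset.sum_le_sum_of_subset_of_nonneg
    · intro y hy
      rw [mem_image] at hy
      obtain ⟨⟨n, p⟩, hx, rfl⟩ := hy
      rw [hS1, mem_sigma, mem_filter] at hx
      obtain ⟨hn, hp, hp2⟩ := hx
      simp only at hn hp hp2 ⊢
      unfold cb at hn
      rw [mem_filter, mem_Icc] at hn
      obtain ⟨⟨hn1, hn2⟩, hsq, hro, hnc⟩ := hn
      have hpp := Nat.prime_of_mem_primeFactors hp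
      have hpd := Nat.dvd_of_mem_primeFactors hp
      have hmul : n / p * p = n := Nat.div_mul_cancel hpd
      have hnpos : 0 < n := by omega
      have htpos : 0 < n / p := by
        rcases Nat.eq_zero_or_pos (n / p) with h0 | h0
        · rw [h0] at hmul; omega
        · exact h0
      have htd : n / p ∣ n := Dvd.intro _ hmul
      rw [mem_sigma]
      refine ⟨?_, ?_⟩
      · simp only
        rw [mem_insert]
        by_cases h1' : n / p = 1
        · left; exact h1'
        · right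
          rw [hT, mem_filter, mem_Icc]
          refine ⟨⟨by omega, le_trans (Nat.div_le_self _ _) hn2⟩, hsq.squarefree_of_dvd htd, ?_⟩
          intro r hr hrd
          exact hro r hr (dvd_trans hrd htd)
      · simp only
        unfold PS
        rw [mem_filter, mul_assoc, hmul, mem_range]
        exact ⟨by have := Nat.le_of_dvd hnpos hpd; omega, hp2, hnc⟩
    · rintro ⟨t, p⟩ _ _
      exact mul_nonneg (hgu p) (hE2' t)
  have hstep : ∀ t : ℕ, ∑ p ∈ PS E i k (b * t), E.gu j p * (E.E2 j t / (t : ℝ)) =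
      (E.E2 j t / (t : ℝ)) * ∑ p ∈ PS E i k (b * t), E.gu j p := by
    intro t
    rw [Finset.mul_sum]
    apply Finset.sum_congr rfl
    intro p _
    ring
  have h1T : (1 : ℕ) ∉ T := by
    rw [hT, mem_filter, mem_Icc]; omega
  rw [Finset.sum_insert h1T] at hmain
  simp only [hstep] at hmain
  have hE21 : E.E2 j 1 / ((1 : ℕ) : ℝ) = 1 := by
    unfold Env.E2; simp
  rw [hE21, one_mul] at hmain
  -- the inner sums
  have hin : ∀ t : ℕ, 1 ≤ t → ∑ p ∈ PS E i k (b * t), E.gu j p ≤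
      C₀ * E.w i * (t : ℝ) ^ (-E.δ / 2) := by
    intro t ht
    have hbt : 2 ≤ b * t := by nlinarith
    refine le_trans (hJ₁ j (by omega) i hji k hk (b * t) hbt) ?_
    apply mul_le_mul_of_nonneg_left _ (by positivity)
    have ht0 : (0 : ℝ) < t := by exact_mod_cast ht
    apply Real.rpow_le_rpow_of_nonpos ht0
    · push_cast
      have : (1 : ℝ) ≤ b := by exact_mod_cast (show 1 ≤ b by omega)
      nlinarith
    · linarith
  have hone : ∑ p ∈ PS E i k (b * 1), E.gu j p ≤ C₀ * E.w i := by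
    have := hin 1 le_rfl
    simpa using this
  have hrest : ∑ t ∈ T, (E.E2 j t / (t : ℝ)) * ∑ p ∈ PS E i k (b * t), E.gu j p ≤
      C₀ * E.w i := by
    calc ∑ t ∈ T, (E.E2 j t / (t : ℝ)) * ∑ p ∈ PS E i k (b * t), E.gu j p
        ≤ ∑ t ∈ T, (E.E2 j t / (t : ℝ)) * (C₀ * E.w i * (t : ℝ) ^ (-E.δ / 2)) := by
          apply Finset.sum_le_sum
          intro t ht
          rw [hT, mem_filter, mem_Icc] at ht
          apply mul_le_mul_of_nonneg_left _ (hE2' t)
          exact hin t (by omega)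
      _ = C₀ * E.w i * ∑ t ∈ T, E.E2 j t / t * (t : ℝ) ^ (-E.δ / 2) := by
          rw [Finset.mul_sum]
          apply Finset.sum_congr rfl
          intro t _
          ring
      _ ≤ C₀ * E.w i * 1 := by
          apply mul_le_mul_of_nonneg_left (hES2 _) (by positivity)
      _ = C₀ * E.w i := by ring
  linarith

end Pool.Agent.N408.CMO.UI
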