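import Pool.Agent.N408.CMO.FIN
import Pool.Agent.W76.MO.Final
import Pool.Agent.N408.CMO.UI
import Pool.Agent.N408.CMO.SI
import Pool.Agent.N408.CMO.HI1x
import Pool.Agent.N408.CMO.HIB
import Pool.Agent.N408.CMO.HIA
import Pool.Agent.N408.CMO.HIX
import Pool.Agent.N408.CMO.INN
import Pool.Agent.N408.CMO.LS
import Pool.Agent.N408.CMO.NS
import Pool.Agent.N408.CMO.FQ
import Pool.Agent.N408.CMO.UQ
import Pool.Agent.N408.CMO.A2
import Pool.Agent.N408.CMO.A3
import Pool.Agent.N408.CMO.A4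

/-!
# The main theorem
-/

set_option autoImplicit false

namespace Pool.Agent.N408.CMO.FIN2

open Pool.Agent.W76.MO Pool.Agent.N408.CMO

theorem hosts : Hosts := Pool.Agent.W544.MO.main Pool.Agent.W761.MO.btr midRange

theorem main : T_FIN :=
  FIN.main_of Pool.Agent.W761.MO.btr hosts Pool.Agent.W501.MO.hc
    Pool.Agent.W683.MO.gb Pool.Agent.W280.MO.T_ES_proof Pool.Agent.W596.MO.upart
    Pool.Agent.W683.MO.sp Pool.Agent.W1.MO.pb Pool.Agent.W640.MO.h1 Pool.Agent.W356.MO.HB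
    Pool.Agent.W326.MO.task_HA Pool.Agent.W356.MO.HX
    UI.main SI.main HI1x.main HIB.main HIA.main HIX.main INN.main LS.main NS.main FQ.main UQ.main
    A2.main A3.main A4.main

end Pool.Agent.N408.CMO.FIN2
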