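import Pool.Agent.W76.MO.Stmts

/-!
# MP_768c9c_nt: a completely multiplicative function with sum zero and partial sums
`O(x^(-1/2-c))`, assuming (quasi) RH.  Definitions and statements of the tasks.

The engine `Pool.Agent.W76.MO` (for multiplicative functions supported on squarefree numbers) is
reused; the new point is the contribution of the non-squarefree numbers.
-/

set_option autoImplicit false

namespace Pool.Agent.N408.CMO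

open Finset Filter Topology
open scoped Classical
open Pool.Agent.W76.MO

/-- completely multiplicative extension of `φ` (only the values at primes matter) -/
noncomputable def cm (φ : ℕ → ℝ) (n : ℕ) : ℝ := (n.primeFactorsList.map φ).prod

/-- squarefree `R`-rough `s` with `b s` in the cell `(i, k)` -/
noncomputable def cb (E : Env) (R i k b : ℕ) : Finset ℕ :=
  (Icc 1 (2 ^ (i + 1))).filter (fun s => Squarefree s ∧ Rough R s ∧ b * s ∈ cell E.δ i k)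

/-- the multiplier `b` is admissible for the scale `i` -/
def Adm (E : Env) (i b : ℕ) : Prop := 2 ≤ b ∧ (b : ℝ) ≤ (2 : ℝ) ^ (E.τ / 50 * i)

/-- contribution of the large control primes of the first kind to the numbers `b s` -/
def UInn (E : Env) : Prop := ∃ C : ℝ, 0 < C ∧ ∃ R₀ : ℕ, ∀ R : ℕ, R₀ ≤ R → ∃ J : ℕ,
  ∀ j : ℕ, J ≤ j → ∀ i : ℕ, j ≤ i → ∀ k : ℕ, k < nc E.δ i → ∀ b : ℕ, Adm E i b →
    ∑ s ∈ cb E R i k b, ∑ p ∈ s.primeFactors.filter (fun p : ℕ => (2 : ℝ) ^ (3 / 5 * (i : ℝ)) < p),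
      E.gu j p * (E.E2 j (s / p) / ((s / p : ℕ) : ℝ)) ≤ C * E.w i

/-- contribution of the host primes `> 2^(i/20)` to the numbers `b s` -/
def HInn (E : Env) : Prop := ∃ C : ℝ, 0 < C ∧ ∃ R₀ : ℕ, ∀ R : ℕ, R₀ ≤ R → ∃ J : ℕ,
  ∀ j : ℕ, J ≤ j → ∀ i : ℕ, j ≤ i → ∀ k : ℕ, k < nc E.δ i → ∀ b : ℕ, Adm E i b →
    ∑ s ∈ cb E R i k b, ∑ q ∈ s.primeFactors.filter (fun q : ℕ => (2 : ℝ) ^ (1 / 20 * (i : ℝ)) < q),
      E.gh j q * (E.E2 j (s / q) / ((s / q : ℕ) : ℝ)) ≤ C * E.w i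

/-- contribution of the small control primes to the numbers `b s` -/
def SInn (E : Env) : Prop := ∃ C : ℝ, 0 < C ∧ ∃ J : ℕ,
  ∀ j : ℕ, J ≤ j → ∀ R i : ℕ, j ≤ i → ∀ k : ℕ, k < nc E.δ i → ∀ b : ℕ, Adm E i b →
    ∑ s ∈ cb E R i k b, (1 / (s : ℝ)) * ∏ p ∈ s.primeFactors, (1 + 2 * (p * E.gs j i p)) ≤
      C * E.w i

/-- the whole contribution of the numbers `b s` -/
def Inn (E : Env) : Prop := ∃ C : ℝ, 0 < C ∧ ∃ R₀ : ℕ, ∀ R : ℕ, R₀ ≤ R → ∃ J : ℕ,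
  ∀ j : ℕ, J ≤ j → ∀ i : ℕ, j ≤ i → ∀ k : ℕ, k < nc E.δ i → ∀ b : ℕ, Adm E i b →
    ∑ s ∈ cb E R i k b, E.E2 j s / s ≤ C * E.w i

/-- host sums, as `Env.HT`, with the cell replaced by `cb` -/
noncomputable def HTb (E : Env) (j R i k b i' k' : ℕ) (P : ℕ → ℕ → Prop) : ℝ :=
  ∑ u ∈ ((E.Host j i' k') ×ˢ (cb E R i k b)).filter (fun u : ℕ × ℕ =>
      lp u.1 ∣ u.2 ∧ (2 : ℝ) ^ (1 / 20 * (i : ℝ)) < lp u.1 ∧ P u.1 u.2),
    E.w i' / ((E.Host j i' k').card : ℝ) * ((u.1 : ℝ) / u.2) * E.E2 j (u.2 / lp u.1)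

/-- hosts of cells of scale `< (1-τ) i` -/
def H1b (E : Env) : Prop := ∃ J : ℕ, ∀ j : ℕ, J ≤ j → ∀ R i k b : ℕ, j ≤ i → k < nc E.δ i →
  Adm E i b →
  ∑ i' ∈ (range (2 * i + 3)).filter (fun i' : ℕ => j ≤ i' ∧ (i' : ℝ) < (1 - E.τ) * i),
    ∑ k' ∈ E.Bad i', HTb E j R i k b i' k' (fun _ _ => True) ≤ E.w i

/-- hosts of cells of scale `≥ (1-τ) i`, pairs with `n₁ ∤ s` -/
def HBb (E : Env) : Prop := ∃ J : ℕ, ∀ j : ℕ, J ≤ j → ∀ R i k b : ℕ, j ≤ i → k < nc E.δ i →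
  Adm E i b →
  ∑ i' ∈ (range (2 * i + 3)).filter (fun i' : ℕ => j ≤ i' ∧ (1 - E.τ) * i ≤ (i' : ℝ)),
    ∑ k' ∈ E.Bad i', HTb E j R i k b i' k' (fun a b => ¬ a ∣ b) ≤ E.w i

/-- hosts of cells of scale `≥ (1-τ) i`, pairs with `n₁ ∣ s` -/
def HAb (E : Env) : Prop := ∃ C : ℝ, 0 < C ∧ ∃ R₀ : ℕ, ∀ R : ℕ, R₀ ≤ R → ∃ J : ℕ,
  ∀ j : ℕ, J ≤ j → ∀ i k b : ℕ, j ≤ i → k < nc E.δ i → Adm E i b →
  ∑ i' ∈ (range (2 * i + 3)).filter (fun i' : ℕ => j ≤ i' ∧ (1 - E.τ) * i ≤ (i' : ℝ)),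
    ∑ k' ∈ E.Bad i', HTb E j R i k b i' k' (fun a b => a ∣ b) ≤ C * E.w i

/-- few numbers in a cell are divisible by the square of a large number -/
def LSq (δ : ℝ) : Prop := ∃ J : ℕ, ∀ i : ℕ, J ≤ i → ∀ k : ℕ, k < nc δ i →
  ((((Icc 1 (2 ^ (i + 1))) ×ˢ (Icc 1 (2 ^ (i + 1)))).filter (fun u : ℕ × ℕ =>
      (2 : ℝ) ^ (9 * δ * i) < u.1 ∧ u.1 ^ 2 * u.2 ∈ cell δ i k)).card : ℝ) ≤
    8 * hh δ i * (2 : ℝ) ^ (-(9 * δ) * i)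

/-- the `R`-rough elements of a cell which are not squarefree -/
noncomputable def ns (E : Env) (R i k : ℕ) : Finset ℕ :=
  (cell E.δ i k).filter (fun n => Rough R n ∧ ¬ Squarefree n)

/-- contribution of the numbers which are not squarefree -/
def NSPart (E : Env) : Prop := ∃ R₀ : ℕ, ∀ R : ℕ, R₀ ≤ R → ∃ J : ℕ,
  ∀ j : ℕ, J ≤ j → ∀ i : ℕ, j ≤ i → ∀ k : ℕ, k < nc E.δ i →
    ∑ n ∈ ns E R i k, cm (fun p => 1 + 2 * (p * E.g j p)) n / n ≤ E.w i / 16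

/-- the conclusion: a completely multiplicative function with fast decreasing partial sums -/
def CConcl : Prop := ∃ f : ℕ → ℂ, f 1 = 1 ∧ (∀ m n : ℕ, 0 < m → 0 < n → f (m * n) = f m * f n) ∧
  ∃ c C : ℝ, 0 < c ∧ 0 < C ∧
    ∀ N : ℕ, 1 ≤ N → ‖∑ n ∈ Icc 1 N, f n‖ ≤ C * (N : ℝ) ^ (-(1 / 2 : ℝ) - c)

/-! ### the tasks -/

/-- task UI -/
def T_UI : Prop := ∀ E : Env, E.GBounds → E.ESum → UInn E
/-- task SI -/
def T_SI : Prop := ∀ E : Env, E.GBounds → SInn E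
/-- task HI1 -/
def T_HI1 : Prop := ∀ E : Env, E.HCount → E.GBounds → H1b E
/-- task HIB -/
def T_HIB : Prop := ∀ E : Env, E.HCount → E.GBounds → Env.PairB E.τ E.δ → HBb E
/-- task HIA -/
def T_HIA : Prop := ∀ E : Env, E.HCount → E.GBounds → E.ESum → HAb E
/-- task HIX -/
def T_HIX : Prop := ∀ E : Env, E.GBounds → H1b E → HAb E → HBb E → HInn E
/-- task INN -/
def T_INN : Prop := ∀ E : Env, E.GBounds → UInn E → HInn E → SInn E → Inn E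
/-- task LS -/
def T_LS : Prop := ∀ δ : ℝ, 0 < δ → δ ≤ 1 / 1000 → LSq δ
/-- task NS -/
def T_NS : Prop := ∀ E : Env, E.GBounds → Inn E → LSq E.δ → NSPart E
/-- task ASM -/
def T_ASM : Prop := ∀ E : Env, E.HCount → E.GBounds → E.UPart → E.HPart → E.SPart → NSPart E →
  CConcl

/-! ### quasi RH -/

/-- `ζ` has no zero with real part `> 1/2 + κ` -/
def QRH (κ : ℝ) : Prop := ∀ s : ℂ, 1 / 2 + κ < s.re → s ≠ 1 → riemannZeta s ≠ 0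

/-- (FEWQ) few cells with few primes, under quasi RH -/
def FewBadQ : Prop := ∃ c : ℝ, 0 < c ∧ ∀ κ : ℝ, 0 ≤ κ → κ < 1 / 8 → QRH κ →
  ∀ δ ε : ℝ, 0 < δ → δ < 1 / 4 → 0 < ε →
    ∃ i₀ : ℕ, 1 ≤ i₀ ∧ ∀ i : ℕ, i₀ ≤ i →
      (((range (nc δ i)).filter (fun k =>
        (((cell δ i k).filter Nat.Prime).card : ℝ) < c * hh δ i / i)).card : ℝ) ≤
          (2 : ℝ) ^ ((2 * δ + 2 * κ + ε) * i)

/-- (USETQ) existence of the set `isU` under quasi RH -/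
def USetQ : Prop := ∀ κ : ℝ, 0 ≤ κ → κ < 1 / 8 → QRH κ →
  ∀ τ δ : ℝ, 0 < τ → τ ≤ 1 / 100 → 0 < δ → δ ≤ τ / 1000 → 4 * κ ≤ δ →
  ∃ (isU : ℕ → Prop) (CU cU : ℝ) (i₁ : ℕ), 1 ≤ CU ∧ 0 < cU ∧ 1 ≤ i₁ ∧ (∀ p, isU p → p.Prime) ∧
  (∀ i : ℕ, i₁ ≤ i → ∀ a L : ℕ, 2 ^ i ≤ a → a + L ≤ 2 ^ (i + 1) →
    (2 : ℝ) ^ (τ / 4 * i) ≤ L → (((Ioc a (a + L)).filter isU).card : ℝ) ≤ CU * L / (i : ℝ) ^ 4) ∧
  (∀ i : ℕ, i₁ ≤ i → (((range (nc δ i)).filter (fun k =>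
    (((cell δ i k).filter isU).card : ℝ) < cU * hh δ i / (i : ℝ) ^ 4)).card : ℝ) ≤
      (2 : ℝ) ^ (3 * δ * i))

/-- task FQ -/
def T_FQ : Prop := FewBadQ
/-- task UQ -/
def T_UQ : Prop := BTR → FewBadQ → USetQ

end Pool.Agent.N408.CMO
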