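import Pool.Agent.N408.CMO.ASM1

/-!
# Statements of the assembly tasks
-/

set_option autoImplicit false

namespace Pool.Agent.N408.CMO

open Finset Filter Topology
open scoped Classical
open Pool.Agent.W76.MO

/-- rough numbers up to `2^j` -/
noncomputable def A0c (R j : ℕ) : Finset ℕ := (Icc 1 (2 ^ j)).filter (fun n => Rough R n)

/-- the `R`-rough elements of a cell -/
noncomputable def cr (E : Env) (R i k : ℕ) : Finset ℕ := (cell E.δ i k).filter (fun n => Rough R n)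

/-- the first block -/
def First (E : Env) : Prop := ∀ R : ℕ, ∃ J : ℕ, 1 ≤ J ∧ ∀ j : ℕ, J ≤ j →
  (E.UB j).Nonempty ∧ (∀ p ∈ E.UB j, p.Prime) ∧
  (∀ (z z' : ℕ × ℕ → ℝ), ∀ p ∈ E.UB j, fc E j z p - fc E j z' p =
    (z (j - 1, 0) - z' (j - 1, 0)) * (8 * j / ((E.UB j).card : ℝ))) ∧
  ∃ B : ℕ → ℝ, (∀ n, 0 ≤ B n) ∧ (∀ p ∈ E.UB j, B p = 8 * j / ((E.UB j).card : ℝ)) ∧
    ∑ n ∈ A0c R j, B n ≤ 8 * j + 2 ∧
    ∀ (z z' : ℕ × ℕ → ℝ) (ε : ℝ), (∀ i, |z i| ≤ 1) → (∀ i, |z' i| ≤ 1) → (∀ i, |z i - z' i| ≤ ε) →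
      ∀ n ∈ A0c R j, |fc E j z n - fc E j z' n| ≤ ε * B n

/-- a solution of the system -/
structure SolC (E : Env) (R j : ℕ) (z : ℕ × ℕ → ℝ) : Prop where
  z1 : ∀ x, |z x| ≤ 1
  R2 : 2 ≤ R
  j10 : 10 ≤ j
  first : ∑ n ∈ A0c R j, fc E j z n = 0
  cells : ∀ i k : ℕ, j ≤ i → k < nc E.δ i → ∑ n ∈ cr E R i k, fc E j z n = 0
  abs : ∀ i k : ℕ, j ≤ i → k < nc E.δ i → ∑ n ∈ cr E R i k, |fc E j z n| ≤ 8 * E.w i

/-- task A2 -/
def T_A2 : Prop := ∀ E : Env, E.GBounds → First E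
/-- task A3 -/
def T_A3 : Prop := ∀ E : Env, E.HCount → E.GBounds → E.UPart → E.HPart → E.SPart → NSPart E →
  First E → ∃ (R j : ℕ) (z : ℕ × ℕ → ℝ), SolC E R j z
/-- task A4 -/
def T_A4 : Prop := ∀ (E : Env) (R j : ℕ) (z : ℕ × ℕ → ℝ), SolC E R j z → CConcl

/-- task FIN: everything together -/
def T_FIN : Prop := ∃ κ : ℝ, 0 < κ ∧ (QRH κ → CConcl)

end Pool.Agent.N408.CMO
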